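import Mathlib

/-! Lemma SL and Lemma TG of T16 (MP_dc5c2a_ag).  Paper: helper37. -/

namespace Pool.Agent.T16X

open Finset

set_option linter.unusedSectionVars false

variable {V E : Type*} [Fintype V] [DecidableEq V] [DecidableEq E]

/-- divergence at `v` of the set `X` of arcs -/
def bd (src tgt : E → V) (X : Finset E) (v : V) : ℤ :=
  ∑ a ∈ X, ((if src a = v then (1 : ℤ) else 0) - (if tgt a = v then (1 : ℤ) else 0))

/-- arcs of `X` leaving `S` -/
def outs (src tgt : E → V) (X : Finset E) (S : Finset V) : Finset E :=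
  X.filter fun a => src a ∈ S ∧ tgt a ∉ S

/-- arcs of `X` entering `S` -/
def inn (src tgt : E → V) (X : Finset E) (S : Finset V) : Finset E :=
  X.filter fun a => src a ∉ S ∧ tgt a ∈ S

lemma sum_ite_mem (S : Finset V) (x : V) :
    (∑ v ∈ S, if x = v then (1 : ℤ) else 0) = if x ∈ S then 1 else 0 := by
  rw [Finset.sum_ite_eq]

lemma sum_bd (src tgt : E → V) (X : Finset E) (S : Finset V) :
    ∑ v ∈ S, bd src tgt X v =
      ((outs src tgt X S).card : ℤ) - ((inn src tgt X S).card : ℤ) := by
  unfold bd outs inn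
  rw [Finset.sum_comm]
  rw [Finset.card_filter, Finset.card_filter]
  push_cast
  rw [← Finset.sum_sub_distrib]
  refine Finset.sum_congr rfl fun a _ => ?_
  rw [Finset.sum_sub_distrib, sum_ite_mem, sum_ite_mem]
  by_cases h1 : src a ∈ S <;> by_cases h2 : tgt a ∈ S <;> simp [h1, h2]

lemma bd_empty (src tgt : E → V) (v : V) : bd src tgt ∅ v = 0 := by simp [bd]

lemma bd_insert (src tgt : E → V) (X : Finset E) (a : E) (ha : a ∉ X) (v : V) :
    bd src tgt (insert a X) v =
      ((if src a = v then (1 : ℤ) else 0) - (if tgt a = v then (1 : ℤ) else 0)) +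
        bd src tgt X v := by
  unfold bd
  rw [Finset.sum_insert ha]

lemma bd_swap (src tgt : E → V) (X : Finset E) (v : V) :
    bd tgt src X v = - bd src tgt X v := by
  unfold bd
  rw [← Finset.sum_neg_distrib]
  refine Finset.sum_congr rfl fun a _ => ?_
  ring

/-- tail of an arc in the orientation with the arcs of `B` reversed -/
def tl (src tgt : E → V) (B : Finset E) (a : E) : V := if a ∈ B then tgt a else src a

/-- head of an arc in the orientation with the arcs of `B` reversed -/
def hd (src tgt : E → V) (B : Finset E) (a : E) : V := if a ∈ B then src a else tgt a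

lemma bd_flip (src tgt : E → V) (B Q : Finset E) (v : V) :
    bd src tgt (symmDiff B Q) v = bd src tgt B v + bd (tl src tgt B) (hd src tgt B) Q v := by
  classical
  set w : E → ℤ := fun a =>
    (if src a = v then (1 : ℤ) else 0) - (if tgt a = v then (1 : ℤ) else 0) with hw
  have e1 : bd src tgt (symmDiff B Q) v = ∑ a ∈ B ∪ Q, if a ∈ symmDiff B Q then w a else 0 := by
    unfold bd
    rw [← Finset.sum_filter]
    congr 1
    ext a
    simp only [Finset.mem_symmDiff, Finset.mem_filter, Finset.mem_union]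
    tauto
  have e2 : bd src tgt B v = ∑ a ∈ B ∪ Q, if a ∈ B then w a else 0 := by
    unfold bd
    rw [← Finset.sum_filter]
    congr 1
    ext a
    simp only [Finset.mem_filter, Finset.mem_union]
    tauto
  have e3 : bd (tl src tgt B) (hd src tgt B) Q v =
      ∑ a ∈ B ∪ Q, if a ∈ Q then (if a ∈ B then - w a else w a) else 0 := by
    unfold bd
    rw [← Finset.sum_filter]
    have : (B ∪ Q).filter (fun a => a ∈ Q) = Q := by
      ext a
      simp only [Finset.mem_filter, Finset.mem_union]
      tauto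
    rw [this]
    refine Finset.sum_congr rfl fun a _ => ?_
    unfold tl hd
    by_cases h : a ∈ B
    · simp only [h, if_true, hw]; ring
    · simp only [h, if_false, hw]
  rw [e1, e2, e3, ← Finset.sum_add_distrib]
  refine Finset.sum_congr rfl fun a _ => ?_
  by_cases h1 : a ∈ B <;> by_cases h2 : a ∈ Q <;> simp [h1, h2, Finset.mem_symmDiff]

lemma bd_rev (src tgt : E → V) (W B : Finset E) (hB : B ⊆ W) (v : V) :
    bd (tl src tgt B) (hd src tgt B) W v = bd src tgt W v - 2 * bd src tgt B v := by
  have h := bd_flip src tgt B W v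
  have h2 : bd src tgt (symmDiff B W) v + bd src tgt B v = bd src tgt W v := by
    have : symmDiff B W = W \ B := by
      ext a
      simp only [Finset.mem_symmDiff, Finset.mem_sdiff]
      constructor
      · rintro (⟨h1, h2⟩ | h)
        · exact absurd (hB h1) h2
        · exact h
      · intro h; exact Or.inr h
    rw [this]
    unfold bd
    rw [Finset.sum_sdiff hB]
  linarith

/-- path lemma, cut form -/
theorem PL (src tgt : E → V) (X : Finset E) (u v : V)
    (h : ∀ S : Finset V, u ∈ S → v ∉ S → ∃ a ∈ X, src a ∈ S ∧ tgt a ∉ S) :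
    ∃ Q ⊆ X, ∀ w, bd src tgt Q w = (if u = w then (1 : ℤ) else 0) - (if v = w then 1 else 0) := by
  classical
  have key : ∀ n : ℕ, ∀ S : Finset V, (Sᶜ).card = n → u ∈ S →
      (∀ x ∈ S, ∃ Q ⊆ X, (∀ a ∈ Q, src a ∈ S ∧ tgt a ∈ S) ∧
        ∀ w, bd src tgt Q w = (if u = w then (1 : ℤ) else 0) - (if x = w then 1 else 0)) →
      ∃ Q ⊆ X, ∀ w, bd src tgt Q w =
        (if u = w then (1 : ℤ) else 0) - (if v = w then 1 else 0) := by
    intro n
    induction n with
    | zero =>
      intro S hS hu hx
      have : v ∈ S := by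
        rw [Finset.card_eq_zero, Finset.compl_eq_empty_iff] at hS
        rw [hS]; exact Finset.mem_univ _
      obtain ⟨Q, h1, _, h3⟩ := hx v this
      exact ⟨Q, h1, h3⟩
    | succ n ih =>
      intro S hS hu hx
      by_cases hv : v ∈ S
      · obtain ⟨Q, h1, _, h3⟩ := hx v hv
        exact ⟨Q, h1, h3⟩
      obtain ⟨a, haX, ha1, ha2⟩ := h S hu hv
      refine ih (insert (tgt a) S) ?_ (Finset.mem_insert_of_mem hu) ?_
      · have : (insert (tgt a) S)ᶜ = (Sᶜ).erase (tgt a) := by
          ext y; simp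
        rw [this, Finset.card_erase_of_mem (by simpa using ha2), hS]
        rfl
      · intro x hxS
        rw [Finset.mem_insert] at hxS
        rcases hxS with rfl | hxS
        · obtain ⟨Q, h1, h2, h3⟩ := hx (src a) ha1
          have haQ : a ∉ Q := fun hq => ha2 (h2 a hq).2
          refine ⟨insert a Q, Finset.insert_subset haX h1, ?_, ?_⟩
          · intro b hb
            rw [Finset.mem_insert] at hb
            rcases hb with rfl | hb
            · exact ⟨Finset.mem_insert_of_mem ha1, Finset.mem_insert_self _ _⟩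
            · exact ⟨Finset.mem_insert_of_mem (h2 b hb).1, Finset.mem_insert_of_mem (h2 b hb).2⟩
          · intro w
            rw [bd_insert _ _ _ _ haQ, h3]
            ring
        · obtain ⟨Q, h1, h2, h3⟩ := hx x hxS
          exact ⟨Q, h1, fun b hb => ⟨Finset.mem_insert_of_mem (h2 b hb).1,
            Finset.mem_insert_of_mem (h2 b hb).2⟩, h3⟩
  refine key _ {u} rfl (Finset.mem_singleton_self _) ?_
  intro x hx
  rw [Finset.mem_singleton] at hx
  subst hx
  exact ⟨∅, Finset.empty_subset _, by simp, fun w => by simp [bd_empty]⟩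

/-- the counting lemma -/
theorem cuts {ι : Type*} [DecidableEq ι] (J : Finset ι) (tl hd : E → V) (W E0 : Finset E)
    (hW : ∀ v, bd tl hd W v = 0) (hJ : E0.card < J.card)
    (S : ι → Finset V) (f f' : ι → E) (hf'W : ∀ j ∈ J, f' j ∈ W)
    (hout : ∀ j ∈ J, ∀ a ∈ W, tl a ∈ S j → hd a ∉ S j → a ∈ E0 ∨ a = f j)
    (h1 : ∀ j ∈ J, ∀ l ∈ J, l ≠ j → tl (f j) ∉ S l)
    (h3 : ∀ j ∈ J, tl (f' j) ∉ S j) (h4 : ∀ j ∈ J, hd (f' j) ∈ S j)
    (h2 : ∀ j ∈ J, ∀ l ∈ J, l ≠ j → hd (f' j) ∉ S l) :
    ∃ j ∈ J, outs tl hd W (S j \ (J.erase j).biUnion S) = {f j} ∧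
      inn tl hd W (S j \ (J.erase j).biUnion S) = {f' j} := by
  classical
  set A : ι → Finset V := fun j => S j \ (J.erase j).biUnion S with hA
  have memA : ∀ j x, x ∈ A j ↔ x ∈ S j ∧ ∀ l ∈ J, l ≠ j → x ∉ S l := by
    intro j x
    simp only [hA, Finset.mem_sdiff, Finset.mem_biUnion, Finset.mem_erase, not_exists, not_and,
      and_imp]
    constructor
    · rintro ⟨h, h'⟩; exact ⟨h, fun l hl hlj => h' l hlj hl⟩
    · rintro ⟨h, h'⟩; exact ⟨h, fun l hlj hl => h' l hl hlj⟩
  have bal : ∀ S : Finset V, (outs tl hd W S).card = (inn tl hd W S).card := by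
    intro S
    have := sum_bd tl hd W S
    rw [Finset.sum_eq_zero (fun v _ => hW v)] at this
    omega
  by_contra hcon
  push Not at hcon
  have hg : ∀ j ∈ J, ∃ a ∈ W, tl a ∈ A j ∧ hd a ∉ A j ∧ a ≠ f j := by
    intro j hj
    by_contra hno
    push Not at hno
    have hsub : outs tl hd W (A j) ⊆ {f j} := by
      intro a ha
      simp only [outs, Finset.mem_filter] at ha
      rw [Finset.mem_singleton]
      exact hno a ha.1 ha.2.1 ha.2.2
    have hin : f' j ∈ inn tl hd W (A j) := by
      simp only [inn, Finset.mem_filter]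
      refine ⟨hf'W j hj, ?_, ?_⟩
      · rw [memA]; intro h; exact h3 j hj h.1
      · rw [memA]; exact ⟨h4 j hj, fun l hl hlj => h2 j hj l hl hlj⟩
    have hc1 : (outs tl hd W (A j)).card ≤ 1 := by
      calc _ ≤ ({f j} : Finset E).card := Finset.card_le_card hsub
        _ = 1 := Finset.card_singleton _
    have hc2 : 1 ≤ (inn tl hd W (A j)).card := Finset.card_pos.2 ⟨_, hin⟩
    have hb := bal (A j)
    have e1 : outs tl hd W (A j) = {f j} := by
      apply Finset.eq_of_subset_of_card_le hsub
      rw [Finset.card_singleton]; omega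
    have e2 : inn tl hd W (A j) = {f' j} := by
      symm
      apply Finset.eq_of_subset_of_card_le (Finset.singleton_subset_iff.2 hin)
      rw [Finset.card_singleton]; omega
    exact hcon j hj e1 e2
  obtain ⟨j0, hj0⟩ : J.Nonempty := by
    rw [← Finset.card_pos]; omega
  have : Nonempty E := ⟨f j0⟩
  choose! g hgW hgt hgh hgf using hg
  set Z : Finset V := Finset.univ.filter fun x => ∃ j ∈ J, ∃ l ∈ J, j ≠ l ∧ x ∈ S j ∧ x ∈ S l
    with hZ
  have memZ : ∀ x, x ∈ Z ↔ ∃ j ∈ J, ∃ l ∈ J, j ≠ l ∧ x ∈ S j ∧ x ∈ S l := by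
    intro x; simp [hZ]
  have hZA : ∀ j ∈ J, ∀ x ∈ A j, x ∉ Z := by
    intro j hj x hx hz
    rw [memZ] at hz
    obtain ⟨a, ha, b, hb, hab, hxa, hxb⟩ := hz
    rw [memA] at hx
    by_cases haj : a = j
    · subst haj; exact hx.2 b hb (Ne.symm hab) hxb
    · exact hx.2 a ha haj hxa
  have hZout : outs tl hd W Z ⊆ E0.filter fun a => tl a ∈ Z := by
    intro a ha
    simp only [outs, Finset.mem_filter] at ha
    obtain ⟨haW, hat, hah⟩ := ha
    rw [Finset.mem_filter]
    refine ⟨?_, hat⟩
    rw [memZ] at hat hah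
    obtain ⟨j, hj, l, hl, hjl, hx1, hx2⟩ := hat
    push Not at hah
    by_cases hh : hd a ∈ S j
    · have := hah j hj l hl hjl hh
      rcases hout l hl a haW hx2 this with h | h
      · exact h
      · exfalso; subst h; exact h1 l hl j hj hjl hx1
    · rcases hout j hj a haW hx1 hh with h | h
      · exact h
      · exfalso; subst h; exact h1 j hj l hl (Ne.symm hjl) hx2
  have hginj : Set.InjOn g (J : Set ι) := by
    intro j hj l hl hjl
    by_contra hne
    have hx := hgt j hj
    have hy := hgt l hl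
    rw [← hjl] at hy
    rw [memA] at hx hy
    exact hx.2 l hl (Ne.symm hne) hy.1
  have hgim : J.image g ⊆ (E0.filter fun a => tl a ∉ Z) ∪ inn tl hd W Z := by
    intro a ha
    rw [Finset.mem_image] at ha
    obtain ⟨j, hj, rfl⟩ := ha
    rw [Finset.mem_union]
    have ht := hZA j hj _ (hgt j hj)
    by_cases hh : hd (g j) ∈ S j
    · right
      simp only [inn, Finset.mem_filter]
      refine ⟨hgW j hj, ht, ?_⟩
      have := hgh j hj
      rw [memA] at this
      push Not at this
      obtain ⟨l, hl, hlj, hx⟩ := this hh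
      rw [memZ]
      exact ⟨j, hj, l, hl, Ne.symm hlj, hh, hx⟩
    · left
      rw [Finset.mem_filter]
      refine ⟨?_, ht⟩
      have hx := (memA j _).1 (hgt j hj)
      rcases hout j hj _ (hgW j hj) hx.1 hh with h | h
      · exact h
      · exact absurd h (hgf j hj)
  have c1 : J.card ≤ (E0.filter fun a => tl a ∉ Z).card + (inn tl hd W Z).card := by
    calc J.card = (J.image g).card := (Finset.card_image_of_injOn hginj).symm
      _ ≤ _ := Finset.card_le_card hgim
      _ ≤ _ := Finset.card_union_le _ _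
  have c2 : (inn tl hd W Z).card ≤ (E0.filter fun a => tl a ∈ Z).card := by
    rw [← bal Z]; exact Finset.card_le_card hZout
  have c3 := Finset.card_filter_add_card_filter_not (s := E0) (fun a => tl a ∈ Z)
  omega


/-- simple circuit, cyclically indexed -/
structure Circ (tl hd : E → V) (n : ℕ) (g : ZMod n → E) : Prop where
  step : ∀ i, hd (g i) = tl (g (i + 1))
  inj : Function.Injective fun i => tl (g i)

lemma Circ.ginj {tl hd : E → V} {n : ℕ} {g : ZMod n → E} (hc : Circ tl hd n g) :
    Function.Injective g := by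
  intro i j hij
  apply hc.inj
  simp only [hij]

lemma Circ.rev {tl hd : E → V} {n : ℕ} {g : ZMod n → E} (hc : Circ tl hd n g) :
    Circ hd tl n fun i => g (-i) := by
  constructor
  · intro i
    have := hc.step (-(i + 1))
    rw [this]
    congr 2
    ring
  · intro i j hij
    simp only [hc.step] at hij
    have := hc.inj hij
    simpa using this

lemma Circ.bd_image {tl hd : E → V} {n : ℕ} [NeZero n] {g : ZMod n → E} (hc : Circ tl hd n g)
    (v : V) : bd tl hd (Finset.univ.image g) v = 0 := by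
  unfold bd
  rw [Finset.sum_image (fun i _ j _ h => hc.ginj h), Finset.sum_sub_distrib]
  have : ∑ i : ZMod n, (if hd (g i) = v then (1 : ℤ) else 0) =
      ∑ i : ZMod n, (if tl (g i) = v then (1 : ℤ) else 0) := by
    rw [← Equiv.sum_comp (Equiv.addRight (1 : ZMod n))
      (fun i => if tl (g i) = v then (1 : ℤ) else 0)]
    refine Finset.sum_congr rfl fun i _ => ?_
    rw [hc.step]
    rfl
  rw [this, sub_self]

/-- a nonempty balanced set of arcs contains a simple circuit -/
theorem exists_circ (tl hd : E → V) (C : Finset E) (hC : C.Nonempty)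
    (hbd : ∀ v, bd tl hd C v = 0) :
    ∃ n : ℕ, ∃ _ : NeZero n, ∃ g : ZMod n → E, Circ tl hd n g ∧ ∀ i, g i ∈ C := by
  classical
  have hnx : ∀ a ∈ C, ∃ b ∈ C, tl b = hd a := by
    intro a ha
    by_contra hno
    push Not at hno
    have h := hbd (hd a)
    unfold bd at h
    rw [Finset.sum_sub_distrib] at h
    have h1 : ∑ b ∈ C, (if tl b = hd a then (1 : ℤ) else 0) = 0 := by
      apply Finset.sum_eq_zero
      intro b hb
      rw [if_neg (hno b hb)]
    have h2 : (1 : ℤ) ≤ ∑ b ∈ C, (if hd b = hd a then (1 : ℤ) else 0) := by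
      calc (1 : ℤ) = (if hd a = hd a then (1 : ℤ) else 0) := by simp
        _ ≤ _ := Finset.single_le_sum (f := fun b => if hd b = hd a then (1 : ℤ) else 0)
          (fun b _ => by split_ifs <;> norm_num) ha
    omega
  obtain ⟨a0, ha0⟩ := hC
  have : Nonempty E := ⟨a0⟩
  choose! nx hnxC hnxt using hnx
  set b : ℕ → E := fun k => nx^[k] a0 with hb
  have hbC : ∀ k, b k ∈ C := by
    intro k
    induction k with
    | zero => simpa [hb] using ha0
    | succ k ih =>
      simp only [hb, Function.iterate_succ_apply'] at ih ⊢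
      exact hnxC _ ih
  have hbs : ∀ k, hd (b k) = tl (b (k + 1)) := by
    intro k
    have := hnxt _ (hbC k)
    simp only [hb, Function.iterate_succ_apply'] at this ⊢
    exact this.symm
  have hrep : ∃ n : ℕ, 0 < n ∧ ∃ i : ℕ, tl (b i) = tl (b (i + n)) := by
    have : ¬ Function.Injective fun k : ℕ => tl (b k) := not_injective_infinite_finite _
    unfold Function.Injective at this
    push Not at this
    obtain ⟨i, j, hij, hne⟩ := this
    rcases lt_or_gt_of_ne hne with h | h
    · exact ⟨j - i, by omega, i, by rw [show i + (j - i) = j by omega]; exact hij⟩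
    · exact ⟨i - j, by omega, j, by rw [show j + (i - j) = i by omega]; exact hij.symm⟩
  obtain ⟨hn0, i, hi⟩ := Nat.find_spec hrep
  have hmin := fun m => Nat.find_min (m := m) hrep
  set n := Nat.find hrep with hn
  have hne : NeZero n := ⟨by omega⟩
  refine ⟨n, hne, fun k => b (i + k.val), ⟨?_, ?_⟩, fun k => hbC _⟩
  · intro k
    show hd (b (i + k.val)) = tl (b (i + (k + 1).val))
    rw [hbs, ZMod.val_add]
    have hlt := ZMod.val_lt k
    by_cases h1 : n = 1
    · have hk : k.val = 0 := by omega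
      have e1 : (k.val + (1 : ZMod n).val) % n = 0 := by
        have := Nat.mod_lt (k.val + (1 : ZMod n).val) hn0
        omega
      rw [e1, hk, add_zero, hi]
      congr 2
      omega
    · have h1v : (1 : ZMod n).val = 1 := by
        have : Fact (1 < n) := ⟨by omega⟩
        exact ZMod.val_one n
      rw [h1v]
      by_cases h2 : k.val + 1 = n
      · rw [h2, Nat.mod_self, add_zero, hi]
        congr 2
        omega
      · rw [Nat.mod_eq_of_lt (by omega)]
        rfl
  · intro k l hkl
    simp only at hkl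
    by_contra hne'
    have hv : k.val ≠ l.val := fun h => hne' (ZMod.val_injective n h)
    have hk := ZMod.val_lt k
    have hl := ZMod.val_lt l
    rcases lt_or_gt_of_ne hv with h | h
    · apply hmin (l.val - k.val) (by omega)
      refine ⟨by omega, i + k.val, ?_⟩
      rw [hkl]; congr 2; omega
    · apply hmin (k.val - l.val) (by omega)
      refine ⟨by omega, i + l.val, ?_⟩
      rw [← hkl]; congr 2; omega


section half

variable (src tgt : E → V) (W : Finset E) (D : V → ℤ) (e : E) (F EN : Finset E)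

/-- the sets of arcs with divergence `D` and prescribed arcs -/
def BB (B : Finset E) : Prop :=
  B ⊆ W ∧ (∀ v, bd src tgt B v = D v) ∧ e ∈ B ∧ F ⊆ B ∧ Disjoint B EN

lemma BB.flip {src tgt : E → V} {W : Finset E} {D : V → ℤ} {e : E} {F EN : Finset E}
    {B Q : Finset E} (hB : BB src tgt W D e F EN B) (hQ : Q ⊆ W)
    (hbd : ∀ v, bd (tl src tgt B) (hd src tgt B) Q v = 0)
    (he : e ∉ Q) (hF : Disjoint Q F) (hN : Disjoint Q EN) :
    BB src tgt W D e F EN (symmDiff B Q) := by
  obtain ⟨h1, h2, h3, h4, h5⟩ := hB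
  refine ⟨?_, ?_, ?_, ?_, ?_⟩
  · intro a ha
    rw [Finset.mem_symmDiff] at ha
    rcases ha with h | h
    · exact h1 h.1
    · exact hQ h.1
  · intro v; rw [bd_flip, h2, hbd, add_zero]
  · rw [Finset.mem_symmDiff]; exact Or.inl ⟨h3, he⟩
  · intro a ha
    rw [Finset.mem_symmDiff]
    exact Or.inl ⟨h4 ha, fun hq => (Finset.disjoint_left.1 hF) hq ha⟩
  · rw [Finset.disjoint_left]
    intro a ha haN
    rw [Finset.mem_symmDiff] at ha
    rcases ha with h | h
    · exact (Finset.disjoint_left.1 h5) h.1 haN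
    · exact (Finset.disjoint_left.1 hN) h.1 haN

/-- one half of the circuit step -/
theorem half (hW : ∀ v, bd src tgt W v = 2 * D v)
    (U : Finset V) (heU : src e ∈ U) (heU' : tgt e ∉ U)
    (hc : ((F.card : ℤ) + EN.card + 1) ≤ - ∑ v ∈ U, D v)
    (B : Finset E) (hB : BB src tgt W D e F EN B)
    (n : ℕ) [NeZero n] (g : ZMod n → E) (hg : Circ (tl src tgt B) (hd src tgt B) n g)
    (hgW : ∀ i, g i ∈ W) (hgF : ∀ i, g i ∉ F) (hge : ∀ i, g i ≠ e) (hgN : ∀ i, g i ∉ EN)
    (hcov : ∀ a ∈ inn src tgt W U, a ∈ B → ∃ i, g i = a)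
    (hstar : ∀ B'', BB src tgt W D e F EN B'' → ∀ a ∈ inn src tgt W U, a ∈ B → a ∈ B'' →
      ∀ i, g i ∈ inn src tgt W U → g i ∉ B → g i ∉ B'') :
    ∃ A : Finset V,
      (∀ a ∈ W, (src a ∈ A ∧ tgt a ∉ A) ∨ (src a ∉ A ∧ tgt a ∈ A) →
        (∃ i, g i = a) ∧ a ∈ inn src tgt W U) ∧
      ∑ v ∈ A, D v = -1 ∧ (∀ i, tl src tgt B (g i) ∈ A → tl src tgt B (g i) ∈ U) ∧
      ∃ i, tl src tgt B (g i) ∈ U ∧ tl src tgt B (g i) ∉ A := by
  classical
  set t0 := tl src tgt B with ht0
  set h0 := hd src tgt B with hh0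
  have tB : ∀ a, a ∈ B → t0 a = tgt a := fun a ha => by simp [ht0, tl, ha]
  have tB' : ∀ a, a ∉ B → t0 a = src a := fun a ha => by simp [ht0, tl, ha]
  have hB1 : ∀ a, a ∈ B → h0 a = src a := fun a ha => by simp [hh0, hd, ha]
  have hB1' : ∀ a, a ∉ B → h0 a = tgt a := fun a ha => by simp [hh0, hd, ha]
  have hgi := hg.ginj
  set C : Finset E := Finset.univ.image g with hC
  have memC : ∀ a, a ∈ C ↔ ∃ i, g i = a := by intro a; simp [hC]
  have hCW : C ⊆ W := by
    intro a ha; rw [memC] at ha; obtain ⟨i, rfl⟩ := ha; exact hgW i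
  have hCbd := hg.bd_image
  have hB' : BB src tgt W D e F EN (symmDiff B C) := by
    apply hB.flip hCW hCbd
    · rw [memC]; rintro ⟨i, hi⟩; exact hge i hi
    · rw [Finset.disjoint_left]; intro a ha; rw [memC] at ha; obtain ⟨i, rfl⟩ := ha; exact hgF i
    · rw [Finset.disjoint_left]; intro a ha; rw [memC] at ha; obtain ⟨i, rfl⟩ := ha; exact hgN i
  set B' := symmDiff B C with hB'def
  have memI : ∀ a, a ∈ inn src tgt W U ↔ a ∈ W ∧ src a ∉ U ∧ tgt a ∈ U := by
    intro a; simp [inn]
  -- index set of the tokens of B'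
  set T : Finset (ZMod n) := Finset.univ.filter fun i => g i ∈ inn src tgt W U ∧ g i ∉ B with hT
  have memT : ∀ i, i ∈ T ↔ g i ∈ inn src tgt W U ∧ g i ∉ B := by intro i; simp [hT]
  have cT0 : ∀ i ∈ T, t0 (g i) ∉ U := by
    intro i hi; rw [memT, memI] at hi; rw [tB' _ hi.2]; exact hi.1.2.1
  have cT1 : ∀ i ∈ T, t0 (g (i + 1)) ∈ U := by
    intro i hi; rw [memT, memI] at hi; rw [← hg.step, hB1' _ hi.2]; exact hi.1.2.2
  have hKex : ∀ i, i ∈ T → ∃ k : ℕ, 0 < k ∧ t0 (g (i + (k : ZMod n))) ∉ U := by
    intro i hi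
    exact ⟨n, Nat.pos_of_ne_zero (NeZero.ne n), by
      rw [ZMod.natCast_self, add_zero]; exact cT0 i hi⟩
  have hK : ∀ i, ∃ k : ℕ, i ∈ T → (2 ≤ k ∧ k ≤ n ∧ t0 (g (i + (k : ZMod n))) ∉ U ∧
      ∀ m : ℕ, 0 < m → m < k → t0 (g (i + (m : ZMod n))) ∈ U) := by
    intro i
    by_cases hi : i ∈ T
    · have hex := hKex i hi
      refine ⟨Nat.find hex, fun _ => ?_⟩
      have hs := Nat.find_spec hex
      have hm := fun m => Nat.find_min (m := m) hex
      refine ⟨?_, ?_, hs.2, ?_⟩
      · by_contra hlt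
        have h1 : Nat.find hex = 1 := by omega
        have := hs.2
        rw [h1, Nat.cast_one] at this
        exact this (cT1 i hi)
      · apply Nat.find_min'
        exact ⟨Nat.pos_of_ne_zero (NeZero.ne n), by
          rw [ZMod.natCast_self, add_zero]; exact cT0 i hi⟩
      · intro m hm0 hmk
        by_contra hno
        exact hm m hmk ⟨hm0, hno⟩
    · exact ⟨0, fun h => absurd h hi⟩
  choose K hK using hK
  have hdisj : ∀ i ∈ T, ∀ j ∈ T, ∀ m l : ℕ, 0 < m → m < K i → 0 < l → l < K j →
      (i + (m : ZMod n)) = j + (l : ZMod n) → i = j := by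
    have aux : ∀ i ∈ T, ∀ j ∈ T, ∀ m l : ℕ, 0 < m → l < K j → m ≤ l →
      (i + (m : ZMod n)) = j + (l : ZMod n) → i = j := by
      intro i hi j hj m l hm hl hml h
      rcases Nat.eq_or_lt_of_le hml with h1 | h1
      · subst h1; exact add_right_cancel h
      · exfalso
        have h2 : i = j + ((l - m : ℕ) : ZMod n) := by
          rw [Nat.cast_sub hml, add_sub_assoc', ← h]; ring
        have := (hK j hj).2.2.2 (l - m) (by omega) (by omega)
        rw [← h2] at this
        exact cT0 i hi this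
    intro i hi j hj m l hm hmi hl hlj h
    rcases le_total m l with h1 | h1
    · exact aux i hi j hj m l hm hlj h1 h
    · exact (aux j hj i hi l m hl hmi h1 h.symm).symm
  set f : ZMod n → E := fun i => g (i + ((K i - 1 : ℕ) : ZMod n)) with hf
  have ft : ∀ i ∈ T, t0 (f i) ∈ U := by
    intro i hi
    obtain ⟨h2, _, _, h4⟩ := hK i hi
    exact h4 (K i - 1) (by omega) (by omega)
  have fh : ∀ i ∈ T, h0 (f i) ∉ U := by
    intro i hi
    obtain ⟨h2, _, h3, _⟩ := hK i hi
    simp only [hf]
    rw [hg.step]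
    have : i + ((K i - 1 : ℕ) : ZMod n) + 1 = i + (K i : ZMod n) := by
      rw [Nat.cast_sub (by omega)]; push_cast; ring
    rw [this]; exact h3
  have finj : ∀ i ∈ T, ∀ j ∈ T, f i = f j → i = j := by
    intro i hi j hj hij
    have h := hgi hij
    have h1 := hK i hi
    have h2 := hK j hj
    exact hdisj i hi j hj _ _ (by omega) (by omega) (by omega) (by omega) h
  set J : Finset (ZMod n) := T.filter fun i => f i ∈ B with hJ
  have memJ : ∀ i, i ∈ J ↔ i ∈ T ∧ f i ∈ B := by intro i; simp [hJ]
  have fI : ∀ i ∈ J, f i ∈ inn src tgt W U := by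
    intro i hi
    rw [memJ] at hi
    rw [memI]
    refine ⟨hgW _, ?_, ?_⟩
    · rw [← hB1 _ hi.2]; exact fh i hi.1
    · rw [← tB _ hi.2]; exact ft i hi.1
  -- the count
  have hBd' : ((outs src tgt B' U).card : ℤ) - (inn src tgt B' U).card = ∑ v ∈ U, D v := by
    rw [← sum_bd]; exact Finset.sum_congr rfl fun v _ => hB'.2.1 v
  have hc1 : (inn src tgt B' U).card ≤ T.card := by
    have : inn src tgt B' U ⊆ T.image g := by
      intro a ha
      simp only [inn, Finset.mem_filter] at ha
      obtain ⟨haB', h1, h2⟩ := ha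
      have haW := hB'.1 haB'
      have haI : a ∈ inn src tgt W U := (memI a).2 ⟨haW, h1, h2⟩
      rw [hB'def, Finset.mem_symmDiff] at haB'
      rcases haB' with ⟨h3, h4⟩ | ⟨h3, h4⟩
      · exact absurd ((memC a).2 (hcov a haI h3)) h4
      · obtain ⟨i, rfl⟩ := (memC a).1 h3
        exact Finset.mem_image_of_mem _ ((memT i).2 ⟨haI, h4⟩)
    calc _ ≤ (T.image g).card := Finset.card_le_card this
      _ ≤ _ := Finset.card_image_le
  have hc2 : (T.filter fun i => f i ∉ B).card + 1 ≤ (outs src tgt B' U).card := by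
    have hsub : (T.filter fun i => f i ∉ B).image f ⊆ (outs src tgt B' U).erase e := by
      intro a ha
      rw [Finset.mem_image] at ha
      obtain ⟨i, hi, rfl⟩ := ha
      rw [Finset.mem_filter] at hi
      rw [Finset.mem_erase]
      refine ⟨hge _, ?_⟩
      simp only [outs, Finset.mem_filter]
      refine ⟨?_, ?_, ?_⟩
      · rw [hB'def, Finset.mem_symmDiff]
        exact Or.inr ⟨(memC _).2 ⟨_, rfl⟩, hi.2⟩
      · rw [← tB' _ hi.2]; exact ft i hi.1
      · rw [← hB1' _ hi.2]; exact fh i hi.1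
    have hcard : ((T.filter fun i => f i ∉ B).image f).card = (T.filter fun i => f i ∉ B).card := by
      apply Finset.card_image_of_injOn
      intro i hi j hj hij
      rw [Finset.mem_coe, Finset.mem_filter] at hi hj
      exact finj i hi.1 j hj.1 hij
    have he : e ∈ outs src tgt B' U := by
      simp only [outs, Finset.mem_filter]
      exact ⟨hB'.2.2.1, heU, heU'⟩
    have h1 := Finset.card_le_card hsub
    rw [hcard, Finset.card_erase_of_mem he] at h1
    have h2 : 0 < (outs src tgt B' U).card := Finset.card_pos.2 ⟨e, he⟩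
    omega
  have hc3 := Finset.card_filter_add_card_filter_not (s := T) (fun i => f i ∈ B)
  have hJcard : - (∑ v ∈ U, D v) + 1 ≤ (J.card : ℤ) := by
    have : T.card = J.card + (T.filter fun i => f i ∉ B).card := by rw [hJ]; omega
    omega
  set E0 : Finset E := insert e (F ∪ EN) with hE0
  have hE0card : E0.card ≤ F.card + EN.card + 1 := by
    calc E0.card ≤ (F ∪ EN).card + 1 := Finset.card_insert_le _ _
      _ ≤ F.card + EN.card + 1 := by
        have := Finset.card_union_le F EN
        omega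
  have hE0J : E0.card < J.card := by omega
  have hgE0 : ∀ i, g i ∉ E0 := by
    intro i
    simp only [hE0, Finset.mem_insert, Finset.mem_union, not_or]
    exact ⟨hge i, hgF i, hgN i⟩
  -- the cuts
  have hS : ∀ i ∈ J, ∃ S : Finset V, t0 (g (i + 1)) ∈ S ∧ t0 (g i) ∉ S ∧
      ∀ a ∈ W, t0 a ∈ S → h0 a ∉ S → a ∈ E0 ∨ a = f i := by
    intro i hi
    by_contra hno
    push Not at hno
    set X : Finset E := W \ (E0 ∪ {f i, g i}) with hX
    obtain ⟨Q, hQX, hQ⟩ := PL t0 h0 X (t0 (g (i + 1))) (t0 (g i)) (by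
      intro S h1 h2
      obtain ⟨a, haW, ha1, ha2, ha3, ha4⟩ := hno S h1 h2
      refine ⟨a, ?_, ha1, ha2⟩
      rw [hX, Finset.mem_sdiff]
      refine ⟨haW, ?_⟩
      simp only [Finset.mem_union, Finset.mem_insert, Finset.mem_singleton, not_or]
      refine ⟨ha3, ha4, ?_⟩
      rintro rfl
      exact h2 ha1)
    have hgQ : g i ∉ Q := by
      intro h
      have := hQX h
      simp [hX] at this
    have hfQ : f i ∉ Q := by
      intro h
      have := hQX h
      simp [hX] at this
    have hQE : ∀ a ∈ Q, a ∈ W ∧ a ∉ E0 := by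
      intro a ha
      have := hQX ha
      simp only [hX, Finset.mem_sdiff, Finset.mem_union, not_or] at this
      exact ⟨this.1, this.2.1⟩
    have hQE' : ∀ a ∈ insert (g i) Q, a ∈ W ∧ a ∉ E0 := by
      intro a ha
      rw [Finset.mem_insert] at ha
      rcases ha with rfl | ha
      · exact ⟨hgW i, hgE0 i⟩
      · exact hQE a ha
    have hiT := (memJ i).1 hi
    have hiT' := (memT i).1 hiT.1
    have hfg : f i ≠ g i := by
      intro h
      exact hiT'.2 (h ▸ hiT.2)
    have hB'' : BB src tgt W D e F EN (symmDiff B (insert (g i) Q)) := by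
      apply hB.flip
      · intro a ha; exact (hQE' a ha).1
      · intro v
        rw [bd_insert _ _ _ _ hgQ, hQ]
        have : hd src tgt B (g i) = t0 (g (i + 1)) := hg.step i
        rw [this]
        ring
      · intro h
        have := (hQE' _ h).2
        simp [hE0] at this
      · rw [Finset.disjoint_left]
        intro a ha haF
        have := (hQE' _ ha).2
        simp [hE0, haF] at this
      · rw [Finset.disjoint_left]
        intro a ha haF
        have := (hQE' _ ha).2
        simp [hE0, haF] at this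
    refine hstar _ hB'' (f i) (fI i hi) hiT.2 ?_ i hiT'.1 hiT'.2 ?_
    · rw [Finset.mem_symmDiff]
      left
      refine ⟨hiT.2, ?_⟩
      rw [Finset.mem_insert, not_or]
      exact ⟨hfg, hfQ⟩
    · rw [Finset.mem_symmDiff]
      right
      exact ⟨Finset.mem_insert_self _ _, hiT'.2⟩
  choose! S hS1 hS2 hS3 using hS
  have hSC : ∀ i ∈ J, ∀ m : ℕ, K i ≤ m → m ≤ n → t0 (g (i + (m : ZMod n))) ∉ S i := by
    intro i hi m hm1 hm2
    have hKi := hK i ((memJ i).1 hi).1
    have key : ∀ d : ℕ, d ≤ n → K i ≤ n - d → t0 (g (i + ((n - d : ℕ) : ZMod n))) ∉ S i := by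
      intro d
      induction d with
      | zero =>
        intro _ _
        rw [Nat.sub_zero, ZMod.natCast_self, add_zero]
        exact hS2 i hi
      | succ d ih =>
        intro hd1 hd2 hmem
        have ih' := ih (by omega) (by omega)
        have hst : h0 (g (i + ((n - (d + 1) : ℕ) : ZMod n))) =
            t0 (g (i + ((n - d : ℕ) : ZMod n))) := by
          rw [hg.step]
          congr 2
          rw [add_assoc]
          congr 1
          rw [show n - d = (n - (d + 1)) + 1 by omega]
          push_cast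
          ring
        rw [← hst] at ih'
        rcases hS3 i hi _ (hgW _) hmem ih' with h | h
        · exact hgE0 _ h
        · simp only [hf] at h
          have h' := hgi h
          have h2 : ((n - (d + 1) : ℕ) : ZMod n) = ((K i - 1 : ℕ) : ZMod n) := add_left_cancel h'
          rw [ZMod.natCast_eq_natCast_iff] at h2
          have := Nat.ModEq.eq_of_lt_of_lt h2 (by omega) (by omega)
          omega
    have := key (n - m) (by omega) (by omega)
    rwa [show n - (n - m) = m by omega] at this
  have hSP : ∀ i ∈ J, ∀ l : ZMod n, t0 (g l) ∈ S i → ∃ m : ℕ, 0 < m ∧ m < K i ∧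
      l = i + (m : ZMod n) := by
    intro i hi l hl
    by_cases hli : l = i
    · subst hli; exact absurd hl (hS2 l hi)
    refine ⟨(l - i).val, ?_, ?_, ?_⟩
    · rw [Nat.pos_iff_ne_zero]
      intro h
      rw [ZMod.val_eq_zero] at h
      exact hli (sub_eq_zero.1 h)
    · by_contra hge'
      push Not at hge'
      have := hSC i hi _ hge' (le_of_lt (ZMod.val_lt _))
      rw [ZMod.natCast_val, ZMod.cast_id', id] at this
      apply this
      rwa [add_sub_cancel]
    · rw [ZMod.natCast_val, ZMod.cast_id', id]; ring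
  have hJT : ∀ i ∈ J, i ∈ T := fun i hi => ((memJ i).1 hi).1
  obtain ⟨j, hj, ho, hi'⟩ := cuts J t0 h0 W E0 (fun v => by
      rw [ht0, hh0, bd_rev src tgt W B hB.1, hW, hB.2.1]; ring) hE0J S f g
    (fun i _ => hgW i) (fun i hi a ha => hS3 i hi a ha)
    (by
      intro i hi l hl hli hmem
      obtain ⟨m, hm0, hmK, hm⟩ := hSP l hl _ hmem
      have := hK i (hJT i hi)
      exact hli (hdisj l (hJT l hl) i (hJT i hi) m (K i - 1) hm0 hmK (by omega) (by omega)
        hm.symm))
    (fun i hi => hS2 i hi)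
    (fun i hi => by rw [hg.step]; exact hS1 i hi)
    (by
      intro i hi l hl hli hmem
      rw [hg.step] at hmem
      obtain ⟨m, hm0, hmK, hm⟩ := hSP l hl _ hmem
      have := hK i (hJT i hi)
      exact hli (hdisj l (hJT l hl) i (hJT i hi) m 1 hm0 hmK (by omega) (by omega)
        (by rw [Nat.cast_one]; exact hm.symm)))
  set A := S j \ (J.erase j).biUnion S with hA
  have hAS : ∀ x ∈ A, x ∈ S j := by
    intro x hx; rw [hA, Finset.mem_sdiff] at hx; exact hx.1
  have hjT := (memJ j).1 hj
  have hjT' := (memT j).1 hjT.1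
  have memo : ∀ a, a ∈ W → t0 a ∈ A → h0 a ∉ A → a = f j := by
    intro a h1 h2 h3
    have : a ∈ outs t0 h0 W A := by simp only [outs, Finset.mem_filter]; exact ⟨h1, h2, h3⟩
    rw [ho, Finset.mem_singleton] at this
    exact this
  have memi : ∀ a, a ∈ W → t0 a ∉ A → h0 a ∈ A → a = g j := by
    intro a h1 h2 h3
    have : a ∈ inn t0 h0 W A := by simp only [inn, Finset.mem_filter]; exact ⟨h1, h2, h3⟩
    rw [hi', Finset.mem_singleton] at this
    exact this
  have fo : t0 (f j) ∈ A ∧ h0 (f j) ∉ A := by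
    have : f j ∈ outs t0 h0 W A := by rw [ho]; exact Finset.mem_singleton_self _
    simp only [outs, Finset.mem_filter] at this
    exact this.2
  have gi : t0 (g j) ∉ A ∧ h0 (g j) ∈ A := by
    have : g j ∈ inn t0 h0 W A := by rw [hi']; exact Finset.mem_singleton_self _
    simp only [inn, Finset.mem_filter] at this
    exact this.2
  have hfg : f j ≠ g j := by
    intro h
    exact hjT'.2 (h ▸ hjT.2)
  refine ⟨A, ?_, ?_, ?_, ?_⟩
  · intro a haW hcut
    by_cases haB : a ∈ B
    · rcases hcut with ⟨h1, h2⟩ | ⟨h1, h2⟩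
      · have := memi a haW (by rw [tB a haB]; exact h2) (by rw [hB1 a haB]; exact h1)
        subst this
        exact absurd haB hjT'.2
      · have := memo a haW (by rw [tB a haB]; exact h2) (by rw [hB1 a haB]; exact h1)
        subst this
        exact ⟨⟨_, rfl⟩, fI j hj⟩
    · rcases hcut with ⟨h1, h2⟩ | ⟨h1, h2⟩
      · have := memo a haW (by rw [tB' a haB]; exact h1) (by rw [hB1' a haB]; exact h2)
        subst this
        exact absurd hjT.2 haB
      · have := memi a haW (by rw [tB' a haB]; exact h1) (by rw [hB1' a haB]; exact h2)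
        subst this
        exact ⟨⟨_, rfl⟩, hjT'.1⟩
  · have h1 : outs src tgt W A = ∅ := by
      rw [Finset.eq_empty_iff_forall_notMem]
      intro a ha
      simp only [outs, Finset.mem_filter] at ha
      obtain ⟨haW, h1, h2⟩ := ha
      by_cases haB : a ∈ B
      · have := memi a haW (by rw [tB a haB]; exact h2) (by rw [hB1 a haB]; exact h1)
        subst this
        exact absurd haB hjT'.2
      · have := memo a haW (by rw [tB' a haB]; exact h1) (by rw [hB1' a haB]; exact h2)
        subst this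
        exact absurd hjT.2 haB
    have h2 : inn src tgt W A = {f j, g j} := by
      ext a
      simp only [inn, Finset.mem_filter, Finset.mem_insert, Finset.mem_singleton]
      constructor
      · rintro ⟨haW, h1, h2⟩
        by_cases haB : a ∈ B
        · exact Or.inl (memo a haW (by rw [tB a haB]; exact h2) (by rw [hB1 a haB]; exact h1))
        · exact Or.inr (memi a haW (by rw [tB' a haB]; exact h1) (by rw [hB1' a haB]; exact h2))
      · rintro (rfl | rfl)
        · refine ⟨hgW _, ?_, ?_⟩
          · rw [← hB1 _ hjT.2]; exact fo.2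
          · rw [← tB _ hjT.2]; exact fo.1
        · refine ⟨hgW _, ?_, ?_⟩
          · rw [← tB' _ hjT'.2]; exact gi.1
          · rw [← hB1' _ hjT'.2]; exact gi.2
    have h3 := sum_bd src tgt W A
    rw [h1, h2, Finset.card_empty, Finset.card_pair hfg] at h3
    rw [Finset.sum_congr rfl (fun v _ => hW v), ← Finset.mul_sum] at h3
    push_cast at h3
    omega
  · intro l hl
    obtain ⟨m, hm0, hmK, rfl⟩ := hSP j hj l (hAS _ hl)
    exact (hK j hjT.1).2.2.2 m hm0 hmK
  · have : ∃ i ∈ J, i ≠ j := by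
      by_contra hno
      push Not at hno
      have : J ⊆ {j} := by
        intro i hi; rw [Finset.mem_singleton]; exact hno i hi
      have := Finset.card_le_card this
      rw [Finset.card_singleton] at this
      omega
    obtain ⟨i, hi, hij⟩ := this
    refine ⟨i + 1, cT1 i (hJT i hi), ?_⟩
    intro hmem
    obtain ⟨m, hm0, hmK, hm⟩ := hSP j hj _ (hAS _ hmem)
    have := hK i (hJT i hi)
    exact hij (hdisj i (hJT i hi) j hjT.1 1 m (by omega) (by omega) hm0 hmK
        (by rw [Nat.cast_one]; exact hm))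

/-- flipping one simple circuit stays in the component -/
theorem circuit_step (hW : ∀ v, bd src tgt W v = 2 * D v)
    (hN : ∀ S : Finset V, S.Nonempty → src e ∉ S → tgt e ∉ S → ∑ v ∈ S, D v ≠ 0)
    (U : Finset V) (heU : src e ∈ U) (heU' : tgt e ∉ U)
    (hc : ((F.card : ℤ) + EN.card + 1) ≤ - ∑ v ∈ U, D v)
    (B : Finset E) (hB : BB src tgt W D e F EN B)
    (n : ℕ) [NeZero n] (g : ZMod n → E) (hg : Circ (tl src tgt B) (hd src tgt B) n g)
    (hgW : ∀ i, g i ∈ W) (hgF : ∀ i, g i ∉ F) (hge : ∀ i, g i ≠ e) (hgN : ∀ i, g i ∉ EN) :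
    Relation.ReflTransGen (fun X Y => BB src tgt W D e F EN X ∧ BB src tgt W D e F EN Y ∧
      (X ∩ Y ∩ inn src tgt W U).Nonempty) B (symmDiff B (Finset.univ.image g)) := by
  classical
  have memC : ∀ a, a ∈ Finset.univ.image g ↔ ∃ i, g i = a := by intro a; simp
  have hB' : BB src tgt W D e F EN (symmDiff B (Finset.univ.image g)) := by
    apply hB.flip
    · intro a ha; rw [memC] at ha; obtain ⟨i, rfl⟩ := ha; exact hgW i
    · exact hg.bd_image
    · rw [memC]; rintro ⟨i, hi⟩; exact hge i hi
    · rw [Finset.disjoint_left]; intro a ha; rw [memC] at ha; obtain ⟨i, rfl⟩ := ha; exact hgF i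
    · rw [Finset.disjoint_left]; intro a ha; rw [memC] at ha; obtain ⟨i, rfl⟩ := ha; exact hgN i
  by_contra hcon
  have hcov : ∀ a ∈ inn src tgt W U, a ∈ B → ∃ i, g i = a := by
    intro a haI haB
    by_contra hno
    apply hcon
    apply Relation.ReflTransGen.single
    refine ⟨hB, hB', a, ?_⟩
    rw [Finset.mem_inter, Finset.mem_inter]
    refine ⟨⟨haB, ?_⟩, haI⟩
    rw [Finset.mem_symmDiff]
    exact Or.inl ⟨haB, fun h => hno ((memC a).1 h)⟩
  have hstar : ∀ B'', BB src tgt W D e F EN B'' → ∀ a ∈ inn src tgt W U, a ∈ B → a ∈ B'' →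
      ∀ i, g i ∈ inn src tgt W U → g i ∉ B → g i ∉ B'' := by
    intro B'' hB'' a haI haB haB'' i hiI hiB hiB''
    apply hcon
    refine Relation.ReflTransGen.head (b := B'') ⟨hB, hB'', a, ?_⟩
      (Relation.ReflTransGen.single ⟨hB'', hB', g i, ?_⟩)
    · rw [Finset.mem_inter, Finset.mem_inter]; exact ⟨⟨haB, haB''⟩, haI⟩
    · rw [Finset.mem_inter, Finset.mem_inter]
      refine ⟨⟨hiB'', ?_⟩, hiI⟩
      rw [Finset.mem_symmDiff]
      exact Or.inr ⟨(memC _).2 ⟨i, rfl⟩, hiB⟩
  obtain ⟨A, hA1, hA2, hA3, i0, hA4, hA5⟩ := half src tgt W D e F EN hW U heU heU' hc B hB n g hg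
    hgW hgF hge hgN hcov hstar
  have hDuniv : ∑ v, D v = 0 := by
    have h1 := sum_bd src tgt W Finset.univ
    have h2 : outs src tgt W Finset.univ = ∅ := by simp [outs]
    have h3 : inn src tgt W Finset.univ = ∅ := by simp [inn]
    rw [h2, h3, Finset.sum_congr rfl (fun v _ => hW v), ← Finset.mul_sum] at h1
    simp at h1
    omega
  have hinn : inn tgt src W Uᶜ = inn src tgt W U := by
    ext a
    simp only [inn, Finset.mem_filter, Finset.mem_compl, not_not]
    tauto
  have hBBrev : ∀ X, BB tgt src W (fun v => - D v) e F EN X ↔ BB src tgt W D e F EN X := by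
    intro X
    unfold BB
    constructor
    · rintro ⟨h1, h2, h3⟩
      exact ⟨h1, fun v => by have := h2 v; rw [bd_swap] at this; linarith, h3⟩
    · rintro ⟨h1, h2, h3⟩
      exact ⟨h1, fun v => by rw [bd_swap, h2 v], h3⟩
  obtain ⟨A', hB1, hB2, hB3, -, -, -⟩ := half tgt src W (fun v => - D v) e F EN
    (fun v => by rw [bd_swap, hW]; ring) Uᶜ (by simpa using heU') (by simpa using heU)
    (by
      rw [Finset.sum_neg_distrib]
      have := Finset.sum_add_sum_compl U D
      rw [hDuniv] at this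
      linarith)
    B ((hBBrev B).2 hB) n (fun i => g (-i)) hg.rev (fun i => hgW _) (fun i => hgF _)
    (fun i => hge _) (fun i => hgN _)
    (by
      intro a ha haB
      rw [hinn] at ha
      obtain ⟨i, hi⟩ := hcov a ha haB
      exact ⟨-i, by simpa using hi⟩)
    (by
      intro B'' hB'' a ha haB haB'' i hi hiB
      rw [hinn] at ha hi
      exact hstar B'' ((hBBrev B'').1 hB'') a ha haB haB'' (-i) hi hiB)
  have hB3' : ∀ i, tl src tgt B (g i) ∈ A' → tl src tgt B (g i) ∉ U := by
    intro i hi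
    have h1 := hB3 (-(i - 1))
    have h2 : tl tgt src B (g (- -(i - 1))) = tl src tgt B (g i) := by
      have := hg.step (i - 1)
      rw [sub_add_cancel] at this
      rw [neg_neg, ← this]
      rfl
    rw [h2] at h1
    simpa using h1 hi
  have hcutA' : ∀ a ∈ W, (src a ∈ A' ∧ tgt a ∉ A') ∨ (src a ∉ A' ∧ tgt a ∈ A') →
        (∃ i, g i = a) ∧ a ∈ inn src tgt W U := by
    intro a haW hcut
    have := hB1 a haW (by tauto)
    rw [hinn] at this
    obtain ⟨⟨i, hi⟩, h⟩ := this
    exact ⟨⟨-i, hi⟩, h⟩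
  have hD' : ∑ v ∈ A', D v = 1 := by
    rw [Finset.sum_neg_distrib] at hB2
    linarith
  -- ends of circuit arcs are circuit vertices
  have hends : ∀ i, (∃ j, src (g i) = tl src tgt B (g j)) ∧
      ∃ j, tgt (g i) = tl src tgt B (g j) := by
    intro i
    by_cases h : g i ∈ B
    · refine ⟨⟨i + 1, ?_⟩, ⟨i, ?_⟩⟩
      · rw [← hg.step]; simp [hd, h]
      · simp [tl, h]
    · refine ⟨⟨i, ?_⟩, ⟨i + 1, ?_⟩⟩
      · simp [tl, h]
      · rw [← hg.step]; simp [hd, h]
  have hnoC : ∀ i, tl src tgt B (g i) ∈ A → tl src tgt B (g i) ∈ A' → False := by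
    intro i h1 h2
    exact hB3' i h2 (hA3 i h1)
  have hcutI : ∀ a ∈ W, ¬ ((src a ∈ A ∩ A' ∧ tgt a ∉ A ∩ A') ∨
      (src a ∉ A ∩ A' ∧ tgt a ∈ A ∩ A')) := by
    intro a haW hcut
    have hgi : ∃ i, g i = a := by
      by_cases h1 : (src a ∈ A ∧ tgt a ∉ A) ∨ (src a ∉ A ∧ tgt a ∈ A)
      · exact (hA1 a haW h1).1
      · refine (hcutA' a haW ?_).1
        simp only [Finset.mem_inter] at hcut
        tauto
    obtain ⟨i, rfl⟩ := hgi
    obtain ⟨⟨j, hj⟩, ⟨l, hl⟩⟩ := hends i
    simp only [Finset.mem_inter] at hcut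
    rcases hcut with ⟨⟨h1, h2⟩, _⟩ | ⟨_, ⟨h1, h2⟩⟩
    · rw [hj] at h1 h2; exact hnoC j h1 h2
    · rw [hl] at h1 h2; exact hnoC l h1 h2
  have hDI : ∑ v ∈ A ∩ A', D v = 0 := by
    have h1 := sum_bd src tgt W (A ∩ A')
    have h2 : outs src tgt W (A ∩ A') = ∅ := by
      rw [Finset.eq_empty_iff_forall_notMem]
      intro a ha
      simp only [outs, Finset.mem_filter] at ha
      exact hcutI a ha.1 (Or.inl ha.2)
    have h3 : inn src tgt W (A ∩ A') = ∅ := by
      rw [Finset.eq_empty_iff_forall_notMem]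
      intro a ha
      simp only [inn, Finset.mem_filter] at ha
      exact hcutI a ha.1 (Or.inr ha.2)
    rw [h2, h3, Finset.sum_congr rfl (fun v _ => hW v), ← Finset.mul_sum] at h1
    simp only [Finset.card_empty] at h1
    omega
  have heW : e ∈ W := hB.1 hB.2.2.1
  have heI : e ∉ inn src tgt W U := by
    simp only [inn, Finset.mem_filter, not_and]
    intro _ h; exact absurd heU h
  have heA : (src e ∈ A ↔ tgt e ∈ A) := by
    by_contra h
    exact heI (hA1 e heW (by tauto)).2
  have heA' : (src e ∈ A' ↔ tgt e ∈ A') := by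
    by_contra h
    exact heI (hcutA' e heW (by tauto)).2
  set x0 := tl src tgt B (g i0) with hx0
  have hx0A' : x0 ∉ A' := fun h => hB3' i0 h hA4
  -- general consequence of (N)
  have hNN : ∀ S : Finset V, (src e ∈ S ↔ tgt e ∈ S) → x0 ∉ S → ∑ v ∈ S, D v = 0 → S = ∅ := by
    intro S hS hx hD0
    by_contra hne
    have hne' : S.Nonempty := Finset.nonempty_iff_ne_empty.2 hne
    by_cases hs : src e ∈ S
    · have h1 := hN Sᶜ ⟨x0, by simpa using hx⟩ (by simpa using hs) (by simpa using hS.1 hs)
      have := Finset.sum_add_sum_compl S D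
      rw [hDuniv, hD0, zero_add] at this
      exact h1 this
    · exact hN S hne' hs (fun h => hs (hS.2 h)) hD0
  have hI : A ∩ A' = ∅ := by
    apply hNN _ _ _ hDI
    · simp only [Finset.mem_inter]; rw [heA, heA']
    · simp only [Finset.mem_inter]; tauto
  have hU0 : ∑ v ∈ A ∪ A', D v = 0 := by
    have := Finset.sum_union_inter (s₁ := A) (s₂ := A') (f := D)
    rw [hDI, hA2, hD'] at this
    linarith
  have hUe : A ∪ A' = ∅ := by
    apply hNN _ _ _ hU0
    · simp only [Finset.mem_union]; rw [heA, heA']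
    · simp only [Finset.mem_union]; tauto
  have hAe : A = ∅ := by
    rw [Finset.union_eq_empty] at hUe; exact hUe.1
  rw [hAe] at hA2
  simp at hA2

/-- LEMMA SL -/
theorem SL (hW : ∀ v, bd src tgt W v = 2 * D v)
    (hN : ∀ S : Finset V, S.Nonempty → src e ∉ S → tgt e ∉ S → ∑ v ∈ S, D v ≠ 0)
    (U : Finset V) (heU : src e ∈ U) (heU' : tgt e ∉ U)
    (hc : ((F.card : ℤ) + EN.card + 1) ≤ - ∑ v ∈ U, D v)
    (B B' : Finset E) (hB : BB src tgt W D e F EN B) (hB' : BB src tgt W D e F EN B') :
    Relation.ReflTransGen (fun X Y => BB src tgt W D e F EN X ∧ BB src tgt W D e F EN Y ∧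
      (X ∩ Y ∩ inn src tgt W U).Nonempty) B B' := by
  classical
  have key : ∀ k : ℕ, ∀ B B' : Finset E, BB src tgt W D e F EN B → BB src tgt W D e F EN B' →
      (symmDiff B B').card = k →
      Relation.ReflTransGen (fun X Y => BB src tgt W D e F EN X ∧ BB src tgt W D e F EN Y ∧
      (X ∩ Y ∩ inn src tgt W U).Nonempty) B B' := by
    intro k
    induction k using Nat.strong_induction_on with
    | _ k ih =>
      intro B B' hB hB' hk
      by_cases hne : (symmDiff B B').Nonempty
      · have hbd : ∀ v, bd (tl src tgt B) (hd src tgt B) (symmDiff B B') v = 0 := by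
          intro v
          have h := bd_flip src tgt B (symmDiff B B') v
          rw [symmDiff_symmDiff_cancel_left, hB.2.1, hB'.2.1] at h
          linarith
        obtain ⟨n, hn, g, hg, hgC⟩ := exists_circ _ _ _ hne hbd
        have hmem : ∀ i, (g i ∈ B ∧ g i ∉ B') ∨ (g i ∈ B' ∧ g i ∉ B) := by
          intro i; have := hgC i; rw [Finset.mem_symmDiff] at this; exact this
        have hgW : ∀ i, g i ∈ W := by
          intro i; rcases hmem i with h | h
          · exact hB.1 h.1
          · exact hB'.1 h.1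
        have hgF : ∀ i, g i ∉ F := by
          intro i hF; rcases hmem i with h | h
          · exact h.2 (hB'.2.2.2.1 hF)
          · exact h.2 (hB.2.2.2.1 hF)
        have hge : ∀ i, g i ≠ e := by
          intro i hF; rcases hmem i with h | h
          · exact h.2 (hF ▸ hB'.2.2.1)
          · exact h.2 (hF ▸ hB.2.2.1)
        have hgN : ∀ i, g i ∉ EN := by
          intro i hF; rcases hmem i with h | h
          · exact (Finset.disjoint_left.1 hB.2.2.2.2) h.1 hF
          · exact (Finset.disjoint_left.1 hB'.2.2.2.2) h.1 hF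
        have h1 := circuit_step src tgt W D e F EN hW hN U heU heU' hc B hB n g hg hgW hgF hge hgN
        set C : Finset E := Finset.univ.image g with hC
        have memC : ∀ a, a ∈ C ↔ ∃ i, g i = a := by intro a; simp [hC]
        have hCsub : C ⊆ symmDiff B B' := by
          intro a ha; rw [memC] at ha; obtain ⟨i, rfl⟩ := ha; exact hgC i
        have hB2 : BB src tgt W D e F EN (symmDiff B C) := by
          apply hB.flip
          · intro a ha; rw [memC] at ha; obtain ⟨i, rfl⟩ := ha; exact hgW i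
          · exact hg.bd_image
          · rw [memC]; rintro ⟨i, hi⟩; exact hge i hi
          · rw [Finset.disjoint_left]; intro a ha; rw [memC] at ha; obtain ⟨i, rfl⟩ := ha
            exact hgF i
          · rw [Finset.disjoint_left]; intro a ha; rw [memC] at ha; obtain ⟨i, rfl⟩ := ha
            exact hgN i
        have hcard : (symmDiff (symmDiff B C) B').card < k := by
          have e1 : symmDiff (symmDiff B C) B' = symmDiff B B' \ C := by
            ext a
            have := @hCsub a
            simp only [Finset.mem_symmDiff, Finset.mem_sdiff] at this ⊢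
            tauto
          rw [e1, ← hk]
          apply Finset.card_lt_card
          rw [Finset.ssubset_iff_subset_ne]
          refine ⟨Finset.sdiff_subset, ?_⟩
          intro heq
          have hg0 : g 0 ∈ symmDiff B B' := hgC 0
          rw [← heq, Finset.mem_sdiff] at hg0
          exact hg0.2 ((memC _).2 ⟨0, rfl⟩)
        exact h1.trans (ih _ hcard _ _ hB2 hB' rfl)
      · rw [Finset.not_nonempty_iff_eq_empty] at hne
        have : B = B' := by
          rw [← Finset.bot_eq_empty, symmDiff_eq_bot] at hne; exact hne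
        rw [this]
  exact key _ B B' hB hB' rfl

/-- LEMMA TG, with the induction hypothesis on the levels -/
theorem TG_aux (hW : ∀ v, bd src tgt W v = 2 * D v)
    (hN : ∀ S : Finset V, S.Nonempty → src e ∉ S → tgt e ∉ S → ∑ v ∈ S, D v ≠ 0)
    (𝒰 : Finset (Finset V)) (h𝒰 : ∀ U ∈ 𝒰, src e ∈ U ∧ tgt e ∉ U)
    (hcap : ∀ U ∈ 𝒰, ∀ U' ∈ 𝒰, U ∩ U' ∈ 𝒰) (hcup : ∀ U ∈ 𝒰, ∀ U' ∈ 𝒰, U ∪ U' ∈ 𝒰) :
    ∀ k : ℕ, ∀ F : Finset E,
      (𝒰.filter fun U => Disjoint F (inn src tgt W U)).card = k →
      (∀ U ∈ 𝒰, Disjoint F (inn src tgt W U) →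
        ((F.card : ℤ) + EN.card + 1) ≤ - ∑ v ∈ U, D v) →
      ∀ B B' : Finset E, BB src tgt W D e F EN B → BB src tgt W D e F EN B' →
      Relation.ReflTransGen (fun X Y => BB src tgt W D e ∅ EN X ∧ BB src tgt W D e ∅ EN Y ∧
        ∀ U ∈ 𝒰, (X ∩ Y ∩ inn src tgt W U).Nonempty) B B' := by
  classical
  intro k
  induction k using Nat.strong_induction_on with
  | _ k ih =>
    intro F hk hF B B' hB hB'
    have hBBF : ∀ X, BB src tgt W D e F EN X → BB src tgt W D e ∅ EN X :=
      fun X hX => ⟨hX.1, hX.2.1, hX.2.2.1, Finset.empty_subset _, hX.2.2.2.2⟩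
    by_cases hne : (𝒰.filter fun U => Disjoint F (inn src tgt W U)).Nonempty
    · obtain ⟨U0, hU0, hmin⟩ := Finset.exists_min_image _ (fun U => - ∑ v ∈ U, D v) hne
      rw [Finset.mem_filter] at hU0
      obtain ⟨hU0, hU0F⟩ := hU0
      have hsl := SL src tgt W D e F EN hW hN U0 (h𝒰 U0 hU0).1 (h𝒰 U0 hU0).2 (hF U0 hU0 hU0F)
        B B' hB hB'
      have hmono : ∀ X Y, BB src tgt W D e F EN X → BB src tgt W D e F EN Y →
          (X ∩ Y ∩ inn src tgt W U0).Nonempty →
          Relation.ReflTransGen (fun X Y => BB src tgt W D e ∅ EN X ∧ BB src tgt W D e ∅ EN Y ∧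
            ∀ U ∈ 𝒰, (X ∩ Y ∩ inn src tgt W U).Nonempty) X Y := by
        intro X Y hX hY ⟨f, hf⟩
        rw [Finset.mem_inter, Finset.mem_inter] at hf
        obtain ⟨⟨hfX, hfY⟩, hfI⟩ := hf
        have hlt : (𝒰.filter fun U => Disjoint (insert f F) (inn src tgt W U)).card < k := by
          rw [← hk]
          apply Finset.card_lt_card
          rw [Finset.ssubset_iff_of_subset]
          · refine ⟨U0, Finset.mem_filter.2 ⟨hU0, hU0F⟩, ?_⟩
            rw [Finset.mem_filter, not_and]
            intro _ hd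
            exact (Finset.disjoint_left.1 hd) (Finset.mem_insert_self _ _) hfI
          · intro U hU
            rw [Finset.mem_filter] at hU ⊢
            exact ⟨hU.1, hU.2.mono_left (Finset.subset_insert _ _)⟩
        refine ih _ hlt (insert f F) rfl ?_ X Y ?_ ?_
        · intro U hU hUd
          have hUF : Disjoint F (inn src tgt W U) := hUd.mono_left (Finset.subset_insert _ _)
          have hfU : f ∉ inn src tgt W U := fun h =>
            (Finset.disjoint_left.1 hUd) (Finset.mem_insert_self _ _) h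
          have h0 := hF U0 hU0 hU0F
          have h1 : - ∑ v ∈ U0, D v ≤ - ∑ v ∈ U, D v :=
            hmin U (Finset.mem_filter.2 ⟨hU, hUF⟩)
          have h2 : - ∑ v ∈ U0, D v ≠ - ∑ v ∈ U, D v := by
            intro heq
            have hsub1 : inn src tgt W (U0 ∩ U) ⊆ inn src tgt W U0 ∪ inn src tgt W U := by
              intro a ha
              simp only [inn, Finset.mem_filter, Finset.mem_union, Finset.mem_inter] at ha ⊢
              tauto
            have hsub2 : inn src tgt W (U0 ∪ U) ⊆ inn src tgt W U0 ∪ inn src tgt W U := by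
              intro a ha
              simp only [inn, Finset.mem_filter, Finset.mem_union] at ha ⊢
              tauto
            have hd3 : Disjoint F (inn src tgt W U0 ∪ inn src tgt W U) := by
              rw [Finset.disjoint_union_right]; exact ⟨hU0F, hUF⟩
            have h3 := hmin (U0 ∩ U) (Finset.mem_filter.2 ⟨hcap U0 hU0 U hU,
              hd3.mono_right hsub1⟩)
            have h4 := hmin (U0 ∪ U) (Finset.mem_filter.2 ⟨hcup U0 hU0 U hU,
              hd3.mono_right hsub2⟩)
            have h5 := Finset.sum_union_inter (s₁ := U0) (s₂ := U) (f := D)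
            have h6 : ∑ v ∈ U0 ∩ U, D v = ∑ v ∈ U0, D v := by linarith
            have h7 : ∑ v ∈ U0 \ U, D v = 0 := by
              have := Finset.sum_inter_add_sum_sdiff U0 U D
              linarith
            have h8 : ∑ v ∈ U \ U0, D v = 0 := by
              have := Finset.sum_inter_add_sum_sdiff U U0 D
              rw [Finset.inter_comm] at this
              linarith
            have e1 : U0 \ U = ∅ := by
              by_contra hne'
              exact hN _ (Finset.nonempty_iff_ne_empty.2 hne')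
                (by rw [Finset.mem_sdiff]; exact fun h => h.2 (h𝒰 U hU).1)
                (by rw [Finset.mem_sdiff]; exact fun h => (h𝒰 U0 hU0).2 h.1) h7
            have e2 : U \ U0 = ∅ := by
              by_contra hne'
              exact hN _ (Finset.nonempty_iff_ne_empty.2 hne')
                (by rw [Finset.mem_sdiff]; exact fun h => h.2 (h𝒰 U0 hU0).1)
                (by rw [Finset.mem_sdiff]; exact fun h => (h𝒰 U hU).2 h.1) h8
            rw [Finset.sdiff_eq_empty_iff_subset] at e1 e2
            have := Finset.Subset.antisymm e1 e2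
            exact hfU (this ▸ hfI)
          have h3 := Finset.card_insert_le f F
          have h4 : ((insert f F).card : ℤ) ≤ F.card + 1 := by exact_mod_cast h3
          have h5 : - ∑ v ∈ U0, D v + 1 ≤ - ∑ v ∈ U, D v := by omega
          linarith
        · exact ⟨hX.1, hX.2.1, hX.2.2.1, Finset.insert_subset hfX hX.2.2.2.1, hX.2.2.2.2⟩
        · exact ⟨hY.1, hY.2.1, hY.2.2.1, Finset.insert_subset hfY hY.2.2.2.1, hY.2.2.2.2⟩
      clear hB'
      induction hsl with
      | refl => exact Relation.ReflTransGen.refl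
      | tail _ h ih' =>
        exact ih'.trans (hmono _ _ h.1 h.2.1 h.2.2)
    · apply Relation.ReflTransGen.single
      refine ⟨hBBF _ hB, hBBF _ hB', ?_⟩
      intro U hU
      have : ¬ Disjoint F (inn src tgt W U) := by
        intro hd
        exact hne ⟨U, Finset.mem_filter.2 ⟨hU, hd⟩⟩
      rw [Finset.not_disjoint_iff] at this
      obtain ⟨a, haF, haI⟩ := this
      refine ⟨a, ?_⟩
      rw [Finset.mem_inter, Finset.mem_inter]
      exact ⟨⟨hB.2.2.2.1 haF, hB'.2.2.2.1 haF⟩, haI⟩

/-- LEMMA TG -/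
theorem TG (hW : ∀ v, bd src tgt W v = 2 * D v)
    (hN : ∀ S : Finset V, S.Nonempty → src e ∉ S → tgt e ∉ S → ∑ v ∈ S, D v ≠ 0)
    (𝒰 : Finset (Finset V)) (h𝒰 : ∀ U ∈ 𝒰, src e ∈ U ∧ tgt e ∉ U)
    (hcap : ∀ U ∈ 𝒰, ∀ U' ∈ 𝒰, U ∩ U' ∈ 𝒰) (hcup : ∀ U ∈ 𝒰, ∀ U' ∈ 𝒰, U ∪ U' ∈ 𝒰)
    (hc : ∀ U ∈ 𝒰, ((EN.card : ℤ) + 1) ≤ - ∑ v ∈ U, D v)
    (B B' : Finset E) (hB : BB src tgt W D e ∅ EN B) (hB' : BB src tgt W D e ∅ EN B') :
    Relation.ReflTransGen (fun X Y => BB src tgt W D e ∅ EN X ∧ BB src tgt W D e ∅ EN Y ∧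
        ∀ U ∈ 𝒰, (X ∩ Y ∩ inn src tgt W U).Nonempty) B B' :=
  TG_aux src tgt W D e EN hW hN 𝒰 h𝒰 hcap hcup _ ∅ rfl
    (fun U hU _ => by rw [Finset.card_empty]; push_cast; linarith [hc U hU]) B B' hB hB'

end half

end Pool.Agent.T16X
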