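import Mathlib
import Pool.Agent.Lib_helper37.T16.SL

/-!
# T16: flows, three flows
-/

set_option autoImplicit false
set_option linter.unusedSectionVars false
set_option linter.unusedVariables false

namespace Pool.Agent.T16

section defs

open Finset

section labelled

variable {V W : Type} [Fintype V] [DecidableEq V] [Fintype W] [DecidableEq W]

/-- the arcs of `B` that leave `S` (arc `a` goes from `s a` to `r a`); `eo r s B S` are the arcs of
`B` that enter `S` -/
def eo (s r : W → V) (B : Finset W) (S : Finset V) : Finset W :=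
  B.filter fun a => s a ∈ S ∧ r a ∉ S

/-- divergence of an arc set `B` -/
def dg (s r : W → V) (B : Finset W) (v : V) : ℤ :=
  ((B.filter fun a => s a = v).card : ℤ) - ((B.filter fun a => r a = v).card : ℤ)

/-- the tail of the arc `a` after the arcs of `B` have been reversed; the head is `os r s B a` -/
def os (s r : W → V) (B : Finset W) (a : W) : V := if a ∈ B then r a else s a

/-- a simple circuit, as a periodic sequence of arcs -/
structure Circ (s r : W → V) (n : ℤ) (c : ℤ → W) : Prop where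
  pos : 0 < n
  per : ∀ i, c (i + n) = c i
  adj : ∀ i, r (c i) = s (c (i + 1))
  inj : ∀ i j, s (c i) = s (c j) → n ∣ i - j

/-- the arc set of a circuit -/
noncomputable def cset (n : ℤ) (c : ℤ → W) : Finset W := (Finset.Ico (0 : ℤ) n).image c

/-- `w` can be reached from `u` by arcs outside `X` -/
def Rch (s r : W → V) (X : Finset W) : V → V → Prop :=
  Relation.ReflTransGen fun u w => ∃ a, a ∉ X ∧ s a = u ∧ r a = w

/-- `δ_t - δ_h` -/
def dl (t h v : V) : ℤ := (if v = t then 1 else 0) - (if v = h then 1 else 0)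

end labelled

section flows

variable {V A : Type} [Fintype V] [DecidableEq V] [Fintype A] [DecidableEq A]

/-- divergence of `x : A → ℕ` -/
def dv (s r : A → V) (x : A → ℕ) (v : V) : ℤ :=
  ∑ a, (x a : ℤ) * ((if s a = v then 1 else 0) - (if r a = v then 1 else 0))

/-- the total of `x` on the arcs leaving `S`; `xo r s x S` is the total on the arcs entering `S` -/
def xo (s r : A → V) (x : A → ℕ) (S : Finset V) : ℕ :=
  ∑ a, if s a ∈ S ∧ r a ∉ S then x a else 0

/-- the level of `x` (value on the virtual arc `t → h`) -/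
def ep (s r : A → V) (D : V → ℤ) (t : V) (x : A → ℕ) : ℤ := D t - dv s r x t

/-- `x` is a flow: `div x = D - ep x (δ_t - δ_h)` -/
def Fl (s r : A → V) (D : V → ℤ) (t h : V) (x : A → ℕ) : Prop :=
  ∀ v, dv s r x v = D v - ep s r D t x * dl t h v

/-- states: `k` flows with sum `M`, all of level at least `j` -/
def St (s r : A → V) (D : V → ℤ) (t h : V) (M : A → ℕ) (k : ℕ) (j : ℤ)
    (T : Multiset (A → ℕ)) : Prop :=
  Multiset.card T = k ∧ T.sum = M ∧ ∀ x ∈ T, Fl s r D t h x ∧ j ≤ ep s r D t x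

/-- a quadratic move: two members are changed, their sum is kept -/
def Mv {α : Type} [AddCommMonoid α] (T T' : Multiset α) : Prop :=
  ∃ x y x' y' R, T = x ::ₘ y ::ₘ R ∧ T' = x' ::ₘ y' ::ₘ R ∧ x + y = x' + y'

/-- connected by moves inside `G` -/
def Cn {α : Type} [AddCommMonoid α] (G : Multiset α → Prop) : Multiset α → Multiset α → Prop :=
  Relation.ReflTransGen fun T T' => G T ∧ G T' ∧ Mv T T'

/-- nondegenerate off `t, h` -/
def ND (D : V → ℤ) (t h : V) : Prop :=
  ∀ S : Finset V, S.Nonempty → t ∉ S → h ∉ S → ∑ v ∈ S, D v ≠ 0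

/-- admissible `x` for `TGc`: `x ≤ L`, and with `b` virtual arcs, `1 ≤ b ≤ N - j`, it has
divergence `D` -/
def Adm (s r : A → V) (L : A → ℕ) (D : V → ℤ) (t h : V) (N j : ℕ) (x : A → ℕ) : Prop :=
  x ≤ L ∧ ∃ b : ℕ, 1 ≤ b ∧ b + j ≤ N ∧ ∀ v, dv s r x v + b * dl t h v = D v

/-- connectedness of all states with `k` members, all levels `≥ 0` -/
def EE (s r : A → V) (D : V → ℤ) (t h : V) (k : ℕ) : Prop :=
  ∀ M T T', St s r D t h M k 0 T → St s r D t h M k 0 T' → Cn (St s r D t h M k 0) T T'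

/-- the half-step: connected through levels `≥ -1` implies connected through levels `≥ 0` -/
def HC (s r : A → V) (D : V → ℤ) (t h : V) (k : ℕ) : Prop :=
  ∀ M T T', St s r D t h M k 0 T → St s r D t h M k 0 T' → Cn (St s r D t h M k (-1)) T T' →
    Cn (St s r D t h M k 0) T T'

/-- improvements: `T` arises from a decomposition `b ::ₘ R` of `M - p` into flows of levels `≥ 0`
by replacing `b` with `w, b'`, `w + b' = p + b` -/
def Imp (s r : A → V) (D : V → ℤ) (t h : V) (M : A → ℕ) (k : ℕ) (p : A → ℕ)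
    (T : Multiset (A → ℕ)) : Prop :=
  St s r D t h M k 0 T ∧ ∃ w b' b R, T = w ::ₘ b' ::ₘ R ∧ w + b' = p + b ∧
    Fl s r D t h b ∧ 0 ≤ ep s r D t b

end flows

/-- the theorem for `V` -/
def Thm (V : Type) [Fintype V] [DecidableEq V] : Prop :=
  ∀ (A : Type) [Fintype A] [DecidableEq A] (s r : A → V) (D : V → ℤ),
    (∀ S : Finset V, S.Nonempty → S ≠ univ → ∑ v ∈ S, D v ≠ 0) →
    ∀ T T' : Multiset (A → ℕ), (∀ x ∈ T, ∀ v, dv s r x v = D v) →
      (∀ x ∈ T', ∀ v, dv s r x v = D v) → Multiset.card T = Multiset.card T' → T.sum = T'.sum →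
      Cn (fun T => ∀ x ∈ T, ∀ v, dv s r x v = D v) T T'

end defs

section a9

open Finset

variable {V W : Type} [Fintype V] [DecidableEq V] [Fintype W] [DecidableEq W]

private lemma a9_dg (s r : W → V) (B : Finset W) (v : V) :
    dg s r B v = T16X.bd s r B v := by
  unfold dg T16X.bd
  rw [Finset.sum_sub_distrib, Finset.card_filter, Finset.card_filter]
  push_cast
  rfl

/-- A7 (PL). -/
theorem PL (s r : W → V) (N : Finset W) (t h : V)
    (hcut : ∀ S : Finset V, t ∈ S → h ∉ S → (eo s r N S).Nonempty) :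
    ∃ Z ⊆ N, ∀ v, dg s r Z v = dl t h v := by
  obtain ⟨Q, hQ, h1⟩ := T16X.PL s r N t h (by
    intro S h1 h2
    obtain ⟨a, ha⟩ := hcut S h1 h2
    simp only [eo, Finset.mem_filter] at ha
    exact ⟨a, ha.1, ha.2⟩)
  refine ⟨Q, hQ, fun v => ?_⟩
  rw [a9_dg, h1]
  unfold dl
  simp only [eq_comm]

/-- A13. **Lemma TG** (all levels). -/
theorem TG (s r : W → V) (D : V → ℤ) (hW : ∀ v, dg s r univ v = 2 * D v) (t h : V) (hth : t ≠ h)
    (hN : ND D t h) (e : W) (hes : s e = t) (her : r e = h) (EN : Finset W) (he : e ∉ EN)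
    (UU : Finset V → Prop) (hUU : ∀ U, UU U → t ∈ U ∧ h ∉ U)
    (hinf : ∀ U U', UU U → UU U' → UU (U ∩ U')) (hsup : ∀ U U', UU U → UU U' → UU (U ∪ U'))
    (hcU : ∀ U, UU U → (EN.card : ℤ) + 1 ≤ -∑ v ∈ U, D v)
    (P : Finset W → Finset W → Prop) (hP : Equivalence P)
    (hshare : ∀ B B', (∀ v, dg s r B v = D v) → (∀ v, dg s r B' v = D v) → e ∈ B → e ∈ B' →
      Disjoint B EN → Disjoint B' EN →
      (∀ U, UU U → ∃ f ∈ B, f ∈ B' ∧ s f ∉ U ∧ r f ∈ U) → P B B')
    (B B' : Finset W) (hB : ∀ v, dg s r B v = D v) (hB' : ∀ v, dg s r B' v = D v)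
    (heB : e ∈ B) (heB' : e ∈ B') (hEN : Disjoint B EN) (hEN' : Disjoint B' EN) : P B B' := by
  classical
  subst hes her
  have h := T16X.TG s r univ D e EN (fun v => by rw [← a9_dg]; exact hW v) hN
    (univ.filter UU) (fun U hU => hUU U (Finset.mem_filter.1 hU).2)
    (fun U hU U' hU' => Finset.mem_filter.2 ⟨Finset.mem_univ _,
      hinf _ _ (Finset.mem_filter.1 hU).2 (Finset.mem_filter.1 hU').2⟩)
    (fun U hU U' hU' => Finset.mem_filter.2 ⟨Finset.mem_univ _,
      hsup _ _ (Finset.mem_filter.1 hU).2 (Finset.mem_filter.1 hU').2⟩)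
    (fun U hU => hcU U (Finset.mem_filter.1 hU).2) B B'
    ⟨Finset.subset_univ _, fun v => by rw [← a9_dg]; exact hB v, heB, Finset.empty_subset _, hEN⟩
    ⟨Finset.subset_univ _, fun v => by rw [← a9_dg]; exact hB' v, heB', Finset.empty_subset _,
      hEN'⟩
  clear hB' heB' hEN'
  induction h with
  | refl => exact hP.refl _
  | tail _ h2 ih =>
    refine hP.trans ih (hshare _ _ ?_ ?_ h2.1.2.2.1 h2.2.1.2.2.1 h2.1.2.2.2.2 h2.2.1.2.2.2.2 ?_)
    · intro v; rw [a9_dg]; exact h2.1.2.1 v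
    · intro v; rw [a9_dg]; exact h2.2.1.2.1 v
    · intro U hU
      obtain ⟨f, hf⟩ := h2.2.2 U (Finset.mem_filter.2 ⟨Finset.mem_univ _, hU⟩)
      rw [Finset.mem_inter, Finset.mem_inter] at hf
      have h3 := hf.2
      simp only [T16X.inn, Finset.mem_filter] at h3
      exact ⟨f, hf.1.1, hf.1.2, h3.2.1, h3.2.2⟩

end a9

section a10

open Finset

variable {V W : Type} [Fintype V] [DecidableEq V] [Fintype W] [DecidableEq W]

private lemma a10_dg (s r : W → V) (B : Finset W) (v : V) :
    dg s r B v = T16X.bd s r B v := by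
  unfold dg T16X.bd
  rw [Finset.sum_sub_distrib, Finset.card_filter, Finset.card_filter]
  push_cast
  rfl

/-- A14. splitting -/
theorem exists_half (s r : W → V) (D : V → ℤ) (hW : ∀ v, dg s r univ v = 2 * D v) :
    ∃ B : Finset W, ∀ v, dg s r B v = D v := by
  classical
  obtain ⟨B, -, hmin⟩ := Finset.exists_min_image (Finset.univ : Finset (Finset W))
    (fun B => ∑ v, |T16X.bd s r B v - D v|) ⟨∅, Finset.mem_univ _⟩
  refine ⟨B, ?_⟩
  by_contra hcon
  push Not at hcon
  simp only [a10_dg] at hcon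
  have hDtot : ∑ v, D v = 0 := by
    have h1 := T16X.sum_bd s r (univ : Finset W) univ
    have h2 : T16X.outs s r (univ : Finset W) univ = ∅ := by simp [T16X.outs]
    have h3 : T16X.inn s r (univ : Finset W) univ = ∅ := by simp [T16X.inn]
    rw [h2, h3, Finset.sum_congr rfl (fun v _ => (a10_dg s r univ v).symm.trans (hW v)),
      ← Finset.mul_sum] at h1
    simp at h1
    omega
  have hBtot : ∑ v, T16X.bd s r B v = 0 := by
    have h1 := T16X.sum_bd s r B univ
    have h2 : T16X.outs s r B univ = ∅ := by simp [T16X.outs]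
    have h3 : T16X.inn s r B univ = ∅ := by simp [T16X.inn]
    rw [h2, h3] at h1
    simpa using h1
  obtain ⟨v, hv⟩ : ∃ v, T16X.bd s r B v < D v := by
    by_contra hno
    push Not at hno
    have h0 : ∑ v, (T16X.bd s r B v - D v) = 0 := by
      rw [Finset.sum_sub_distrib, hBtot, hDtot, sub_zero]
    rw [Finset.sum_eq_zero_iff_of_nonneg (fun v _ => by linarith [hno v])] at h0
    obtain ⟨v, hv⟩ := hcon
    have := h0 v (Finset.mem_univ _)
    omega
  -- a reachable vertex of excess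
  obtain ⟨w, hw, hcut⟩ : ∃ w, D w < T16X.bd s r B w ∧ ∀ S : Finset V, v ∈ S → w ∉ S →
      ∃ a ∈ (univ : Finset W), T16X.tl s r B a ∈ S ∧ T16X.hd s r B a ∉ S := by
    by_contra hno
    push Not at hno
    choose! S hS1 hS2 hS3 using hno
    set X := (univ : Finset V).filter fun x => ∀ w, D w < T16X.bd s r B w → x ∈ S w with hX
    have memX : ∀ x, x ∈ X ↔ ∀ w, D w < T16X.bd s r B w → x ∈ S w := by intro x; simp [hX]
    have hout : T16X.outs (T16X.tl s r B) (T16X.hd s r B) univ X = ∅ := by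
      rw [Finset.eq_empty_iff_forall_notMem]
      intro a ha
      simp only [T16X.outs, Finset.mem_filter] at ha
      obtain ⟨-, h1, h2⟩ := ha
      apply h2
      rw [memX] at h1 ⊢
      intro w hw
      exact hS3 w hw a (Finset.mem_univ _) (h1 w hw)
    have h1 := T16X.sum_bd (T16X.tl s r B) (T16X.hd s r B) univ X
    rw [hout, Finset.card_empty] at h1
    have h2 : 0 < ∑ x ∈ X, T16X.bd (T16X.tl s r B) (T16X.hd s r B) univ x := by
      have hval : ∀ x, T16X.bd (T16X.tl s r B) (T16X.hd s r B) univ x =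
          2 * (D x - T16X.bd s r B x) := by
        intro x
        rw [T16X.bd_rev s r univ B (Finset.subset_univ _), ← a10_dg s r univ, hW]; ring
      have hvX : v ∈ X := by rw [memX]; intro w hw; exact hS1 w hw
      calc (0 : ℤ) < 2 * (D v - T16X.bd s r B v) := by linarith
        _ = T16X.bd (T16X.tl s r B) (T16X.hd s r B) univ v := (hval v).symm
        _ ≤ _ := by
          apply Finset.single_le_sum (f := fun x => T16X.bd (T16X.tl s r B) (T16X.hd s r B) univ x)
            (fun x hx => ?_) hvX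
          simp only [hval]
          by_contra hneg
          push Not at hneg
          have hlt : D x < T16X.bd s r B x := by linarith
          exact hS2 x hlt ((memX x).1 hx x hlt)
    push_cast at h1
    have h3 : (0 : ℤ) ≤ ((T16X.inn (T16X.tl s r B) (T16X.hd s r B) univ X).card : ℤ) := by
      positivity
    linarith
  obtain ⟨Q, -, hQ⟩ := T16X.PL (T16X.tl s r B) (T16X.hd s r B) univ v w hcut
  have hvw : v ≠ w := by rintro rfl; linarith
  have hnew : ∀ x, T16X.bd s r (symmDiff B Q) x =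
      T16X.bd s r B x + ((if v = x then 1 else 0) - (if w = x then 1 else 0)) := by
    intro x; rw [T16X.bd_flip, hQ]
  have hle : ∀ x, |T16X.bd s r (symmDiff B Q) x - D x| ≤ |T16X.bd s r B x - D x| := by
    intro x
    rw [hnew]
    by_cases h1 : v = x
    · subst h1
      rw [if_pos rfl, if_neg (Ne.symm hvw), abs_of_nonpos (by linarith),
        abs_of_nonpos (by linarith)]
      linarith
    · by_cases h2 : w = x
      · subst h2
        rw [if_neg h1, if_pos rfl, abs_of_nonneg (by omega), abs_of_nonneg (by omega)]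
        linarith
      · rw [if_neg h1, if_neg h2, sub_zero, add_zero]
  have hlt : |T16X.bd s r (symmDiff B Q) v - D v| < |T16X.bd s r B v - D v| := by
    rw [hnew, if_pos rfl, if_neg (Ne.symm hvw), abs_of_nonpos (by linarith),
      abs_of_nonpos (by linarith)]
    linarith
  have := hmin (symmDiff B Q) (Finset.mem_univ _)
  have h2 := Finset.sum_lt_sum (fun x (_ : x ∈ (univ : Finset V)) => hle x)
    ⟨v, Finset.mem_univ _, hlt⟩
  linarith

end a10

section sec_B1

open Finset

variable {V A : Type} [Fintype V] [DecidableEq V] [Fintype A] [DecidableEq A]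

/-- B1. -/
theorem dv_add (s r : A → V) (x y : A → ℕ) (v : V) : dv s r (x + y) v = dv s r x v + dv s r y v := by
  unfold dv
  rw [← Finset.sum_add_distrib]
  refine Finset.sum_congr rfl fun a _ => ?_
  rw [Pi.add_apply]
  push_cast
  ring

theorem dv_zero (s r : A → V) (v : V) : dv s r 0 v = 0 := by
  unfold dv
  simp

theorem dv_sub (s r : A → V) (x y : A → ℕ) (h : y ≤ x) (v : V) :
    dv s r (x - y) v = dv s r x v - dv s r y v := by
  have h1 : x - y + y = x := tsub_add_cancel_of_le h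
  have h2 := dv_add s r (x - y) y v
  rw [h1] at h2
  linarith

theorem dv_swap (s r : A → V) (x : A → ℕ) (v : V) : dv r s x v = -dv s r x v := by
  unfold dv
  rw [← Finset.sum_neg_distrib]
  refine Finset.sum_congr rfl fun a _ => ?_
  ring

theorem sum_dv (s r : A → V) (x : A → ℕ) (S : Finset V) :
    ∑ v ∈ S, dv s r x v = (xo s r x S : ℤ) - (xo r s x S : ℤ) := by
  unfold dv xo
  rw [Finset.sum_comm]
  push_cast
  rw [← Finset.sum_sub_distrib]
  refine Finset.sum_congr rfl fun a _ => ?_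
  rw [← Finset.mul_sum, Finset.sum_sub_distrib, Finset.sum_ite_eq, Finset.sum_ite_eq]
  by_cases h1 : s a ∈ S <;> by_cases h2 : r a ∈ S <;> simp [h1, h2]

theorem xo_eq_zero_iff (s r : A → V) (x : A → ℕ) (S : Finset V) :
    xo s r x S = 0 ↔ ∀ a, s a ∈ S → r a ∉ S → x a = 0 := by
  unfold xo
  rw [Finset.sum_eq_zero_iff]
  constructor
  · intro h a h1 h2
    have := h a (mem_univ a)
    rwa [if_pos ⟨h1, h2⟩] at this
  · intro h a _
    split_ifs with h1
    · exact h a h1.1 h1.2
    · rfl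

/-- submodularity, in the form needed: the `U` not left by `x` form a lattice -/
theorem xo_inter_union (s r : A → V) (x : A → ℕ) (S S' : Finset V) (h : xo s r x S = 0)
    (h' : xo s r x S' = 0) : xo s r x (S ∩ S') = 0 ∧ xo s r x (S ∪ S') = 0 := by
  rw [xo_eq_zero_iff] at h h' ⊢
  rw [xo_eq_zero_iff]
  constructor
  · intro a h1 h2
    rw [mem_inter] at h1 h2
    by_cases h3 : r a ∈ S
    · exact h' a h1.2 fun h4 => h2 ⟨h3, h4⟩
    · exact h a h1.1 h3
  · intro a h1 h2
    rw [mem_union] at h1 h2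
    push Not at h2
    rcases h1 with h1 | h1
    · exact h a h1 h2.1
    · exact h' a h1 h2.2

/-- the divergence of the total of a state -/
theorem dv_sum (s r : A → V) (T : Multiset (A → ℕ)) (v : V) :
    dv s r T.sum v = (T.map fun x => dv s r x v).sum := by
  induction T using Multiset.induction_on with
  | empty => rw [Multiset.sum_zero, dv_zero, Multiset.map_zero, Multiset.sum_zero]
  | cons a T ih => rw [Multiset.sum_cons, dv_add, ih, Multiset.map_cons, Multiset.sum_cons]

/-- the sum of `dl` over `U ∋ t`, `h ∉ U` is `1` -/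
theorem sum_dl (t h : V) (U : Finset V) (ht : t ∈ U) (hh : h ∉ U) : ∑ v ∈ U, dl t h v = 1 := by
  unfold dl
  rw [Finset.sum_sub_distrib, Finset.sum_ite_eq', Finset.sum_ite_eq', if_pos ht, if_neg hh]
  norm_num

theorem dl_self (t h : V) (hth : t ≠ h) : dl t h t = 1 := by
  unfold dl
  rw [if_pos rfl, if_neg hth]
  norm_num

theorem Fl_of (s r : A → V) (D : V → ℤ) (t h : V) (hth : t ≠ h) (x : A → ℕ) (e : ℤ)
    (hx : ∀ v, dv s r x v = D v - e * dl t h v) : Fl s r D t h x ∧ ep s r D t x = e := by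
  have h1 : ep s r D t x = e := by
    unfold ep
    rw [hx t, dl_self t h hth]
    ring
  refine ⟨fun v => ?_, h1⟩
  rw [h1, hx v]

theorem Fl_down (s r : A → V) (D : V → ℤ) (t h : V) (hth : t ≠ h) (p zp zm : A → ℕ)
    (hp : Fl s r D t h p) (hz : zp ≤ p) (hd : ∀ v, dv s r zp v - dv s r zm v = dl t h v) :
    Fl s r D t h (p - zp + zm) ∧ ep s r D t (p - zp + zm) = ep s r D t p + 1 := by
  apply Fl_of s r D t h hth
  intro v
  rw [dv_add, dv_sub s r p zp hz]
  have h1 := hp v
  have h2 := hd v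
  linear_combination h1 - h2

theorem Fl_up (s r : A → V) (D : V → ℤ) (t h : V) (hth : t ≠ h) (g zp zm : A → ℕ)
    (hg : Fl s r D t h g) (hz : zm ≤ g) (hd : ∀ v, dv s r zp v - dv s r zm v = dl t h v) :
    Fl s r D t h (g - zm + zp) ∧ ep s r D t (g - zm + zp) = ep s r D t g - 1 := by
  apply Fl_of s r D t h hth
  intro v
  rw [dv_add, dv_sub s r g zm hz]
  have h1 := hg v
  have h2 := hd v
  linear_combination h1 + h2

/-- the cut formula for a flow -/
theorem Fl_cut (s r : A → V) (D : V → ℤ) (t h : V) (x : A → ℕ) (hx : Fl s r D t h x)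
    (U : Finset V) (ht : t ∈ U) (hh : h ∉ U) :
    ∑ v ∈ U, D v = ep s r D t x + (xo s r x U : ℤ) - (xo r s x U : ℤ) := by
  have h1 := sum_dv s r x U
  rw [Finset.sum_congr rfl fun v _ => hx v, Finset.sum_sub_distrib, ← Finset.mul_sum,
    sum_dl t h U ht hh] at h1
  linarith

/-- the rest of a state is a flow -/
theorem Fl_sub (s r : A → V) (D : V → ℤ) (t h : V) (hth : t ≠ h) (M : A → ℕ) (k : ℕ) (m : ℤ)
    (hM : ∀ v, dv s r M v = (k + 1 : ℤ) * D v - m * dl t h v) (x : A → ℕ)
    (hx : Fl s r D t h x) (hle : x ≤ M) :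
    ∀ v, dv s r (M - x) v = (k : ℤ) * D v - (m - ep s r D t x) * dl t h v := by
  intro v
  rw [dv_sub s r M x hle, hM v, hx v]
  ring

/-- divergence of the total of a state -/
theorem St_dv (s r : A → V) (D : V → ℤ) (t h : V) (hth : t ≠ h) (M : A → ℕ) (k : ℕ) (j : ℤ)
    (T : Multiset (A → ℕ)) (hT : St s r D t h M k j T) (v : V) :
    dv s r M v = k * D v - (k * D t - dv s r M t) * dl t h v := by
  obtain ⟨h1, h2, h3⟩ := hT
  subst h1 h2
  clear hth
  induction T using Multiset.induction_on with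
  | empty => simp [dv_zero]
  | cons a T ih =>
    have ih' := ih (fun x hx => h3 x (Multiset.mem_cons_of_mem hx))
    have h4 := (h3 a (Multiset.mem_cons_self a T)).1 v
    rw [Multiset.sum_cons, dv_add, dv_add, Multiset.card_cons]
    unfold ep at h4
    push_cast
    linear_combination ih' + h4

end sec_B1

section sec_B2

open Finset

variable {V A : Type} [Fintype V] [DecidableEq V] [Fintype A] [DecidableEq A]

omit [Fintype V] in
/-- the divergence of an arc set as a sum over all arcs -/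
theorem bB2_dg_sum {W : Type} [Fintype W] [DecidableEq W] (s r : W → V) (Z : Finset W) (v : V) :
    dg s r Z v = ∑ w, (if w ∈ Z then ((if s w = v then (1 : ℤ) else 0) - (if r w = v then 1 else 0))
      else 0) := by
  unfold dg
  rw [Finset.card_filter, Finset.card_filter]
  push_cast
  rw [← Finset.sum_sub_distrib, ← Finset.sum_filter]
  refine Finset.sum_congr ?_ fun _ _ => rfl
  ext w
  simp

/-- B2 (PL for flows). From `PL` on the arc type `A ⊕ A`. -/
theorem PLf (s r : A → V) (p X : A → ℕ) (t h : V)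
    (hcut : ∀ U : Finset V, t ∈ U → h ∉ U →
      (∃ a, 0 < p a ∧ s a ∈ U ∧ r a ∉ U) ∨ (∃ a, 0 < X a ∧ r a ∈ U ∧ s a ∉ U)) :
    ∃ zp zm : A → ℕ, zp ≤ p ∧ zm ≤ X ∧ ∀ v, dv s r zp v - dv s r zm v = dl t h v := by
  obtain ⟨Z, hZ, hd⟩ := PL (W := A ⊕ A) (Sum.elim s r) (Sum.elim r s)
    (Finset.univ.filter fun w => 0 < Sum.elim p X w) t h (by
      intro U ht hh
      rcases hcut U ht hh with ⟨a, h1, h2, h3⟩ | ⟨a, h1, h2, h3⟩
      · exact ⟨Sum.inl a, by simp [eo, h1, h2, h3]⟩
      · exact ⟨Sum.inr a, by simp [eo, h1, h2, h3]⟩)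
  refine ⟨fun a => if Sum.inl a ∈ Z then 1 else 0, fun a => if Sum.inr a ∈ Z then 1 else 0,
    fun a => ?_, fun a => ?_, fun v => ?_⟩
  · dsimp only
    split_ifs with h1
    · have := hZ h1
      simp only [Finset.mem_filter, Finset.mem_univ, true_and] at this
      exact this
    · exact Nat.zero_le _
  · dsimp only
    split_ifs with h1
    · have := hZ h1
      simp only [Finset.mem_filter, Finset.mem_univ, true_and] at this
      exact this
    · exact Nat.zero_le _
  · rw [← hd v, bB2_dg_sum, Fintype.sum_sum_type]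
    unfold dv
    rw [sub_eq_add_neg, ← Finset.sum_neg_distrib]
    congr 1
    · refine Finset.sum_congr rfl fun a _ => ?_
      dsimp only
      by_cases h1 : Sum.inl a ∈ Z
      · rw [if_pos h1, if_pos h1, Nat.cast_one, one_mul]
        rfl
      · rw [if_neg h1, if_neg h1, Nat.cast_zero, zero_mul]
    · refine Finset.sum_congr rfl fun a _ => ?_
      dsimp only
      by_cases h1 : Sum.inr a ∈ Z
      · rw [if_pos h1, if_pos h1, Nat.cast_one, one_mul, neg_sub]
        rfl
      · rw [if_neg h1, if_neg h1, Nat.cast_zero, zero_mul, neg_zero]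

end sec_B2

section sec_B3

open Finset

variable {V A : Type} [Fintype V] [DecidableEq V] [Fintype A] [DecidableEq A]

/-- B3 (IMP). -/
theorem IMP (s r : A → V) (D : V → ℤ) (t h : V) (hth : t ≠ h) (x y : A → ℕ)
    (hx : Fl s r D t h x) (hy : Fl s r D t h y) (hlt : ep s r D t x < ep s r D t y) :
    ∃ x' y' : A → ℕ, Fl s r D t h x' ∧ Fl s r D t h y' ∧ x + y = x' + y' ∧
      ep s r D t x' = ep s r D t x + 1 ∧ ep s r D t y' = ep s r D t y - 1 := by
  obtain ⟨zp, zm, hzp, hzm, hd⟩ := PLf s r x y t h (by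
    intro U ht hh
    by_contra hcon
    push Not at hcon
    obtain ⟨h1, h2⟩ := hcon
    have e1 : xo s r x U = 0 := by
      rw [xo_eq_zero_iff]
      intro a ha ha'
      by_contra h0
      exact ha' (h1 a (Nat.pos_of_ne_zero h0) ha)
    have e2 : xo r s y U = 0 := by
      rw [xo_eq_zero_iff]
      intro a ha ha'
      by_contra h0
      exact ha' (h2 a (Nat.pos_of_ne_zero h0) ha)
    have c1 := Fl_cut s r D t h x hx U ht hh
    have c2 := Fl_cut s r D t h y hy U ht hh
    rw [e1] at c1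
    rw [e2] at c2
    push_cast at c1 c2
    have p1 : (0 : ℤ) ≤ (xo r s x U : ℤ) := Int.natCast_nonneg _
    have p2 : (0 : ℤ) ≤ (xo s r y U : ℤ) := Int.natCast_nonneg _
    omega)
  obtain ⟨f1, f2⟩ := Fl_down s r D t h hth x zp zm hx hzp hd
  obtain ⟨g1, g2⟩ := Fl_up s r D t h hth y zp zm hy hzm hd
  refine ⟨x - zp + zm, y - zm + zp, f1, g1, ?_, f2, g2⟩
  funext a
  have h1 : zp a ≤ x a := hzp a
  have h2 : zm a ≤ y a := hzm a
  simp only [Pi.add_apply, Pi.sub_apply]
  omega

end sec_B3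

section sec_B4

open Finset

variable {V A : Type} [Fintype V] [DecidableEq V] [Fintype A] [DecidableEq A]

/-- the labelled arcs -/
abbrev bB4_W (L : A → ℕ) (N : ℕ) : Type := (Σ a : A, Fin (L a)) ⊕ Fin N

/-- tails and heads of the labelled arcs -/
def bB4_s (f : A → V) (t : V) {L : A → ℕ} {N : ℕ} : bB4_W L N → V :=
  Sum.elim (fun p => f p.1) (fun _ => t)

/-- multiplicities of a set of labelled arcs -/
def bB4_cnt {L : A → ℕ} {N : ℕ} (B : Finset (bB4_W L N)) (a : A) : ℕ :=
  ∑ i : Fin (L a), if (Sum.inl ⟨a, i⟩ : bB4_W L N) ∈ B then 1 else 0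

/-- number of virtual arcs -/
def bB4_nb {L : A → ℕ} {N : ℕ} (B : Finset (bB4_W L N)) : ℕ :=
  ∑ i : Fin N, if (Sum.inr i : bB4_W L N) ∈ B then 1 else 0

theorem bB4_card (f : A → V) (t : V) {L : A → ℕ} {N : ℕ} (B : Finset (bB4_W L N)) (v : V) :
    ((B.filter fun w => bB4_s f t w = v).card : ℤ)
      = ∑ a, (bB4_cnt B a : ℤ) * (if f a = v then 1 else 0)
        + (bB4_nb B : ℤ) * (if t = v then 1 else 0) := by
  have h1 : ((B.filter fun w => bB4_s f t w = v).card : ℤ)
      = ∑ w : bB4_W L N, if w ∈ B then (if bB4_s f t w = v then (1 : ℤ) else 0) else 0 := by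
    rw [Finset.card_filter, Finset.sum_ite_mem, Finset.univ_inter]
    push_cast
    rfl
  rw [h1, Fintype.sum_sum_type, Fintype.sum_sigma]
  congr 1
  · apply Finset.sum_congr rfl
    intro a _
    unfold bB4_cnt
    rw [Nat.cast_sum, Finset.sum_mul]
    apply Finset.sum_congr rfl
    intro i _
    have : bB4_s f t (Sum.inl ⟨a, i⟩ : bB4_W L N) = f a := rfl
    rw [this]
    by_cases hi : (Sum.inl ⟨a, i⟩ : bB4_W L N) ∈ B
    · simp [hi]
    · simp [hi]
  · unfold bB4_nb
    rw [Nat.cast_sum, Finset.sum_mul]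
    apply Finset.sum_congr rfl
    intro i _
    have : bB4_s f t (Sum.inr i : bB4_W L N) = t := rfl
    rw [this]
    by_cases hi : (Sum.inr i : bB4_W L N) ∈ B
    · simp [hi]
    · simp [hi]

theorem bB4_dg (s r : A → V) (t h : V) {L : A → ℕ} {N : ℕ} (B : Finset (bB4_W L N)) (v : V) :
    dg (bB4_s s t) (bB4_s r h) B v = dv s r (bB4_cnt B) v + (bB4_nb B : ℤ) * dl t h v := by
  unfold dg dv dl
  rw [bB4_card, bB4_card]
  have h1 : ∀ a, (bB4_cnt B a : ℤ) * ((if s a = v then 1 else 0) - (if r a = v then 1 else 0))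
      = (bB4_cnt B a : ℤ) * (if s a = v then 1 else 0)
        - (bB4_cnt B a : ℤ) * (if r a = v then 1 else 0) := fun a => by ring
  simp only [h1, Finset.sum_sub_distrib]
  have h2 : (if t = v then (1 : ℤ) else 0) = if v = t then 1 else 0 := by
    by_cases h : t = v
    · rw [if_pos h, if_pos h.symm]
    · rw [if_neg h, if_neg (fun hh => h hh.symm)]
  have h3 : (if h = v then (1 : ℤ) else 0) = if v = h then 1 else 0 := by
    by_cases hh : h = v
    · rw [if_pos hh, if_pos hh.symm]
    · rw [if_neg hh, if_neg (fun hhh => hh hhh.symm)]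
  rw [h2, h3]
  ring

theorem bB4_cnt_le {L : A → ℕ} {N : ℕ} (B : Finset (bB4_W L N)) (a : A) : bB4_cnt B a ≤ L a := by
  unfold bB4_cnt
  calc ∑ i : Fin (L a), (if (Sum.inl ⟨a, i⟩ : bB4_W L N) ∈ B then 1 else 0)
      ≤ ∑ _i : Fin (L a), 1 := by
        apply Finset.sum_le_sum
        intro i _
        split_ifs <;> omega
    _ = L a := by simp

theorem bB4_cnt_pos {L : A → ℕ} {N : ℕ} (B : Finset (bB4_W L N)) (a : A) (i : Fin (L a))
    (h : (Sum.inl ⟨a, i⟩ : bB4_W L N) ∈ B) : 0 < bB4_cnt B a := by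
  unfold bB4_cnt
  apply Finset.sum_pos' (fun _ _ => Nat.zero_le _)
  exact ⟨i, Finset.mem_univ _, by rw [if_pos h]; exact one_pos⟩

theorem bB4_cnt_univ {L : A → ℕ} {N : ℕ} :
    bB4_cnt (Finset.univ : Finset (bB4_W L N)) = L := by
  funext a
  unfold bB4_cnt
  simp

theorem bB4_nb_univ {L : A → ℕ} {N : ℕ} :
    bB4_nb (Finset.univ : Finset (bB4_W L N)) = N := by
  unfold bB4_nb
  simp

/-- number of `i : Fin n` with `i < m` -/
theorem bB4_lt (n m : ℕ) (h : m ≤ n) : (∑ i : Fin n, if (i : ℕ) < m then 1 else 0) = m := by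
  rw [← Finset.card_filter]
  have : (Finset.univ.filter fun i : Fin n => (i : ℕ) < m)
      = (Finset.univ : Finset (Fin m)).map (Fin.castLEEmb h) := by
    ext i
    simp only [Finset.mem_filter, Finset.mem_univ, true_and, Finset.mem_map]
    constructor
    · intro hi
      exact ⟨⟨i, hi⟩, by ext; rfl⟩
    · rintro ⟨k, rfl⟩
      exact k.2
  rw [this, Finset.card_map, Finset.card_univ, Fintype.card_fin]

/-- number of `i : Fin n` with `n - m ≤ i` -/
theorem bB4_ge (n m : ℕ) (h : m ≤ n) :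
    (Finset.univ.filter fun i : Fin n => n - m ≤ (i : ℕ)).card = m := by
  have h1 := Finset.card_filter_add_card_filter_not (s := (Finset.univ : Finset (Fin n)))
    (fun i : Fin n => (i : ℕ) < n - m)
  have h2 := bB4_lt n (n - m) (Nat.sub_le _ _)
  rw [← Finset.card_filter] at h2
  rw [Finset.card_univ, Fintype.card_fin] at h1
  have h3 : (Finset.univ.filter fun i : Fin n => ¬ (i : ℕ) < n - m)
      = Finset.univ.filter fun i : Fin n => n - m ≤ (i : ℕ) := by
    ext i; simp [not_lt]
  rw [h3] at h1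
  omega

/-- the standard set with given multiplicities -/
def bB4_set (L : A → ℕ) (N : ℕ) (x : A → ℕ) (b : ℕ) : Finset (bB4_W L N) :=
  Finset.disjSum (Finset.univ.filter fun p : (Σ a : A, Fin (L a)) => (p.2 : ℕ) < x p.1)
    (Finset.univ.filter fun i : Fin N => (i : ℕ) < b)

theorem bB4_set_inl (L : A → ℕ) (N : ℕ) (x : A → ℕ) (b : ℕ) (a : A) (i : Fin (L a)) :
    (Sum.inl ⟨a, i⟩ : bB4_W L N) ∈ bB4_set L N x b ↔ (i : ℕ) < x a := by
  unfold bB4_set
  simp

theorem bB4_set_inr (L : A → ℕ) (N : ℕ) (x : A → ℕ) (b : ℕ) (i : Fin N) :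
    (Sum.inr i : bB4_W L N) ∈ bB4_set L N x b ↔ (i : ℕ) < b := by
  unfold bB4_set
  simp

theorem bB4_set_cnt (L : A → ℕ) (N : ℕ) (x : A → ℕ) (b : ℕ) (hx : x ≤ L) :
    bB4_cnt (bB4_set L N x b) = x := by
  funext a
  unfold bB4_cnt
  simp only [bB4_set_inl]
  exact bB4_lt _ _ (hx a)

theorem bB4_set_nb (L : A → ℕ) (N : ℕ) (x : A → ℕ) (b : ℕ) (hb : b ≤ N) :
    bB4_nb (bB4_set L N x b) = b := by
  unfold bB4_nb
  simp only [bB4_set_inr]
  exact bB4_lt _ _ hb

/-- the last `j` virtual arcs -/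
def bB4_E (L : A → ℕ) (N j : ℕ) : Finset (bB4_W L N) :=
  (Finset.univ.filter fun i : Fin N => N - j ≤ (i : ℕ)).map Function.Embedding.inr

theorem bB4_E_inr (L : A → ℕ) (N j : ℕ) (i : Fin N) :
    (Sum.inr i : bB4_W L N) ∈ bB4_E L N j ↔ N - j ≤ (i : ℕ) := by
  unfold bB4_E
  rw [Finset.mem_map]
  constructor
  · rintro ⟨k, hk, hki⟩
    have : k = i := Sum.inr_injective hki
    rw [← this]
    simpa using hk
  · intro h
    exact ⟨i, by simpa using h, rfl⟩

/-- B4 (TG for multiplicities). `L` copies of the arcs and `N` virtual arcs `t → h`. From `TG` with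
`W = (Σ a : A, Fin (L a)) ⊕ Fin N`, `e = inr 0`, `EN` = the last `j` virtual arcs. -/
theorem TGc (s r : A → V) (L : A → ℕ) (D : V → ℤ) (t h : V) (hth : t ≠ h) (hN : ND D t h)
    (N j : ℕ) (hL : ∀ v, dv s r L v + N * dl t h v = 2 * D v)
    (UU : Finset V → Prop) (hUU : ∀ U, UU U → t ∈ U ∧ h ∉ U)
    (hinf : ∀ U U', UU U → UU U' → UU (U ∩ U')) (hsup : ∀ U U', UU U → UU U' → UU (U ∪ U'))
    (hcU : ∀ U, UU U → (j : ℤ) + 1 ≤ -∑ v ∈ U, D v)
    (x x' : A → ℕ) (hx : Adm s r L D t h N j x) (hx' : Adm s r L D t h N j x') :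
    Relation.ReflTransGen (fun y y' => Adm s r L D t h N j y ∧ Adm s r L D t h N j y' ∧
      ∀ U, UU U → ∃ a, s a ∉ U ∧ r a ∈ U ∧ 0 < y a ∧ 0 < y' a) x x' := by
  obtain ⟨hxL, b, hb1, hbN, hbD⟩ := hx
  obtain ⟨hxL', b', hb1', hbN', hbD'⟩ := hx'
  have hjN : j ≤ N := by omega
  have hN0 : 0 < N := by omega
  set Q : (A → ℕ) → (A → ℕ) → Prop := fun y y' => Adm s r L D t h N j y ∧ Adm s r L D t h N j y' ∧
      ∀ U, UU U → ∃ a, s a ∉ U ∧ r a ∈ U ∧ 0 < y a ∧ 0 < y' a with hQ
  have hQs : ∀ y y', Q y y' → Q y' y := by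
    rintro y y' ⟨h1, h2, h3⟩
    refine ⟨h2, h1, fun U hU => ?_⟩
    obtain ⟨a, ha1, ha2, ha3, ha4⟩ := h3 U hU
    exact ⟨a, ha1, ha2, ha4, ha3⟩
  have hQR : ∀ y y', Relation.ReflTransGen Q y y' → Relation.ReflTransGen Q y' y := by
    intro y y' hyy
    induction hyy with
    | refl => exact Relation.ReflTransGen.refl
    | tail _ h2 ih => exact Relation.ReflTransGen.head (hQs _ _ h2) ih
  have hadm : ∀ B : Finset (bB4_W L N), (∀ v, dg (bB4_s s t) (bB4_s r h) B v = D v) →
      (Sum.inr ⟨0, hN0⟩ : bB4_W L N) ∈ B → Disjoint B (bB4_E L N j) →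
      Adm s r L D t h N j (bB4_cnt B) := by
    intro B hB he hd
    refine ⟨fun a => bB4_cnt_le B a, bB4_nb B, ?_, ?_, fun v => ?_⟩
    · unfold bB4_nb
      apply Finset.sum_pos' (fun _ _ => Nat.zero_le _)
      exact ⟨⟨0, hN0⟩, Finset.mem_univ _, by rw [if_pos he]; exact one_pos⟩
    · have h1 : bB4_nb B ≤ N - j := by
        unfold bB4_nb
        rw [← bB4_lt N (N - j) (Nat.sub_le _ _)]
        apply Finset.sum_le_sum
        intro i _
        by_cases hi : (Sum.inr i : bB4_W L N) ∈ B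
        · have h2 : (Sum.inr i : bB4_W L N) ∉ bB4_E L N j := Finset.disjoint_left.1 hd hi
          rw [bB4_E_inr] at h2
          rw [if_pos hi, if_pos (by omega)]
        · rw [if_neg hi]
          exact Nat.zero_le _
      omega
    · rw [← hB v, bB4_dg]
  have key := TG (W := bB4_W L N) (bB4_s s t) (bB4_s r h) D
    (fun v => by rw [bB4_dg, bB4_cnt_univ, bB4_nb_univ]; exact hL v)
    t h hth hN (Sum.inr ⟨0, hN0⟩) rfl rfl (bB4_E L N j)
    (by rw [bB4_E_inr]; simp only [not_le]; omega)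
    UU hUU hinf hsup
    (fun U hU => by
      have : (bB4_E L N j).card = j := by
        unfold bB4_E
        rw [Finset.card_map]
        exact bB4_ge N j hjN
      rw [this]
      exact hcU U hU)
    (fun B B' => Relation.ReflTransGen Q (bB4_cnt B) (bB4_cnt B'))
    ⟨fun B => Relation.ReflTransGen.refl, fun hBB => hQR _ _ hBB,
      fun h1 h2 => Relation.ReflTransGen.trans h1 h2⟩
    (by
      intro B B' hB hB' he he' hd hd' hU
      refine Relation.ReflTransGen.single ⟨hadm B hB he hd, hadm B' hB' he' hd', fun U hUU' => ?_⟩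
      obtain ⟨f, hf, hf', hfs, hfr⟩ := hU U hUU'
      rcases f with ⟨a, i⟩ | i
      · exact ⟨a, hfs, hfr, bB4_cnt_pos B a i hf, bB4_cnt_pos B' a i hf'⟩
      · exact absurd (hUU U hUU').1 hfs)
    (bB4_set L N x b) (bB4_set L N x' b')
    (fun v => by
      rw [bB4_dg, bB4_set_cnt L N x b hxL, bB4_set_nb L N x b (by omega)]; exact hbD v)
    (fun v => by
      rw [bB4_dg, bB4_set_cnt L N x' b' hxL', bB4_set_nb L N x' b' (by omega)]; exact hbD' v)
    (by rw [bB4_set_inr]; simp only; omega)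
    (by rw [bB4_set_inr]; simp only; omega)
    (by
      rw [Finset.disjoint_left]
      intro w hw hw2
      rcases w with ⟨a, i⟩ | i
      · unfold bB4_E at hw2
        rw [Finset.mem_map] at hw2
        obtain ⟨k, _, hk⟩ := hw2
        exact absurd hk (by simp)
      · rw [bB4_set_inr] at hw
        rw [bB4_E_inr] at hw2
        omega)
    (by
      rw [Finset.disjoint_left]
      intro w hw hw2
      rcases w with ⟨a, i⟩ | i
      · unfold bB4_E at hw2
        rw [Finset.mem_map] at hw2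
        obtain ⟨k, _, hk⟩ := hw2
        exact absurd hk (by simp)
      · rw [bB4_set_inr] at hw
        rw [bB4_E_inr] at hw2
        omega)
  rw [bB4_set_cnt L N x b hxL, bB4_set_cnt L N x' b' hxL'] at key
  exact key

end sec_B4

section sec_B5

open Finset

variable {V A : Type} [Fintype V] [DecidableEq V] [Fintype A] [DecidableEq A]

omit [Fintype V] in
/-- `dg` as a sum over all arcs -/
theorem bB5_dg {W : Type} [Fintype W] [DecidableEq W] (s r : W → V) (B : Finset W) (v : V) :
    dg s r B v = ∑ b, if b ∈ B then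
      ((if s b = v then (1 : ℤ) else 0) - (if r b = v then 1 else 0)) else 0 := by
  unfold dg
  rw [← Finset.sum_filter, Finset.filter_mem_eq_inter, Finset.univ_inter, Finset.sum_sub_distrib]
  simp only [Finset.card_filter, Nat.cast_sum, Nat.cast_ite, Nat.cast_one, Nat.cast_zero]

/-- tails (`u = s`, `w = t`) and heads (`u = r`, `w = h`) of the labelled arcs -/
def bB5_end (u : A → V) (w : V) (y : A → ℕ) (n : ℕ) : (Σ a : A, Fin (y a)) ⊕ Fin n → V :=
  Sum.elim (fun p => u p.1) (fun _ => w)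

omit [Fintype V] in
theorem bB5_dg_lab (s r : A → V) (t h : V) (y : A → ℕ) (n : ℕ)
    (B : Finset ((Σ a : A, Fin (y a)) ⊕ Fin n)) (v : V) :
    dg (bB5_end s t y n) (bB5_end r h y n) B v =
      dv s r (fun a => ((univ : Finset (Fin (y a))).filter fun i => Sum.inl ⟨a, i⟩ ∈ B).card) v +
      (((univ : Finset (Fin n)).filter fun i => Sum.inr i ∈ B).card : ℤ) * dl t h v := by
  rw [bB5_dg, Fintype.sum_sum_type, Fintype.sum_sigma]
  congr 1
  · unfold dv
    refine Finset.sum_congr rfl fun a _ => ?_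
    simp only [bB5_end, Sum.elim_inl]
    rw [Finset.card_filter]
    push_cast
    rw [Finset.sum_mul]
    refine Finset.sum_congr rfl fun i _ => ?_
    by_cases hb : Sum.inl ⟨a, i⟩ ∈ B
    · rw [if_pos hb, if_pos hb, one_mul]
      rfl
    · rw [if_neg hb, if_neg hb, zero_mul]
  · simp only [bB5_end, Sum.elim_inr]
    rw [Finset.card_filter]
    push_cast
    rw [Finset.sum_mul]
    refine Finset.sum_congr rfl fun i _ => ?_
    by_cases hb : Sum.inr i ∈ B
    · rw [if_pos hb, if_pos hb, one_mul]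
      unfold dl
      simp only [eq_comm (a := v)]
      rfl
    · rw [if_neg hb, if_neg hb, zero_mul]

/-- B5 (decomposition into two flows, from `exists_half` with `W = (Σ a, Fin (y a)) ⊕ Fin n`). -/
theorem dec_two (s r : A → V) (D : V → ℤ) (t h : V) (hth : t ≠ h) (y : A → ℕ) (n : ℕ)
    (hy : ∀ v, dv s r y v = 2 * D v - n * dl t h v) :
    ∃ y1 y2 : A → ℕ, y = y1 + y2 ∧ Fl s r D t h y1 ∧ Fl s r D t h y2 ∧
      0 ≤ ep s r D t y1 ∧ 0 ≤ ep s r D t y2 := by
  have hu : ∀ v, dg (bB5_end s t y n) (bB5_end r h y n) univ v = 2 * D v := by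
    intro v
    rw [bB5_dg_lab]
    have e1 : (fun a => ((univ : Finset (Fin (y a))).filter fun i =>
        (Sum.inl ⟨a, i⟩ : (Σ a : A, Fin (y a)) ⊕ Fin n) ∈ univ).card) = y := by
      funext a
      simp
    rw [e1, hy]
    simp
  obtain ⟨B, hB⟩ := exists_half (bB5_end s t y n) (bB5_end r h y n) D hu
  set y1 : A → ℕ := fun a =>
    ((univ : Finset (Fin (y a))).filter fun i => Sum.inl ⟨a, i⟩ ∈ B).card with hy1
  set n1 : ℕ := ((univ : Finset (Fin n)).filter fun i => Sum.inr i ∈ B).card with hn1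
  have h1 : ∀ v, dv s r y1 v + (n1 : ℤ) * dl t h v = D v := fun v => by
    rw [← hB v, bB5_dg_lab]
  have hle : y1 ≤ y := by
    intro a
    have := Finset.card_filter_le (univ : Finset (Fin (y a))) fun i => Sum.inl ⟨a, i⟩ ∈ B
    simpa [hy1] using this
  have hn : n1 ≤ n := by
    have := Finset.card_filter_le (univ : Finset (Fin n)) fun i => Sum.inr i ∈ B
    simpa [hn1] using this
  obtain ⟨f1, g1⟩ := Fl_of s r D t h hth y1 (n1 : ℤ) (fun v => by have := h1 v; linarith)
  obtain ⟨f2, g2⟩ := Fl_of s r D t h hth (y - y1) ((n : ℤ) - n1) (fun v => by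
    rw [dv_sub s r y y1 hle v, hy v]
    have := h1 v
    linarith)
  refine ⟨y1, y - y1, ?_, f1, f2, ?_, ?_⟩
  · funext a
    have h3 : y1 a ≤ y a := hle a
    simp only [Pi.add_apply, Pi.sub_apply]
    omega
  · rw [g1]; exact Int.natCast_nonneg _
  · rw [g2]; omega

end sec_B5

section sec_C1

open Finset

variable {V A : Type} [Fintype V] [DecidableEq V] [Fintype A] [DecidableEq A]

/-- C1. `k ≤ 2` is trivial. -/
theorem EE_small (s r : A → V) (D : V → ℤ) (t h : V) (k : ℕ) (hk : k ≤ 2) : EE s r D t h k := by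
  intro M T T' hT hT'
  obtain ⟨c1, s1, -⟩ := id hT
  obtain ⟨c2, s2, -⟩ := id hT'
  obtain rfl | rfl | rfl : k = 0 ∨ k = 1 ∨ k = 2 := by omega
  · rw [Multiset.card_eq_zero] at c1 c2
    rw [c1, c2]
    exact Relation.ReflTransGen.refl
  · rw [Multiset.card_eq_one] at c1 c2
    obtain ⟨x, rfl⟩ := c1
    obtain ⟨y, rfl⟩ := c2
    rw [Multiset.sum_singleton] at s1 s2
    rw [s1, s2]
    exact Relation.ReflTransGen.refl
  · rw [Multiset.card_eq_two] at c1 c2
    obtain ⟨x, y, rfl⟩ := c1
    obtain ⟨x', y', rfl⟩ := c2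
    refine Relation.ReflTransGen.single ⟨hT, hT', x, y, x', y', 0, rfl, rfl, ?_⟩
    rw [Multiset.sum_pair] at s1 s2
    rw [s1, s2]

theorem C1_Mv_cons {α : Type} [AddCommMonoid α] (q : α) (T T' : Multiset α) (h : Mv T T') :
    Mv (q ::ₘ T) (q ::ₘ T') := by
  obtain ⟨x, y, x', y', R, rfl, rfl, h⟩ := h
  refine ⟨x, y, x', y', q ::ₘ R, ?_, ?_, h⟩
  · rw [Multiset.cons_swap q x, Multiset.cons_swap q y]
  · rw [Multiset.cons_swap q x', Multiset.cons_swap q y']

/-- C2. two states with a common member -/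
theorem share (s r : A → V) (D : V → ℤ) (t h : V) (k : ℕ) (hE : EE s r D t h k) (M : A → ℕ)
    (T T' : Multiset (A → ℕ)) (hT : St s r D t h M (k + 1) 0 T) (hT' : St s r D t h M (k + 1) 0 T')
    (q : A → ℕ) (hq : q ∈ T) (hq' : q ∈ T') : Cn (St s r D t h M (k + 1) 0) T T' := by
  obtain ⟨R, rfl⟩ := Multiset.exists_cons_of_mem hq
  obtain ⟨R', rfl⟩ := Multiset.exists_cons_of_mem hq'
  obtain ⟨c1, s1, m1⟩ := hT
  obtain ⟨c2, s2, m2⟩ := hT'
  rw [Multiset.card_cons, Nat.add_right_cancel_iff] at c1 c2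
  rw [Multiset.sum_cons] at s1 s2
  have hRR : R'.sum = R.sum := by
    have : q + R'.sum = q + R.sum := by rw [s1, s2]
    exact add_left_cancel this
  have hR : St s r D t h R.sum k 0 R :=
    ⟨c1, rfl, fun x hx => m1 x (Multiset.mem_cons_of_mem hx)⟩
  have hR' : St s r D t h R.sum k 0 R' :=
    ⟨c2, hRR, fun x hx => m2 x (Multiset.mem_cons_of_mem hx)⟩
  have hq1 := m1 q (Multiset.mem_cons_self q R)
  have hcons : ∀ Q, St s r D t h R.sum k 0 Q → St s r D t h M (k + 1) 0 (q ::ₘ Q) := by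
    rintro Q ⟨c3, s3, m3⟩
    refine ⟨by rw [Multiset.card_cons, c3], by rw [Multiset.sum_cons, s3, s1], ?_⟩
    intro x hx
    rcases Multiset.mem_cons.1 hx with rfl | hx
    · exact hq1
    · exact m3 x hx
  have hl : ∀ Q, Cn (St s r D t h R.sum k 0) R Q → Cn (St s r D t h M (k + 1) 0) (q ::ₘ R)
      (q ::ₘ Q) := by
    intro Q hQ
    induction hQ with
    | refl => exact Relation.ReflTransGen.refl
    | tail _ hbc ih =>
      exact ih.tail ⟨hcons _ hbc.1, hcons _ hbc.2.1, C1_Mv_cons q _ _ hbc.2.2⟩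
  exact hl R' (hE R.sum R R' hR hR')

/-- C3. `Cn` is symmetric; the levels of a state sum up -/
theorem Cn_symm {α : Type} [AddCommMonoid α] (G : Multiset α → Prop) (T T' : Multiset α)
    (h : Cn G T T') : Cn G T' T := by
  have hs : ∀ T T' : Multiset α, (G T ∧ G T' ∧ Mv T T') → (G T' ∧ G T ∧ Mv T' T) := by
    rintro T T' ⟨h1, h2, x, y, x', y', R, e1, e2, e3⟩
    exact ⟨h2, h1, x', y', x, y, R, e2, e1, e3.symm⟩
  induction h with
  | refl => exact Relation.ReflTransGen.refl
  | tail _ hbc ih => exact Relation.ReflTransGen.head (hs _ _ hbc) ih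

theorem sum_ep (s r : A → V) (D : V → ℤ) (t h : V) (M : A → ℕ) (k : ℕ) (j : ℤ)
    (T : Multiset (A → ℕ)) (hT : St s r D t h M k j T) :
    (T.map fun x => ep s r D t x).sum = k * D t - dv s r M t := by
  obtain ⟨c1, s1, -⟩ := hT
  rw [← s1, dv_sum, ← c1]
  unfold ep
  rw [Multiset.sum_map_sub, Multiset.map_const', Multiset.sum_replicate, nsmul_eq_mul]

end sec_C1

section sec_C4

open Finset

variable {V A : Type} [Fintype V] [DecidableEq V] [Fintype A] [DecidableEq A]

/-- a chain of admissible members of `L`, consecutive ones with a common neighbour `w` of `p` -/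
theorem bC4_chain (s r : A → V) (D : V → ℤ) (t h : V) (hth : t ≠ h) (hN : ND D t h)
    (p L : A → ℕ) (N : ℕ) (hp : Fl s r D t h p) (hep : ep s r D t p = -1)
    (hL : ∀ v, dv s r L v = 2 * D v - N * dl t h v)
    (x x' : A → ℕ) (hx : Adm s r L D t h N 0 x) (hx' : Adm s r L D t h N 0 x') :
    Relation.ReflTransGen (fun y y' => Adm s r L D t h N 0 y ∧ Adm s r L D t h N 0 y' ∧
      ∃ w : A → ℕ, Fl s r D t h w ∧ ep s r D t w = 0 ∧ w ≤ p + y ∧ w ≤ p + y')
      x x' := by
  have hch := TGc s r L D t h hth hN N 0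
    (by
      intro v
      rw [hL v]
      ring)
    (fun U => t ∈ U ∧ h ∉ U ∧ xo s r p U = 0)
    (fun U hU => ⟨hU.1, hU.2.1⟩)
    (fun U U' hU hU' => ⟨Finset.mem_inter.mpr ⟨hU.1, hU'.1⟩,
      fun hh => hU.2.1 (Finset.mem_inter.mp hh).1,
      (xo_inter_union s r p U U' hU.2.2 hU'.2.2).1⟩)
    (fun U U' hU hU' => ⟨Finset.mem_union.mpr (Or.inl hU.1),
      fun hh => (Finset.mem_union.mp hh).elim hU.2.1 hU'.2.1,
      (xo_inter_union s r p U U' hU.2.2 hU'.2.2).2⟩)
    (by
      intro U hU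
      have h1 := Fl_cut s r D t h p hp U hU.1 hU.2.1
      rw [hU.2.2, hep] at h1
      have h2 : (0 : ℤ) ≤ (xo r s p U : ℤ) := Int.natCast_nonneg _
      push_cast at h1 ⊢
      linarith)
    x x' hx hx'
  refine Relation.ReflTransGen.mono ?_ x x' hch
  rintro y y' ⟨hy, hy', hU⟩
  refine ⟨hy, hy', ?_⟩
  obtain ⟨zp, zm, hzp, hzm, hz⟩ := PLf s r p (fun a => min (y a) (y' a)) t h (by
    intro U ht hh
    by_cases hx0 : xo s r p U = 0
    · obtain ⟨a, ha1, ha2, ha3, ha4⟩ := hU U ⟨ht, hh, hx0⟩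
      exact Or.inr ⟨a, lt_min ha3 ha4, ha2, ha1⟩
    · left
      rw [xo_eq_zero_iff] at hx0
      push Not at hx0
      obtain ⟨a, ha1, ha2, ha3⟩ := hx0
      exact ⟨a, Nat.pos_of_ne_zero ha3, ha1, ha2⟩)
  obtain ⟨hw1, hw2⟩ := Fl_down s r D t h hth p zp zm hp hzp hz
  refine ⟨p - zp + zm, hw1, by rw [hw2, hep]; norm_num, ?_, ?_⟩
  · intro a
    have h1 := hzm a
    simp only [Pi.add_apply, Pi.sub_apply] at *
    have h2 : min (y a) (y' a) ≤ y a := min_le_left _ _
    omega
  · intro a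
    have h1 := hzm a
    simp only [Pi.add_apply, Pi.sub_apply] at *
    have h2 : min (y a) (y' a) ≤ y' a := min_le_right _ _
    omega

/-- the level of a three-element state is nonnegative -/
theorem bC4_m_nonneg (s r : A → V) (D : V → ℤ) (t h : V) (M : A → ℕ) (k : ℕ)
    (T : Multiset (A → ℕ)) (hT : St s r D t h M k 0 T) (q : A → ℕ) (hq : q ∈ T) :
    ep s r D t q ≤ k * D t - dv s r M t := by
  rw [← sum_ep s r D t h M k 0 T hT]
  obtain ⟨R, rfl⟩ := Multiset.exists_cons_of_mem hq
  rw [Multiset.map_cons, Multiset.sum_cons]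
  have : 0 ≤ (R.map fun x => ep s r D t x).sum := by
    apply Multiset.sum_nonneg
    intro e he
    obtain ⟨x, hx, rfl⟩ := Multiset.mem_map.mp he
    exact (hT.2.2 x (Multiset.mem_cons_of_mem hx)).2
  linarith

omit [Fintype V] [DecidableEq A] in
/-- a state with three given members -/
theorem bC4_St (s r : A → V) (D : V → ℤ) (t h : V) (M a b c : A → ℕ) (hs : a + b + c = M)
    (ha : Fl s r D t h a ∧ 0 ≤ ep s r D t a) (hb : Fl s r D t h b ∧ 0 ≤ ep s r D t b)
    (hc : Fl s r D t h c ∧ 0 ≤ ep s r D t c) :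
    St s r D t h M 3 0 (a ::ₘ b ::ₘ {c}) := by
  refine ⟨by simp, ?_, ?_⟩
  · rw [Multiset.sum_cons, Multiset.sum_cons, Multiset.sum_singleton, ← hs]
    ring
  · intro x hx
    simp only [Multiset.mem_cons, Multiset.mem_singleton] at hx
    rcases hx with rfl | rfl | rfl
    · exact ha
    · exact hb
    · exact hc

/-- C4 (S1). `p` of level `-1`. `TGc` with `L = M - p`, `N = m + 1`, `j = 0`, `x = L - q`,
`UU U :↔ t ∈ U, h ∉ U, xo s r p U = 0`; each step gives a flow `w` of level `0` by `PLf`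
(`w = p - zp + zm`, `zm ≤ min (y, y')`), and then states `{q, w, M - q - w}`, `{q', w, M - q' - w}`;
then `share` (with `EE_small`). -/
theorem S1 (s r : A → V) (D : V → ℤ) (t h : V) (hth : t ≠ h) (hN : ND D t h) (M p : A → ℕ)
    (hp : Fl s r D t h p) (hep : ep s r D t p = -1)
    (T T' : Multiset (A → ℕ)) (hT : St s r D t h M 3 0 T) (hT' : St s r D t h M 3 0 T')
    (q q' : A → ℕ) (hq : q ∈ T) (hq' : q' ∈ T') (hqp : q + p ≤ M) (hqp' : q' + p ≤ M) :
    Cn (St s r D t h M 3 0) T T' := by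
  have hE2 : EE s r D t h 2 := EE_small s r D t h 2 le_rfl
  have hlev : ∀ S : Multiset (A → ℕ), St s r D t h M 3 0 S → ∀ x ∈ S,
      ep s r D t x ≤ 3 * D t - dv s r M t := by
    intro S hS x hx
    have := bC4_m_nonneg s r D t h M 3 S hS x hx
    push_cast at this
    exact this
  obtain ⟨m, hm⟩ : ∃ m : ℕ, 3 * D t - dv s r M t = m := by
    apply Int.eq_ofNat_of_zero_le
    have h1 := hlev T hT q hq
    have h2 := (hT.2.2 q hq).2
    linarith
  rw [hm] at hlev
  have hMv : ∀ v, dv s r M v = 3 * D v - m * dl t h v := by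
    intro v
    have := St_dv s r D t h hth M 3 0 T hT v
    push_cast at this
    rw [hm] at this
    exact this
  have hpM : p ≤ M := fun a => by
    have h1 := hqp a
    simp only [Pi.add_apply] at h1
    show p a ≤ M a
    omega
  have hLv : ∀ v, dv s r (M - p) v = 2 * D v - ((m + 1 : ℕ) : ℤ) * dl t h v := by
    intro v
    rw [dv_sub s r M p hpM v, hMv v, hp v, hep]
    push_cast
    ring
  -- flows of level in `[0, m]` below `M - p` correspond to admissible members
  have hadm : ∀ x : A → ℕ, Fl s r D t h x → 0 ≤ ep s r D t x → ep s r D t x ≤ m → x + p ≤ M →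
      Adm s r (M - p) D t h (m + 1) 0 (M - p - x) := by
    intro x hx hx0 hxm hxg
    obtain ⟨e, he⟩ := Int.eq_ofNat_of_zero_le hx0
    have hem : e ≤ m := by
      have := hxm
      rw [he] at this
      exact_mod_cast this
    refine ⟨fun a => by simp only [Pi.sub_apply]; omega, m + 1 - e, by omega, by omega, ?_⟩
    intro v
    have hxL : x ≤ M - p := fun a => by
      have := hxg a
      simp only [Pi.add_apply, Pi.sub_apply] at *
      omega
    rw [dv_sub s r (M - p) x hxL v, hLv v, hx v, he]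
    rw [Nat.cast_sub (by omega : e ≤ m + 1)]
    push_cast
    ring
  have hFq := hT.2.2 q hq
  have hFq' := hT'.2.2 q' hq'
  have hch := bC4_chain s r D t h hth hN p (M - p) (m + 1) hp hep hLv
    (M - p - q) (M - p - q') (hadm q hFq.1 hFq.2 (hlev T hT q hq) hqp)
    (hadm q' hFq'.1 hFq'.2 (hlev T' hT' q' hq') hqp')
  have hback : ∀ x : A → ℕ, x + p ≤ M → M - p - (M - p - x) = x := by
    intro x hx
    funext a
    have := hx a
    simp only [Pi.add_apply, Pi.sub_apply] at *
    omega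
  have key : ∀ y' : A → ℕ, Relation.ReflTransGen (fun y y' =>
      Adm s r (M - p) D t h (m + 1) 0 y ∧ Adm s r (M - p) D t h (m + 1) 0 y' ∧
      ∃ w : A → ℕ, Fl s r D t h w ∧ ep s r D t w = 0 ∧ w ≤ p + y ∧ w ≤ p + y')
      (M - p - q) y' → ∀ S, St s r D t h M 3 0 S → (M - p - y') ∈ S →
      Cn (St s r D t h M 3 0) T S := by
    intro y' hy'
    induction hy' with
    | refl =>
      intro S hS hqS
      rw [hback q hqp] at hqS
      exact share s r D t h 2 hE2 M T S hT hS q hq hqS
    | @tail y y' _ hyy ih =>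
      intro S hS hqS
      obtain ⟨hy, hy', w, hFw, hew, hwy, hwy'⟩ := hyy
      have mk : ∀ z : A → ℕ, Adm s r (M - p) D t h (m + 1) 0 z → w ≤ p + z →
          St s r D t h M 3 0 ((M - p - z) ::ₘ w ::ₘ {M - (M - p - z) - w}) := by
        rintro z ⟨hzL, b, hb1, hb2, hb⟩ hwz
        obtain ⟨hF1, he1⟩ := Fl_of s r D t h hth (M - p - z) (m + 1 - b) (by
          intro v
          have h1 := hb v
          rw [dv_sub s r (M - p) z hzL v, hLv v]
          push_cast at h1 ⊢
          linarith)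
        have hle1 : M - p - z ≤ M := fun a => by simp only [Pi.sub_apply]; omega
        have hle2 : w ≤ M - (M - p - z) := fun a => by
          have h1 := hwz a
          have h2 := hzL a
          have h3 := hpM a
          simp only [Pi.add_apply, Pi.sub_apply] at *
          omega
        obtain ⟨hF3, he3⟩ := Fl_of s r D t h hth (M - (M - p - z) - w) (b - 1) (by
          intro v
          rw [dv_sub s r _ w hle2 v, dv_sub s r M _ hle1 v, hMv v, hF1 v, he1, hFw v, hew]
          ring)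
        have hb1' : (1 : ℤ) ≤ b := by exact_mod_cast hb1
        have hb2' : (b : ℤ) ≤ m + 1 := by exact_mod_cast (by omega : b ≤ m + 1)
        refine bC4_St s r D t h M _ _ _ ?_ ⟨hF1, by rw [he1]; linarith⟩ ⟨hFw, hew.ge⟩
          ⟨hF3, by rw [he3]; linarith⟩
        funext a
        have h1 := hwz a
        have h2 := hzL a
        have h3 := hpM a
        simp only [Pi.add_apply, Pi.sub_apply] at *
        omega
      have hS1 := mk y hy hwy
      have hS2 := mk y' hy' hwy'
      have c1 := ih _ hS1 (Multiset.mem_cons_self _ _)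
      have c2 := share s r D t h 2 hE2 M _ _ hS1 hS2 w
        (Multiset.mem_cons_of_mem (Multiset.mem_cons_self _ _))
        (Multiset.mem_cons_of_mem (Multiset.mem_cons_self _ _))
      have c3 := share s r D t h 2 hE2 M _ _ hS2 hS (M - p - y')
        (Multiset.mem_cons_self _ _) hqS
      exact (c1.trans c2).trans c3
  refine key _ hch T' hT' ?_
  rw [hback q' hqp']
  exact hq'

end sec_C4

section sec_C5

open Finset

variable {V A : Type} [Fintype V] [DecidableEq V] [Fintype A] [DecidableEq A]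

/-- a chain of admissible members of `L`, consecutive ones with a common neighbour `w` of `g` -/
theorem bC5_chain (s r : A → V) (D : V → ℤ) (t h : V) (hth : t ≠ h) (hN : ND D t h)
    (g L : A → ℕ) (N j : ℕ) (hg : Fl s r D t h g)
    (hL : ∀ v, dv s r L v = 2 * D v + N * dl t h v) (hgl : (j : ℤ) + 1 ≤ ep s r D t g)
    (x x' : A → ℕ) (hx : Adm r s L (fun v => -D v) t h N j x)
    (hx' : Adm r s L (fun v => -D v) t h N j x') :
    Relation.ReflTransGen (fun y y' => Adm r s L (fun v => -D v) t h N j y ∧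
      Adm r s L (fun v => -D v) t h N j y' ∧
      ∃ w : A → ℕ, Fl s r D t h w ∧ ep s r D t w = ep s r D t g - 1 ∧ w ≤ g + y ∧ w ≤ g + y')
      x x' := by
  have hN' : ND (fun v => -D v) t h := by
    intro S hS ht hh h0
    apply hN S hS ht hh
    rw [Finset.sum_neg_distrib] at h0
    linarith
  have hch := TGc r s L (fun v => -D v) t h hth hN' N j
    (by
      intro v
      have h1 := hL v
      rw [dv_swap s r L v, h1]
      ring)
    (fun U => t ∈ U ∧ h ∉ U ∧ xo r s g U = 0)
    (fun U hU => ⟨hU.1, hU.2.1⟩)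
    (fun U U' hU hU' => ⟨Finset.mem_inter.mpr ⟨hU.1, hU'.1⟩,
      fun hh => hU.2.1 (Finset.mem_inter.mp hh).1,
      (xo_inter_union r s g U U' hU.2.2 hU'.2.2).1⟩)
    (fun U U' hU hU' => ⟨Finset.mem_union.mpr (Or.inl hU.1),
      fun hh => (Finset.mem_union.mp hh).elim hU.2.1 hU'.2.1,
      (xo_inter_union r s g U U' hU.2.2 hU'.2.2).2⟩)
    (by
      intro U hU
      have h1 := Fl_cut s r D t h g hg U hU.1 hU.2.1
      rw [hU.2.2] at h1
      rw [Finset.sum_neg_distrib, neg_neg, h1]
      have h2 : (0 : ℤ) ≤ (xo s r g U : ℤ) := Int.natCast_nonneg _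
      push_cast
      linarith)
    x x' hx hx'
  refine Relation.ReflTransGen.mono ?_ x x' hch
  rintro y y' ⟨hy, hy', hU⟩
  refine ⟨hy, hy', ?_⟩
  obtain ⟨zp, zm, hzp, hzm, hz⟩ := PLf s r (fun a => min (y a) (y' a)) g t h (by
    intro U ht hh
    by_cases hx0 : xo r s g U = 0
    · obtain ⟨a, ha1, ha2, ha3, ha4⟩ := hU U ⟨ht, hh, hx0⟩
      exact Or.inl ⟨a, lt_min ha3 ha4, ha2, ha1⟩
    · right
      rw [xo_eq_zero_iff] at hx0
      push Not at hx0
      obtain ⟨a, ha1, ha2, ha3⟩ := hx0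
      exact ⟨a, Nat.pos_of_ne_zero ha3, ha1, ha2⟩)
  obtain ⟨hw1, hw2⟩ := Fl_up s r D t h hth g zp zm hg hzm hz
  refine ⟨g - zm + zp, hw1, hw2, ?_, ?_⟩
  · intro a
    have h1 := hzp a
    simp only [Pi.add_apply, Pi.sub_apply] at *
    have h2 : min (y a) (y' a) ≤ y a := min_le_left _ _
    omega
  · intro a
    have h1 := hzp a
    simp only [Pi.add_apply, Pi.sub_apply] at *
    have h2 : min (y a) (y' a) ≤ y' a := min_le_right _ _
    omega

/-- the level of a three-element state is nonnegative -/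
theorem bC5_m_nonneg (s r : A → V) (D : V → ℤ) (t h : V) (M : A → ℕ) (k : ℕ)
    (T : Multiset (A → ℕ)) (hT : St s r D t h M k 0 T) : 0 ≤ k * D t - dv s r M t := by
  rw [← sum_ep s r D t h M k 0 T hT]
  apply Multiset.sum_nonneg
  intro e he
  obtain ⟨x, hx, rfl⟩ := Multiset.mem_map.mp he
  exact (hT.2.2 x hx).2

omit [Fintype V] [DecidableEq A] in
/-- a state with three given members -/
theorem bC5_St (s r : A → V) (D : V → ℤ) (t h : V) (M a b c : A → ℕ) (hs : a + b + c = M)
    (ha : Fl s r D t h a ∧ 0 ≤ ep s r D t a) (hb : Fl s r D t h b ∧ 0 ≤ ep s r D t b)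
    (hc : Fl s r D t h c ∧ 0 ≤ ep s r D t c) :
    St s r D t h M 3 0 (a ::ₘ b ::ₘ {c}) := by
  refine ⟨by simp, ?_, ?_⟩
  · rw [Multiset.sum_cons, Multiset.sum_cons, Multiset.sum_singleton, ← hs]
    ring
  · intro x hx
    simp only [Multiset.mem_cons, Multiset.mem_singleton] at hx
    rcases hx with rfl | rfl | rfl
    · exact ha
    · exact hb
    · exact hc

/-- C5 (S2). `g` of level `m + 1`. `TGc` for `(r, s)` (reversed arcs), `-D`, `L = M - g`, `N = 1`,
`j = 0`, `x = L - q`, `UU U :↔ t ∈ U, h ∉ U, xo r s g U = 0`; each step gives `w = g + zp - zm` of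
level `m`, `zp ≤ min (y, y')`, `zm ≤ g`. -/
theorem S2 (s r : A → V) (D : V → ℤ) (t h : V) (hth : t ≠ h) (hN : ND D t h) (M g : A → ℕ)
    (hg : Fl s r D t h g) (heg : ep s r D t g = 3 * D t - dv s r M t + 1)
    (T T' : Multiset (A → ℕ)) (hT : St s r D t h M 3 0 T) (hT' : St s r D t h M 3 0 T')
    (q q' : A → ℕ) (hq : q ∈ T) (hq' : q' ∈ T') (h0 : ep s r D t q = 0) (h0' : ep s r D t q' = 0)
    (hqg : q + g ≤ M) (hqg' : q' + g ≤ M) :
    Cn (St s r D t h M 3 0) T T' := by
  have hE2 : EE s r D t h 2 := EE_small s r D t h 2 le_rfl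
  have hm : 0 ≤ 3 * D t - dv s r M t := by
    have := bC5_m_nonneg s r D t h M 3 T hT
    push_cast at this
    exact this
  have hMv : ∀ v, dv s r M v = 3 * D v - (3 * D t - dv s r M t) * dl t h v := by
    intro v
    have := St_dv s r D t h hth M 3 0 T hT v
    push_cast at this
    exact this
  have hgM : g ≤ M := fun a => by
    have h1 := hqg a
    simp only [Pi.add_apply] at h1
    show g a ≤ M a
    omega
  have hLv : ∀ v, dv s r (M - g) v = 2 * D v + ((1 : ℕ) : ℤ) * dl t h v := by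
    intro v
    rw [dv_sub s r M g hgM v, hMv v, hg v, heg]
    push_cast
    ring
  -- flows of level 0 below `M - g` correspond to admissible members
  have hadm : ∀ x : A → ℕ, Fl s r D t h x → ep s r D t x = 0 → x + g ≤ M →
      Adm r s (M - g) (fun v => -D v) t h 1 0 (M - g - x) := by
    intro x hx hx0 hxg
    refine ⟨fun a => by simp only [Pi.sub_apply]; omega, 1, le_rfl, by omega, ?_⟩
    intro v
    have hxL : x ≤ M - g := fun a => by
      have := hxg a
      simp only [Pi.add_apply, Pi.sub_apply] at *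
      omega
    rw [dv_swap s r _ v, dv_sub s r (M - g) x hxL v, hLv v, hx v, hx0]
    push_cast
    ring
  have hFq := (hT.2.2 q hq).1
  have hFq' := (hT'.2.2 q' hq').1
  have hch := bC5_chain s r D t h hth hN g (M - g) 1 0 hg hLv (by rw [heg]; push_cast; linarith)
    (M - g - q) (M - g - q') (hadm q hFq h0 hqg) (hadm q' hFq' h0' hqg')
  have hback : ∀ x : A → ℕ, x + g ≤ M → M - g - (M - g - x) = x := by
    intro x hx
    funext a
    have := hx a
    simp only [Pi.add_apply, Pi.sub_apply] at *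
    omega
  -- flows from admissible members
  have hfl : ∀ y : A → ℕ, Adm r s (M - g) (fun v => -D v) t h 1 0 y →
      Fl s r D t h (M - g - y) ∧ ep s r D t (M - g - y) = 0 := by
    rintro y ⟨hyL, b, hb1, hb2, hb⟩
    have hb' : b = 1 := by omega
    subst hb'
    apply Fl_of s r D t h hth
    intro v
    have h1 := hb v
    rw [dv_swap s r y v] at h1
    rw [dv_sub s r (M - g) y hyL v, hLv v]
    push_cast at h1 ⊢
    linarith
  have key : ∀ y' : A → ℕ, Relation.ReflTransGen (fun y y' =>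
      Adm r s (M - g) (fun v => -D v) t h 1 0 y ∧
      Adm r s (M - g) (fun v => -D v) t h 1 0 y' ∧
      ∃ w : A → ℕ, Fl s r D t h w ∧ ep s r D t w = ep s r D t g - 1 ∧ w ≤ g + y ∧ w ≤ g + y')
      (M - g - q) y' → ∀ S, St s r D t h M 3 0 S → (M - g - y') ∈ S →
      Cn (St s r D t h M 3 0) T S := by
    intro y' hy'
    induction hy' with
    | refl =>
      intro S hS hqS
      rw [hback q hqg] at hqS
      exact share s r D t h 2 hE2 M T S hT hS q hq hqS
    | @tail y y' _ hyy ih =>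
      intro S hS hqS
      obtain ⟨hy, hy', w, hFw, hew, hwy, hwy'⟩ := hyy
      have mk : ∀ z : A → ℕ, Adm r s (M - g) (fun v => -D v) t h 1 0 z → w ≤ g + z →
          St s r D t h M 3 0 ((M - g - z) ::ₘ w ::ₘ {M - (M - g - z) - w}) := by
        intro z hz hwz
        obtain ⟨hF1, he1⟩ := hfl z hz
        have hzL := hz.1
        have hle1 : M - g - z ≤ M := fun a => by simp only [Pi.sub_apply]; omega
        have hle2 : w ≤ M - (M - g - z) := fun a => by
          have h1 := hwz a
          have h2 := hzL a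
          have h3 := hgM a
          simp only [Pi.add_apply, Pi.sub_apply] at *
          omega
        have h3 := Fl_of s r D t h hth (M - (M - g - z) - w) 0 (by
          intro v
          rw [dv_sub s r _ w hle2 v, dv_sub s r M _ hle1 v, hMv v, hF1 v, he1, hFw v, hew, heg]
          ring)
        refine bC5_St s r D t h M _ _ _ ?_ ⟨hF1, he1.ge⟩ ⟨hFw, by rw [hew, heg]; linarith⟩
          ⟨h3.1, h3.2.ge⟩
        funext a
        have h1 := hwz a
        have h2 := hzL a
        have h3 := hgM a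
        simp only [Pi.add_apply, Pi.sub_apply] at *
        omega
      have hS1 := mk y hy hwy
      have hS2 := mk y' hy' hwy'
      have c1 := ih _ hS1 (Multiset.mem_cons_self _ _)
      have c2 := share s r D t h 2 hE2 M _ _ hS1 hS2 w
        (Multiset.mem_cons_of_mem (Multiset.mem_cons_self _ _))
        (Multiset.mem_cons_of_mem (Multiset.mem_cons_self _ _))
      have c3 := share s r D t h 2 hE2 M _ _ hS2 hS (M - g - y')
        (Multiset.mem_cons_self _ _) hqS
      exact (c1.trans c2).trans c3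
  refine key _ hch T' hT' ?_
  rw [hback q' hqg']
  exact hq'

end sec_C5

section sec_C6

open Finset

variable {V A : Type} [Fintype V] [DecidableEq V] [Fintype A] [DecidableEq A]

/-- a chain of admissible members of `L`, consecutive ones with a common neighbour `w` of `g` -/
theorem bC6_chain (s r : A → V) (D : V → ℤ) (t h : V) (hth : t ≠ h) (hN : ND D t h)
    (g L : A → ℕ) (N j : ℕ) (hg : Fl s r D t h g)
    (hL : ∀ v, dv s r L v = 2 * D v + N * dl t h v) (hgl : (j : ℤ) + 1 ≤ ep s r D t g)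
    (x x' : A → ℕ) (hx : Adm r s L (fun v => -D v) t h N j x)
    (hx' : Adm r s L (fun v => -D v) t h N j x') :
    Relation.ReflTransGen (fun y y' => Adm r s L (fun v => -D v) t h N j y ∧
      Adm r s L (fun v => -D v) t h N j y' ∧
      ∃ w : A → ℕ, Fl s r D t h w ∧ ep s r D t w = ep s r D t g - 1 ∧ w ≤ g + y ∧ w ≤ g + y')
      x x' := by
  have hN' : ND (fun v => -D v) t h := by
    intro S hS ht hh h0
    apply hN S hS ht hh
    rw [Finset.sum_neg_distrib] at h0
    linarith
  have hch := TGc r s L (fun v => -D v) t h hth hN' N j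
    (by
      intro v
      have h1 := hL v
      rw [dv_swap s r L v, h1]
      ring)
    (fun U => t ∈ U ∧ h ∉ U ∧ xo r s g U = 0)
    (fun U hU => ⟨hU.1, hU.2.1⟩)
    (fun U U' hU hU' => ⟨Finset.mem_inter.mpr ⟨hU.1, hU'.1⟩,
      fun hh => hU.2.1 (Finset.mem_inter.mp hh).1,
      (xo_inter_union r s g U U' hU.2.2 hU'.2.2).1⟩)
    (fun U U' hU hU' => ⟨Finset.mem_union.mpr (Or.inl hU.1),
      fun hh => (Finset.mem_union.mp hh).elim hU.2.1 hU'.2.1,
      (xo_inter_union r s g U U' hU.2.2 hU'.2.2).2⟩)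
    (by
      intro U hU
      have h1 := Fl_cut s r D t h g hg U hU.1 hU.2.1
      rw [hU.2.2] at h1
      rw [Finset.sum_neg_distrib, neg_neg, h1]
      have h2 : (0 : ℤ) ≤ (xo s r g U : ℤ) := Int.natCast_nonneg _
      push_cast
      linarith)
    x x' hx hx'
  refine Relation.ReflTransGen.mono ?_ x x' hch
  rintro y y' ⟨hy, hy', hU⟩
  refine ⟨hy, hy', ?_⟩
  obtain ⟨zp, zm, hzp, hzm, hz⟩ := PLf s r (fun a => min (y a) (y' a)) g t h (by
    intro U ht hh
    by_cases hx0 : xo r s g U = 0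
    · obtain ⟨a, ha1, ha2, ha3, ha4⟩ := hU U ⟨ht, hh, hx0⟩
      exact Or.inl ⟨a, lt_min ha3 ha4, ha2, ha1⟩
    · right
      rw [xo_eq_zero_iff] at hx0
      push Not at hx0
      obtain ⟨a, ha1, ha2, ha3⟩ := hx0
      exact ⟨a, Nat.pos_of_ne_zero ha3, ha1, ha2⟩)
  obtain ⟨hw1, hw2⟩ := Fl_up s r D t h hth g zp zm hg hzm hz
  refine ⟨g - zm + zp, hw1, hw2, ?_, ?_⟩
  · intro a
    have h1 := hzp a
    simp only [Pi.add_apply, Pi.sub_apply] at *
    have h2 : min (y a) (y' a) ≤ y a := min_le_left _ _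
    omega
  · intro a
    have h1 := hzp a
    simp only [Pi.add_apply, Pi.sub_apply] at *
    have h2 : min (y a) (y' a) ≤ y' a := min_le_right _ _
    omega

/-- the total level of a nonnegative state is nonnegative -/
theorem bC6_m_nonneg (s r : A → V) (D : V → ℤ) (t h : V) (M : A → ℕ) (k : ℕ)
    (T : Multiset (A → ℕ)) (hT : St s r D t h M k 0 T) : 0 ≤ k * D t - dv s r M t := by
  rw [← sum_ep s r D t h M k 0 T hT]
  apply Multiset.sum_nonneg
  intro e he
  obtain ⟨x, hx, rfl⟩ := Multiset.mem_map.mp he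
  exact (hT.2.2 x hx).2

omit [Fintype V] [DecidableEq A] in
/-- a state with three given members -/
theorem bC6_St (s r : A → V) (D : V → ℤ) (t h : V) (M a b c : A → ℕ) (hs : a + b + c = M)
    (ha : Fl s r D t h a ∧ 0 ≤ ep s r D t a) (hb : Fl s r D t h b ∧ 0 ≤ ep s r D t b)
    (hc : Fl s r D t h c ∧ 0 ≤ ep s r D t c) :
    St s r D t h M 3 0 (a ::ₘ b ::ₘ {c}) := by
  refine ⟨by simp, ?_, ?_⟩
  · rw [Multiset.sum_cons, Multiset.sum_cons, Multiset.sum_singleton, ← hs]
    ring
  · intro x hx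
    simp only [Multiset.mem_cons, Multiset.mem_singleton] at hx
    rcases hx with rfl | rfl | rfl
    · exact ha
    · exact hb
    · exact hc

/-- C6 (S3). `g` of level `m + 2`. `TGc` for `(r, s)`, `-D`, `L = M - g`, `N = 2`, `j = 1`,
`x = L - p` (`b = 1`), same `UU`; each step gives `w` of level `m + 1` with `w + p, w + p' ≤ M`,
then `q = M - w - p`, `q' = M - w - p'` have level `0`: use S1 for `p`, S2 for `w`, S1 for `p'`
(states containing `q` by IMP on `p, w`). -/
theorem S3 (s r : A → V) (D : V → ℤ) (t h : V) (hth : t ≠ h) (hN : ND D t h) (M g : A → ℕ)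
    (hg : Fl s r D t h g) (heg : ep s r D t g = 3 * D t - dv s r M t + 2)
    (p p' : A → ℕ) (hp : Fl s r D t h p) (hep : ep s r D t p = -1)
    (hp' : Fl s r D t h p') (hep' : ep s r D t p' = -1) (hpg : p + g ≤ M) (hpg' : p' + g ≤ M)
    (T T' : Multiset (A → ℕ)) (hT : St s r D t h M 3 0 T) (hT' : St s r D t h M 3 0 T')
    (q q' : A → ℕ) (hq : q ∈ T) (hq' : q' ∈ T') (hqp : q + p ≤ M) (hqp' : q' + p' ≤ M) :
    Cn (St s r D t h M 3 0) T T' := by
  have hm : 0 ≤ 3 * D t - dv s r M t := by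
    have := bC6_m_nonneg s r D t h M 3 T hT
    push_cast at this
    exact this
  have hMv : ∀ v, dv s r M v = 3 * D v - (3 * D t - dv s r M t) * dl t h v := by
    intro v
    have := St_dv s r D t h hth M 3 0 T hT v
    push_cast at this
    exact this
  have hgM : g ≤ M := fun a => by
    have h1 := hpg a
    simp only [Pi.add_apply] at h1
    show g a ≤ M a
    omega
  have hLv : ∀ v, dv s r (M - g) v = 2 * D v + ((2 : ℕ) : ℤ) * dl t h v := by
    intro v
    rw [dv_sub s r M g hgM v, hMv v, hg v, heg]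
    push_cast
    ring
  -- flows of level -1 below `M - g` correspond to admissible members
  have hadm : ∀ x : A → ℕ, Fl s r D t h x → ep s r D t x = -1 → x + g ≤ M →
      Adm r s (M - g) (fun v => -D v) t h 2 1 (M - g - x) := by
    intro x hx hx0 hxg
    refine ⟨fun a => by simp only [Pi.sub_apply]; omega, 1, le_rfl, by omega, ?_⟩
    intro v
    have hxL : x ≤ M - g := fun a => by
      have := hxg a
      simp only [Pi.add_apply, Pi.sub_apply] at *
      omega
    rw [dv_swap s r _ v, dv_sub s r (M - g) x hxL v, hLv v, hx v, hx0]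
    push_cast
    ring
  have hch := bC6_chain s r D t h hth hN g (M - g) 2 1 hg hLv (by rw [heg]; push_cast; linarith)
    (M - g - p) (M - g - p') (hadm p hp hep hpg) (hadm p' hp' hep' hpg')
  have hback : ∀ x : A → ℕ, x + g ≤ M → M - g - (M - g - x) = x := by
    intro x hx
    funext a
    have := hx a
    simp only [Pi.add_apply, Pi.sub_apply] at *
    omega
  -- flows from admissible members
  have hfl : ∀ y : A → ℕ, Adm r s (M - g) (fun v => -D v) t h 2 1 y →
      Fl s r D t h (M - g - y) ∧ ep s r D t (M - g - y) = -1 := by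
    rintro y ⟨hyL, b, hb1, hb2, hb⟩
    have hb' : b = 1 := by omega
    subst hb'
    apply Fl_of s r D t h hth
    intro v
    have h1 := hb v
    rw [dv_swap s r y v] at h1
    rw [dv_sub s r (M - g) y hyL v, hLv v]
    push_cast at h1 ⊢
    linarith
  have key : ∀ y' : A → ℕ, Relation.ReflTransGen (fun y y' =>
      Adm r s (M - g) (fun v => -D v) t h 2 1 y ∧
      Adm r s (M - g) (fun v => -D v) t h 2 1 y' ∧
      ∃ w : A → ℕ, Fl s r D t h w ∧ ep s r D t w = ep s r D t g - 1 ∧ w ≤ g + y ∧ w ≤ g + y')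
      (M - g - p) y' → ∀ S q1, St s r D t h M 3 0 S → q1 ∈ S → q1 + (M - g - y') ≤ M →
      Cn (St s r D t h M 3 0) T S := by
    intro y' hy'
    induction hy' with
    | refl =>
      intro S q1 hS hqS hqp1
      rw [hback p hpg] at hqp1
      exact S1 s r D t h hth hN M p hp hep T S hT hS q q1 hq hqS hqp hqp1
    | @tail y y' _ hyy ih =>
      intro S q1 hS hqS hqp1
      obtain ⟨hy, hy', w, hFw, hew, hwy, hwy'⟩ := hyy
      -- the state containing `M - w - (L - z)`
      have mk : ∀ z : A → ℕ, Adm r s (M - g) (fun v => -D v) t h 2 1 z → w ≤ g + z →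
          ∃ S1' : Multiset (A → ℕ), St s r D t h M 3 0 S1' ∧ (M - (M - g - z) - w) ∈ S1' ∧
            ep s r D t (M - (M - g - z) - w) = 0 ∧
            (M - (M - g - z) - w) + w ≤ M ∧ (M - (M - g - z) - w) + (M - g - z) ≤ M := by
        intro z hz hwz
        obtain ⟨hF1, he1⟩ := hfl z hz
        have hzL := hz.1
        have hle1 : M - g - z ≤ M := fun a => by simp only [Pi.sub_apply]; omega
        have hle2 : w ≤ M - (M - g - z) := fun a => by
          have h1 := hwz a
          have h2 := hzL a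
          have h3 := hgM a
          simp only [Pi.add_apply, Pi.sub_apply] at *
          omega
        have h3 := Fl_of s r D t h hth (M - (M - g - z) - w) 0 (by
          intro v
          rw [dv_sub s r _ w hle2 v, dv_sub s r M _ hle1 v, hMv v, hF1 v, he1, hFw v, hew, heg]
          ring)
        obtain ⟨x1, y1, hx1, hy1, hxy, hex, hey⟩ := IMP s r D t h hth (M - g - z) w hF1 hFw
          (by rw [he1, hew, heg]; linarith)
        refine ⟨(M - (M - g - z) - w) ::ₘ x1 ::ₘ {y1}, bC6_St s r D t h M _ _ _ ?_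
          ⟨h3.1, h3.2.ge⟩ ⟨hx1, by rw [hex, he1]; norm_num⟩
          ⟨hy1, by rw [hey, hew, heg]; linarith⟩, Multiset.mem_cons_self _ _, h3.2, ?_, ?_⟩
        · rw [add_assoc, ← hxy]
          funext a
          have h1 := hwz a
          have h2 := hzL a
          have h3 := hgM a
          simp only [Pi.add_apply, Pi.sub_apply] at *
          omega
        · intro a
          have h1 := hwz a
          have h2 := hzL a
          have h3 := hgM a
          simp only [Pi.add_apply, Pi.sub_apply] at *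
          omega
        · intro a
          have h1 := hwz a
          have h2 := hzL a
          have h3 := hgM a
          simp only [Pi.add_apply, Pi.sub_apply] at *
          omega
      obtain ⟨S1', hS1, hm1, hz1, hw1, hp1⟩ := mk y hy hwy
      obtain ⟨S2', hS2, hm2, hz2, hw2, hp2⟩ := mk y' hy' hwy'
      have c1 := ih S1' _ hS1 hm1 hp1
      have c2 := S2 s r D t h hth hN M w hFw (by rw [hew, heg]; ring) S1' S2' hS1 hS2
        _ _ hm1 hm2 hz1 hz2 hw1 hw2
      obtain ⟨hF2, he2⟩ := hfl y' hy'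
      have c3 := S1 s r D t h hth hN M (M - g - y') hF2 he2 S2' S hS2 hS _ q1 hm2 hqS hp2 hqp1
      exact (c1.trans c2).trans c3
  refine key _ hch T' q' hT' hq' ?_
  rw [hback p' hpg']
  exact hqp'

end sec_C6

section sec_C7

open Finset

variable {V A : Type} [Fintype V] [DecidableEq V] [Fintype A] [DecidableEq A]

/-- the class attached to a state with a negative member -/
def bC7_N (s r : A → V) (D : V → ℤ) (t h : V) (M : A → ℕ) (X T : Multiset (A → ℕ)) : Prop :=
  St s r D t h M 3 0 T ∧ ∃ p ∈ X, ep s r D t p = -1 ∧ ∃ q ∈ T, q + p ≤ M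

theorem bC7_share (s r : A → V) (D : V → ℤ) (t h : V) (M : A → ℕ) (T T' : Multiset (A → ℕ))
    (hT : St s r D t h M 3 0 T) (hT' : St s r D t h M 3 0 T') (q : A → ℕ) (hq : q ∈ T)
    (hq' : q ∈ T') : Cn (St s r D t h M 3 0) T T' :=
  share s r D t h 2 (EE_small s r D t h 2 le_rfl) M T T' hT hT' q hq hq'

/-- the members of a state containing `p, q` (in this order) -/
theorem bC7_three {s r : A → V} {D : V → ℤ} {t h : V} {M : A → ℕ} {j : ℤ}
    {X : Multiset (A → ℕ)} (hX : St s r D t h M 3 j X) {p : A → ℕ} (hp : p ∈ X) :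
    ∃ y z : A → ℕ, X = p ::ₘ y ::ₘ {z} ∧ p + y + z = M ∧
      ep s r D t p + ep s r D t y + ep s r D t z = 3 * D t - dv s r M t ∧
      (Fl s r D t h y ∧ j ≤ ep s r D t y) ∧ (Fl s r D t h z ∧ j ≤ ep s r D t z) := by
  obtain ⟨R, hR⟩ := Multiset.exists_cons_of_mem hp
  have hc := hX.1
  rw [hR, Multiset.card_cons] at hc
  obtain ⟨y, z, hyz⟩ := Multiset.card_eq_two.1 (by omega : Multiset.card R = 2)
  have hXe : X = p ::ₘ y ::ₘ {z} := by rw [hR, hyz]; rfl
  refine ⟨y, z, hXe, ?_, ?_, ?_, ?_⟩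
  · have h1 := hX.2.1
    rw [hXe, Multiset.sum_cons, Multiset.sum_cons, Multiset.sum_singleton, ← add_assoc] at h1
    exact h1
  · have h1 := sum_ep s r D t h M 3 j X hX
    rw [hXe, Multiset.map_cons, Multiset.map_cons, Multiset.map_singleton, Multiset.sum_cons,
      Multiset.sum_cons, Multiset.sum_singleton] at h1
    push_cast at h1
    linarith
  · refine hX.2.2 y ?_
    rw [hXe]; simp
  · refine hX.2.2 z ?_
    rw [hXe]; simp

theorem bC7_three' {s r : A → V} {D : V → ℤ} {t h : V} {M : A → ℕ} {j : ℤ}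
    {X : Multiset (A → ℕ)} (hX : St s r D t h M 3 j X) {p g : A → ℕ} (hp : p ∈ X) (hg : g ∈ X)
    (hpg : p ≠ g) :
    ∃ z : A → ℕ, X = p ::ₘ g ::ₘ {z} ∧ p + g + z = M ∧
      ep s r D t p + ep s r D t g + ep s r D t z = 3 * D t - dv s r M t ∧
      (Fl s r D t h g ∧ j ≤ ep s r D t g) ∧ (Fl s r D t h z ∧ j ≤ ep s r D t z) := by
  obtain ⟨y, z, hXe, h1, h2, h3, h4⟩ := bC7_three hX hp
  have hg' : g = y ∨ g = z := by
    rw [hXe, Multiset.mem_cons, Multiset.mem_cons, Multiset.mem_singleton] at hg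
    rcases hg with hg | hg | hg
    · exact absurd hg.symm hpg
    · exact Or.inl hg
    · exact Or.inr hg
  rcases hg' with rfl | rfl
  · exact ⟨z, hXe, h1, h2, h3, h4⟩
  · refine ⟨y, ?_, ?_, ?_, h4, h3⟩
    · rw [hXe]
      congr 1
      exact Multiset.pair_comm y g
    · rw [← h1]; ring
    · linarith

/-- a state from three flows -/
theorem bC7_mk {s r : A → V} {D : V → ℤ} {t h : V} {M : A → ℕ} {x y z : A → ℕ}
    (hs : x + y + z = M) (hx : Fl s r D t h x ∧ 0 ≤ ep s r D t x)
    (hy : Fl s r D t h y ∧ 0 ≤ ep s r D t y) (hz : Fl s r D t h z ∧ 0 ≤ ep s r D t z) :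
    St s r D t h M 3 0 (x ::ₘ y ::ₘ {z}) := by
  refine ⟨by simp, ?_, ?_⟩
  · rw [Multiset.sum_cons, Multiset.sum_cons, Multiset.sum_singleton, ← add_assoc, hs]
  · intro w hw
    rw [Multiset.mem_cons, Multiset.mem_cons, Multiset.mem_singleton] at hw
    rcases hw with rfl | rfl | rfl
    · exact hx
    · exact hy
    · exact hz

/-- the class of a negative member exists -/
theorem bC7_ex {s r : A → V} {D : V → ℤ} {t h : V} (hth : t ≠ h) {M : A → ℕ}
    (hm : 0 ≤ 3 * D t - dv s r M t) {X : Multiset (A → ℕ)} (hX : St s r D t h M 3 (-1) X)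
    {p : A → ℕ} (hp : p ∈ X) (hep : ep s r D t p = -1) :
    ∃ T, St s r D t h M 3 0 T ∧ ∃ q ∈ T, q + p ≤ M := by
  obtain ⟨y, z, hXe, hs, he, hy, hz⟩ := bC7_three hX hp
  have hpF : Fl s r D t h p := (hX.2.2 p hp).1
  -- the case of a positive `y` and `z ≥ 0`
  have aux : ∀ y z : A → ℕ, p + y + z = M → (Fl s r D t h y ∧ -1 ≤ ep s r D t y) →
      (Fl s r D t h z ∧ -1 ≤ ep s r D t z) → 1 ≤ ep s r D t y → 0 ≤ ep s r D t z →
      ∃ T, St s r D t h M 3 0 T ∧ ∃ q ∈ T, q + p ≤ M := by
    intro y z hs hy hz hy1 hz0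
    obtain ⟨w, y', hw, hy', hxy, he1, he2⟩ := IMP s r D t h hth p y hpF hy.1 (by omega)
    refine ⟨w ::ₘ y' ::ₘ {z}, bC7_mk ?_ ⟨hw, by omega⟩ ⟨hy', by omega⟩ ⟨hz.1, hz0⟩, z, by simp, ?_⟩
    · rw [← hxy]; exact hs
    · rw [← hs]
      intro a
      simp only [Pi.add_apply]
      omega
  -- the case `z = -1`
  have aux2 : ∀ y z : A → ℕ, p + y + z = M → (Fl s r D t h y ∧ -1 ≤ ep s r D t y) →
      (Fl s r D t h z ∧ -1 ≤ ep s r D t z) → ep s r D t z = -1 → 2 ≤ ep s r D t y →
      ∃ T, St s r D t h M 3 0 T ∧ ∃ q ∈ T, q + p ≤ M := by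
    intro y z hs hy hz hz1 hy2
    obtain ⟨w, y', hw, hy', hxy, he1, he2⟩ := IMP s r D t h hth z y hz.1 hy.1 (by omega)
    obtain ⟨w2, y2, hw2, hy2', hxy2, he3, he4⟩ := IMP s r D t h hth p y' hpF hy' (by omega)
    have hsum : p + y' + w = M := by
      rw [← hs]
      funext a
      have h1 := congrFun hxy a
      simp only [Pi.add_apply] at h1 ⊢
      omega
    refine ⟨w2 ::ₘ y2 ::ₘ {w}, bC7_mk ?_ ⟨hw2, by omega⟩ ⟨hy2', by omega⟩ ⟨hw, by omega⟩, w,
      by simp, ?_⟩
    · rw [← hxy2]; exact hsum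
    · rw [← hsum]
      intro a
      simp only [Pi.add_apply]
      omega
  have hs' : p + z + y = M := by rw [← hs]; ring
  rcases lt_or_ge (ep s r D t z) 0 with hz0 | hz0
  · exact aux2 y z hs hy hz (by omega) (by omega)
  rcases lt_or_ge (ep s r D t y) 0 with hy0 | hy0
  · exact aux2 z y hs' hz hy (by omega) (by omega)
  rcases lt_or_ge (ep s r D t y) 1 with hy1 | hy1
  · exact aux z y hs' hz hy (by omega) hy0
  · exact aux y z hs hy hz hy1 hz0

/-- the class of a state with a negative member is well defined -/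
theorem bC7_same {s r : A → V} {D : V → ℤ} {t h : V} (hth : t ≠ h) (hN : ND D t h) {M : A → ℕ}
    {X T T' : Multiset (A → ℕ)} (hX : St s r D t h M 3 (-1) X)
    (hT : bC7_N s r D t h M X T) (hT' : bC7_N s r D t h M X T') :
    Cn (St s r D t h M 3 0) T T' := by
  obtain ⟨hS, p, hp, hep, q, hq, hqp⟩ := hT
  obtain ⟨hS', p', hp', hep', q', hq', hqp'⟩ := hT'
  have hpF : Fl s r D t h p := (hX.2.2 p hp).1
  have hpF' : Fl s r D t h p' := (hX.2.2 p' hp').1
  by_cases hpp : p = p'
  · subst hpp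
    exact S1 s r D t h hth hN M p hpF hep T T' hS hS' q q' hq hq' hqp hqp'
  · obtain ⟨z, hXe, hs, he, hy, hz⟩ := bC7_three' hX hp hp' hpp
    refine S3 s r D t h hth hN M z hz.1 (by omega) p p' hpF hep hpF' hep' ?_ ?_ T T' hS hS' q q'
      hq hq' hqp hqp'
    · rw [← hs]
      intro a
      simp only [Pi.add_apply]
      omega
    · rw [← hs]
      intro a
      simp only [Pi.add_apply]
      omega

/-- the class of a state contains each member of level between `0` and `m` -/
theorem bC7_mem {s r : A → V} {D : V → ℤ} {t h : V} (hth : t ≠ h) (hN : ND D t h) {M : A → ℕ}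
    {X T : Multiset (A → ℕ)} (hX : St s r D t h M 3 (-1) X)
    (hT : bC7_N s r D t h M X T) {g : A → ℕ} (hg : g ∈ X) (h0 : 0 ≤ ep s r D t g)
    (hm : ep s r D t g ≤ 3 * D t - dv s r M t) :
    ∃ T1, St s r D t h M 3 0 T1 ∧ g ∈ T1 ∧ Cn (St s r D t h M 3 0) T T1 := by
  obtain ⟨hS, p, hp, hep, q, hq, hqp⟩ := hT
  have hpF : Fl s r D t h p := (hX.2.2 p hp).1
  have hpg : p ≠ g := by
    rintro rfl
    omega
  obtain ⟨z, hXe, hs, he, hy, hz⟩ := bC7_three' hX hp hg hpg
  obtain ⟨w, z', hw, hz', hxz, he1, he2⟩ := IMP s r D t h hth p z hpF hz.1 (by omega)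
  have hst : St s r D t h M 3 0 (g ::ₘ w ::ₘ {z'}) := by
    refine bC7_mk ?_ ⟨hy.1, h0⟩ ⟨hw, by omega⟩ ⟨hz', by omega⟩
    rw [← hs]
    funext a
    have h1 := congrFun hxz a
    simp only [Pi.add_apply] at h1 ⊢
    omega
  refine ⟨_, hst, by simp, ?_⟩
  refine bC7_same hth hN hX ⟨hS, p, hp, hep, q, hq, hqp⟩ ⟨hst, p, hp, hep, g, by simp, ?_⟩
  rw [← hs]
  intro a
  simp only [Pi.add_apply]
  omega

/-- one step -/
theorem bC7_step {s r : A → V} {D : V → ℤ} {t h : V} (hth : t ≠ h) (hN : ND D t h) {M : A → ℕ}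
    (hm : 0 ≤ 3 * D t - dv s r M t) {X Y T T' : Multiset (A → ℕ)}
    (hX : St s r D t h M 3 (-1) X) (hY : St s r D t h M 3 (-1) Y) (hT : St s r D t h M 3 0 T)
    (hT' : St s r D t h M 3 0 T') (hXT : X = T ∨ bC7_N s r D t h M X T)
    (hYT : Y = T' ∨ bC7_N s r D t h M Y T') {g : A → ℕ} (hgX : g ∈ X) (hgY : g ∈ Y) :
    Cn (St s r D t h M 3 0) T T' := by
  have hgF : Fl s r D t h g := (hX.2.2 g hgX).1
  have hg1 : -1 ≤ ep s r D t g := (hX.2.2 g hgX).2
  -- states of nonnegative levels have members of levels between `0` and `m`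
  have hmid : ∀ T, St s r D t h M 3 0 T → g ∈ T →
      0 ≤ ep s r D t g ∧ ep s r D t g ≤ 3 * D t - dv s r M t := by
    intro T hT hg
    obtain ⟨y, z, _, _, he, hy, hz⟩ := bC7_three hT hg
    have := (hT.2.2 g hg).2
    omega
  by_cases hcase : 0 ≤ ep s r D t g ∧ ep s r D t g ≤ 3 * D t - dv s r M t
  · -- both classes contain `g`
    have h1 : ∃ T1, St s r D t h M 3 0 T1 ∧ g ∈ T1 ∧ Cn (St s r D t h M 3 0) T T1 := by
      rcases hXT with h | h
      · exact ⟨T, hT, h ▸ hgX, Relation.ReflTransGen.refl⟩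
      · exact bC7_mem hth hN hX h hgX hcase.1 hcase.2
    have h2 : ∃ T1, St s r D t h M 3 0 T1 ∧ g ∈ T1 ∧ Cn (St s r D t h M 3 0) T' T1 := by
      rcases hYT with h | h
      · exact ⟨T', hT', h ▸ hgY, Relation.ReflTransGen.refl⟩
      · exact bC7_mem hth hN hY h hgY hcase.1 hcase.2
    obtain ⟨T1, hT1, hg1', hc1⟩ := h1
    obtain ⟨T2, hT2, hg2', hc2⟩ := h2
    exact (hc1.trans (bC7_share s r D t h M T1 T2 hT1 hT2 g hg1' hg2')).trans
      (Cn_symm _ _ _ hc2)
  · -- now both are of negative type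
    have hNX : bC7_N s r D t h M X T := by
      rcases hXT with h | h
      · exact absurd (hmid T hT (h ▸ hgX)) hcase
      · exact h
    have hNY : bC7_N s r D t h M Y T' := by
      rcases hYT with h | h
      · exact absurd (hmid T' hT' (h ▸ hgY)) hcase
      · exact h
    rcases lt_or_ge (ep s r D t g) 0 with hneg | hpos
    · -- `g` negative
      have heg : ep s r D t g = -1 := by omega
      obtain ⟨T1, hT1, q1, hq1, hq1g⟩ := bC7_ex hth hm hX hgX heg
      exact (bC7_same hth hN hX hNX ⟨hT1, g, hgX, heg, q1, hq1, hq1g⟩).trans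
        (bC7_same hth hN hY ⟨hT1, g, hgY, heg, q1, hq1, hq1g⟩ hNY)
    · have hbig : 3 * D t - dv s r M t < ep s r D t g := by
        by_contra hcon
        exact hcase ⟨hpos, by omega⟩
      have hNX' := hNX
      have hNY' := hNY
      obtain ⟨_, p, hp, hep, q, hq, hqp⟩ := hNX'
      obtain ⟨_, p', hp', hep', q', hq', hqp'⟩ := hNY'
      have hpF : Fl s r D t h p := (hX.2.2 p hp).1
      have hpF' : Fl s r D t h p' := (hY.2.2 p' hp').1
      have hpg : p ≠ g := by rintro rfl; omega
      have hpg' : p' ≠ g := by rintro rfl; omega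
      obtain ⟨z, hXe, hs, he, hy, hz⟩ := bC7_three' hX hp hgX hpg
      obtain ⟨z', hYe, hs', he', hy', hz'⟩ := bC7_three' hY hp' hgY hpg'
      have hpgM : p + g ≤ M := by
        rw [← hs]; exact le_self_add
      have hpgM' : p' + g ≤ M := by
        rw [← hs']; exact le_self_add
      rcases eq_or_lt_of_le (show 3 * D t - dv s r M t + 1 ≤ ep s r D t g by omega) with hm1 | hm1
      · -- level `m + 1`
        have hz0 : ep s r D t z = 0 := by omega
        have hz0' : ep s r D t z' = 0 := by omega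
        have hzX : z ∈ X := by rw [hXe]; simp
        have hzY : z' ∈ Y := by rw [hYe]; simp
        obtain ⟨T1, hT1, hz1, hc1⟩ := bC7_mem hth hN hX hNX hzX (by omega) (by omega)
        obtain ⟨T2, hT2, hz2, hc2⟩ := bC7_mem hth hN hY hNY hzY (by omega) (by omega)
        have hzg : z + g ≤ M := by
          rw [← hs]
          intro a
          simp only [Pi.add_apply]
          omega
        have hzg' : z' + g ≤ M := by
          rw [← hs']
          intro a
          simp only [Pi.add_apply]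
          omega
        have hc := S2 s r D t h hth hN M g hgF (by omega) T1 T2 hT1 hT2 z z' hz1 hz2 hz0 hz0'
          hzg hzg'
        exact (hc1.trans hc).trans (Cn_symm _ _ _ hc2)
      · -- level `m + 2`
        exact S3 s r D t h hth hN M g hgF (by omega) p p' hpF hep hpF' hep' hpgM hpgM' T T' hT hT'
          q q' hq hq' hqp hqp'

/-- C7. `HC` for `k = 3`. -/
theorem HC_three (s r : A → V) (D : V → ℤ) (t h : V) (hth : t ≠ h) (hN : ND D t h) :
    HC s r D t h 3 := by
  intro M T T' hT hT' hc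
  have hm : 0 ≤ 3 * D t - dv s r M t := by
    have h1 := sum_ep s r D t h M 3 0 T hT
    have h2 : 0 ≤ (T.map fun x => ep s r D t x).sum := by
      apply Multiset.sum_nonneg
      intro x hx
      rw [Multiset.mem_map] at hx
      obtain ⟨y, hy, rfl⟩ := hx
      exact (hT.2.2 y hy).2
    push_cast at h1
    omega
  have hup : ∀ T, St s r D t h M 3 0 T → St s r D t h M 3 (-1) T := fun T hT =>
    ⟨hT.1, hT.2.1, fun x hx => ⟨(hT.2.2 x hx).1, by have := (hT.2.2 x hx).2; omega⟩⟩
  -- every state has a class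
  have hex : ∀ X, St s r D t h M 3 (-1) X → ∃ T, St s r D t h M 3 0 T ∧
      (X = T ∨ bC7_N s r D t h M X T) := by
    intro X hX
    by_cases hneg : ∃ p ∈ X, ep s r D t p = -1
    · obtain ⟨p, hp, hep⟩ := hneg
      obtain ⟨T, hT, q, hq, hqp⟩ := bC7_ex hth hm hX hp hep
      exact ⟨T, hT, Or.inr ⟨hT, p, hp, hep, q, hq, hqp⟩⟩
    · push Not at hneg
      refine ⟨X, ⟨hX.1, hX.2.1, fun x hx => ⟨(hX.2.2 x hx).1, ?_⟩⟩, Or.inl rfl⟩
      have h1 := (hX.2.2 x hx).2
      have h2 := hneg x hx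
      omega
  have key : ∀ Y, Cn (St s r D t h M 3 (-1)) T Y → St s r D t h M 3 (-1) Y ∧
      ∀ T', St s r D t h M 3 0 T' → (Y = T' ∨ bC7_N s r D t h M Y T') →
        Cn (St s r D t h M 3 0) T T' := by
    intro Y hc
    induction hc with
    | refl =>
      refine ⟨hup T hT, fun T' hT' hYT => ?_⟩
      have hpos : 0 < Multiset.card T := by rw [hT.1]; norm_num
      obtain ⟨g, hg⟩ := Multiset.card_pos_iff_exists_mem.1 hpos
      exact bC7_step hth hN hm (hup T hT) (hup T hT) hT hT' (Or.inl rfl) hYT hg hg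
    | tail _ hstep ih =>
      obtain ⟨hG, hG', x, y, x', y', R, hXe, hYe, _⟩ := hstep
      refine ⟨hG', fun T' hT' hYT => ?_⟩
      obtain ⟨T1, hT1, hXT⟩ := hex _ hG
      have h1 := ih.2 T1 hT1 hXT
      have hc := hG.1
      rw [hXe, Multiset.card_cons, Multiset.card_cons] at hc
      have hpos : 0 < Multiset.card R := by omega
      obtain ⟨g, hg⟩ := Multiset.card_pos_iff_exists_mem.1 hpos
      refine h1.trans (bC7_step hth hN hm hG hG' hT1 hT' hXT hYT (g := g) ?_ ?_)
      · rw [hXe]; exact Multiset.mem_cons_of_mem (Multiset.mem_cons_of_mem hg)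
      · rw [hYe]; exact Multiset.mem_cons_of_mem (Multiset.mem_cons_of_mem hg)
  exact (key T' hc).2 T' hT' (Or.inl rfl)

end sec_C7

end Pool.Agent.T16
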