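import Pool.Agent.Lib_helper37.T16.Flow
import Pool.Agent.Lib_helper99.Bog.Alg

/-!
# T16: four and more flows, induction, toric ideals
-/

set_option autoImplicit false
set_option linter.unusedSectionVars false
set_option linter.unusedVariables false

namespace Pool.Agent.T16

section sec_D1

open Finset

variable {V A : Type} [Fintype V] [DecidableEq V] [Fintype A] [DecidableEq A]

theorem d1_total (s r : A → V) (D : V → ℤ) (t : V) (R : Multiset (A → ℕ)) :
    (R.map fun x => ep s r D t x).sum = (Multiset.card R : ℤ) * D t - dv s r R.sum t := by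
  induction R using Multiset.induction_on with
  | empty => simp [dv_zero]
  | cons a R ih =>
    rw [Multiset.map_cons, Multiset.sum_cons, ih, Multiset.sum_cons, dv_add, Multiset.card_cons]
    push_cast
    unfold ep
    ring

theorem d1_aux (s r : A → V) (D : V → ℤ) (t h : V) (hth : t ≠ h) (n : ℕ) :
    ∀ R : Multiset (A → ℕ), (∀ x ∈ R, Fl s r D t h x) →
      (R.map fun x => (ep s r D t x) ^ 2).sum < (n : ℤ) →
    ∃ R' : Multiset (A → ℕ), Multiset.card R' = Multiset.card R ∧ R'.sum = R.sum ∧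
      (∀ x ∈ R', Fl s r D t h x) ∧ ∀ x ∈ R', ∀ y ∈ R', ep s r D t x ≤ ep s r D t y + 1 := by
  induction n with
  | zero =>
    intro R _ hs
    exfalso
    have h0 : 0 ≤ (R.map fun x => (ep s r D t x) ^ 2).sum := by
      apply Multiset.sum_nonneg
      intro z hz
      obtain ⟨x, _, rfl⟩ := Multiset.mem_map.1 hz
      positivity
    have h1 : (R.map fun x => (ep s r D t x) ^ 2).sum < 0 := by simpa using hs
    omega
  | succ n ih =>
    intro R hR hs
    by_cases hb : ∀ x ∈ R, ∀ y ∈ R, ep s r D t x ≤ ep s r D t y + 1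
    · exact ⟨R, rfl, rfl, hR, hb⟩
    · push Not at hb
      obtain ⟨x, hx, y, hy, hxy⟩ := hb
      have hne : y ≠ x := by
        rintro rfl
        omega
      obtain ⟨R1, rfl⟩ := Multiset.exists_cons_of_mem hx
      have hy' : y ∈ R1 := (Multiset.mem_cons.1 hy).resolve_left hne
      obtain ⟨R2, rfl⟩ := Multiset.exists_cons_of_mem hy'
      obtain ⟨y', x', hFy, hFx, hsum, hey, hex⟩ :=
        IMP s r D t h hth y x (hR y hy) (hR x hx) (by omega)
      have hF : ∀ z ∈ y' ::ₘ x' ::ₘ R2, Fl s r D t h z := by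
        intro z hz
        rw [Multiset.mem_cons, Multiset.mem_cons] at hz
        rcases hz with rfl | rfl | hz
        · exact hFy
        · exact hFx
        · exact hR z (Multiset.mem_cons_of_mem (Multiset.mem_cons_of_mem hz))
      have hsq : ((y' ::ₘ x' ::ₘ R2).map fun x => (ep s r D t x) ^ 2).sum < (n : ℤ) := by
        simp only [Multiset.map_cons, Multiset.sum_cons] at hs ⊢
        rw [hey, hex]
        push_cast at hs
        nlinarith
      obtain ⟨R', hc, hS, hFl, hbal⟩ := ih _ hF hsq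
      refine ⟨R', ?_, ?_, hFl, hbal⟩
      · rw [hc]
        simp
      · rw [hS]
        simp only [Multiset.sum_cons]
        rw [← add_assoc, ← add_assoc, ← hsum, add_comm y x]

/-- D1. balancing by IMP (minimize the sum of the squares of the levels) -/
theorem balance (s r : A → V) (D : V → ℤ) (t h : V) (hth : t ≠ h) (R : Multiset (A → ℕ))
    (hR : ∀ x ∈ R, Fl s r D t h x) :
    ∃ R' : Multiset (A → ℕ), Multiset.card R' = Multiset.card R ∧ R'.sum = R.sum ∧
      (∀ x ∈ R', Fl s r D t h x) ∧ ∀ x ∈ R', ∀ y ∈ R', ep s r D t x ≤ ep s r D t y + 1 := by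
  refine d1_aux s r D t h hth
    ((R.map fun x => (ep s r D t x) ^ 2).sum + 1).toNat R hR ?_
  have := Int.self_le_toNat ((R.map fun x => (ep s r D t x) ^ 2).sum + 1)
  omega

theorem d1_bal_nonneg (s r : A → V) (D : V → ℤ) (t h : V) (hth : t ≠ h) (R : Multiset (A → ℕ))
    (hR : ∀ x ∈ R, Fl s r D t h x) (h0 : 0 ≤ (R.map fun x => ep s r D t x).sum) :
    ∃ R' : Multiset (A → ℕ), Multiset.card R' = Multiset.card R ∧ R'.sum = R.sum ∧
      (∀ x ∈ R', Fl s r D t h x ∧ 0 ≤ ep s r D t x) ∧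
      (∀ x ∈ R', ∀ y ∈ R', ep s r D t x ≤ ep s r D t y + 1) ∧
      (R'.map fun x => ep s r D t x).sum = (R.map fun x => ep s r D t x).sum := by
  obtain ⟨R', hc, hS, hFl, hbal⟩ := balance s r D t h hth R hR
  have htot : (R'.map fun x => ep s r D t x).sum = (R.map fun x => ep s r D t x).sum := by
    rw [d1_total, d1_total, hc, hS]
  refine ⟨R', hc, hS, fun x hx => ⟨hFl x hx, ?_⟩, hbal, htot⟩
  by_contra hneg
  push Not at hneg
  obtain ⟨R1, rfl⟩ := Multiset.exists_cons_of_mem hx
  have h1 : (R1.map fun x => ep s r D t x).sum ≤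
      Multiset.card (R1.map fun x => ep s r D t x) • (0 : ℤ) := by
    apply Multiset.sum_le_card_nsmul
    intro z hz
    obtain ⟨y, hy, rfl⟩ := Multiset.mem_map.1 hz
    have := hbal y (Multiset.mem_cons_of_mem hy) x hx
    omega
  rw [smul_zero] at h1
  rw [Multiset.map_cons, Multiset.sum_cons] at htot
  omega

/-- D2. total level `≥ 0`: all levels `≥ 0` after rebalancing -/
theorem dec_nonneg (s r : A → V) (D : V → ℤ) (t h : V) (hth : t ≠ h) (R : Multiset (A → ℕ))
    (hR : ∀ x ∈ R, Fl s r D t h x) (h0 : 0 ≤ (R.map fun x => ep s r D t x).sum) :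
    ∃ R' : Multiset (A → ℕ), Multiset.card R' = Multiset.card R ∧ R'.sum = R.sum ∧
      ∀ x ∈ R', Fl s r D t h x ∧ 0 ≤ ep s r D t x := by
  obtain ⟨R', hc, hS, hF, _, _⟩ := d1_bal_nonneg s r D t h hth R hR h0
  exact ⟨R', hc, hS, hF⟩

/-- D3. total level `≥ 2`, at least two members: two positive members after rebalancing -/
theorem dec_two_pos (s r : A → V) (D : V → ℤ) (t h : V) (hth : t ≠ h) (R : Multiset (A → ℕ))
    (hR : ∀ x ∈ R, Fl s r D t h x) (h0 : 2 ≤ (R.map fun x => ep s r D t x).sum)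
    (hc : 2 ≤ Multiset.card R) :
    ∃ (a b : A → ℕ) (R' : Multiset (A → ℕ)), Multiset.card R' + 2 = Multiset.card R ∧
      (a ::ₘ b ::ₘ R').sum = R.sum ∧ (∀ x ∈ a ::ₘ b ::ₘ R', Fl s r D t h x ∧ 0 ≤ ep s r D t x) ∧
      1 ≤ ep s r D t a ∧ 1 ≤ ep s r D t b := by
  obtain ⟨R0, hc0, hS0, hF0, hbal, htot⟩ := d1_bal_nonneg s r D t h hth R hR (by omega)
  have ha : ∃ a ∈ R0, 1 ≤ ep s r D t a := by
    by_contra hno
    push Not at hno
    have h1 : (R0.map fun x => ep s r D t x).sum ≤
        Multiset.card (R0.map fun x => ep s r D t x) • (0 : ℤ) := by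
      apply Multiset.sum_le_card_nsmul
      intro z hz
      obtain ⟨y, hy, rfl⟩ := Multiset.mem_map.1 hz
      have := hno y hy
      omega
    rw [smul_zero] at h1
    omega
  obtain ⟨a, ha, ha1⟩ := ha
  obtain ⟨R1, rfl⟩ := Multiset.exists_cons_of_mem ha
  rw [Multiset.card_cons] at hc0
  have hb : ∃ b ∈ R1, 1 ≤ ep s r D t b := by
    by_contra hno
    push Not at hno
    have h1 : (R1.map fun x => ep s r D t x).sum ≤
        Multiset.card (R1.map fun x => ep s r D t x) • (0 : ℤ) := by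
      apply Multiset.sum_le_card_nsmul
      intro z hz
      obtain ⟨y, hy, rfl⟩ := Multiset.mem_map.1 hz
      have := hno y hy
      omega
    rw [smul_zero] at h1
    rw [Multiset.map_cons, Multiset.sum_cons] at htot
    obtain ⟨b, hb⟩ := Multiset.card_pos_iff_exists_mem.1 (show 0 < Multiset.card R1 by omega)
    have h2 := hbal a ha b (Multiset.mem_cons_of_mem hb)
    have h3 := hno b hb
    omega
  obtain ⟨b, hb, hb1⟩ := hb
  obtain ⟨R2, rfl⟩ := Multiset.exists_cons_of_mem hb
  rw [Multiset.card_cons] at hc0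
  exact ⟨a, b, R2, by omega, hS0, hF0, ha1, hb1⟩

end sec_D1

section sec_D4

open Finset

variable {V A : Type} [Fintype V] [DecidableEq V] [Fintype A] [DecidableEq A]

/-- `T` improves the state `S` of `M - p` -/
def bD4_B (s r : A → V) (D : V → ℤ) (t h : V) (M : A → ℕ) (k : ℕ) (p : A → ℕ)
    (S T : Multiset (A → ℕ)) : Prop :=
  St s r D t h M k 0 T ∧ ∃ w b' b R, T = w ::ₘ b' ::ₘ R ∧ w + b' = p + b ∧ S = b ::ₘ R

/-- improvements of the same state share a member -/
theorem bD4_same (s r : A → V) (D : V → ℤ) (t h : V) (k : ℕ) (hk : 3 ≤ k)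
    (hE : EE s r D t h k) (M p : A → ℕ) (S T T' : Multiset (A → ℕ))
    (hT : bD4_B s r D t h M (k + 1) p S T) (hT' : bD4_B s r D t h M (k + 1) p S T') :
    Cn (St s r D t h M (k + 1) 0) T T' := by
  obtain ⟨hS, w, b', b, R, hTe, _, hSe⟩ := hT
  obtain ⟨hS', w2, b2', b2, R2, hTe', _, hSe'⟩ := hT'
  have hcR : Multiset.card R + 1 = k := by
    have h1 := hS.1
    rw [hTe, Multiset.card_cons, Multiset.card_cons] at h1
    omega
  rw [hSe] at hSe'
  have key : ∃ c, c ∈ R ∧ c ∈ R2 := by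
    rcases Multiset.cons_eq_cons.1 hSe' with ⟨_, h2⟩ | ⟨_, R0, h2, h3⟩
    · have hpos : 0 < Multiset.card R := by omega
      obtain ⟨c, hc⟩ := Multiset.card_pos_iff_exists_mem.1 hpos
      exact ⟨c, hc, h2 ▸ hc⟩
    · have hpos : 0 < Multiset.card R0 := by
        rw [h2, Multiset.card_cons] at hcR
        omega
      obtain ⟨c, hc⟩ := Multiset.card_pos_iff_exists_mem.1 hpos
      exact ⟨c, h2 ▸ Multiset.mem_cons_of_mem hc, h3 ▸ Multiset.mem_cons_of_mem hc⟩
  obtain ⟨c, hc, hc'⟩ := key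
  refine share s r D t h k hE M T T' hS hS' c ?_ ?_
  · rw [hTe]; exact Multiset.mem_cons_of_mem (Multiset.mem_cons_of_mem hc)
  · rw [hTe']; exact Multiset.mem_cons_of_mem (Multiset.mem_cons_of_mem hc')

/-- improving a positive member -/
theorem bD4_imp (s r : A → V) (D : V → ℤ) (t h : V) (hth : t ≠ h) (M p : A → ℕ)
    (hp : Fl s r D t h p) (hep : ep s r D t p = -1) (g : A → ℕ) (hg : Fl s r D t h g)
    (h1 : 1 ≤ ep s r D t g) :
    ∃ w g' : A → ℕ, w + g' = p + g ∧ (Fl s r D t h w ∧ 0 ≤ ep s r D t w) ∧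
      (Fl s r D t h g' ∧ 0 ≤ ep s r D t g') := by
  obtain ⟨x', y', hx', hy', hxy, he, he'⟩ := IMP s r D t h hth p g hp hg (by omega)
  exact ⟨x', y', hxy.symm, ⟨hx', by omega⟩, ⟨hy', by omega⟩⟩

/-- an improvement from a positive member -/
theorem bD4_mk (s r : A → V) (D : V → ℤ) (t h : V) (k : ℕ) (M p : A → ℕ)
    (g w g' : A → ℕ) (R : Multiset (A → ℕ)) (hpM : p ≤ M)
    (hS : St s r D t h (M - p) k 0 (g ::ₘ R)) (hw : w + g' = p + g)
    (hwF : Fl s r D t h w ∧ 0 ≤ ep s r D t w) (hgF : Fl s r D t h g' ∧ 0 ≤ ep s r D t g') :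
    bD4_B s r D t h M (k + 1) p (g ::ₘ R) (w ::ₘ g' ::ₘ R) := by
  refine ⟨⟨?_, ?_, ?_⟩, w, g', g, R, rfl, hw, rfl⟩
  · have h1 := hS.1
    rw [Multiset.card_cons] at h1
    rw [Multiset.card_cons, Multiset.card_cons, h1]
  · have h1 := hS.2.1
    rw [Multiset.sum_cons] at h1
    rw [Multiset.sum_cons, Multiset.sum_cons, ← add_assoc, hw, add_assoc, h1]
    exact add_tsub_cancel_of_le hpM
  · intro x hx
    rw [Multiset.mem_cons, Multiset.mem_cons] at hx
    rcases hx with rfl | rfl | hx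
    · exact hwF
    · exact hgF
    · exact hS.2.2 x (Multiset.mem_cons_of_mem hx)

/-- the base of an improvement has a positive member -/
theorem bD4_pos (s r : A → V) (D : V → ℤ) (t h : V) (M : A → ℕ) (k : ℕ)
    (S : Multiset (A → ℕ)) (hS : St s r D t h M k 0 S)
    (hm : 1 ≤ k * D t - dv s r M t) : ∃ g ∈ S, 1 ≤ ep s r D t g := by
  by_contra hcon
  push Not at hcon
  have h1 := sum_ep s r D t h M k 0 S hS
  have h2 : (S.map fun x => ep s r D t x).sum ≤ 0 := by
    have : ∀ x ∈ S.map (fun x => ep s r D t x), x ≤ 0 := by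
      intro x hx
      rw [Multiset.mem_map] at hx
      obtain ⟨y, hy, rfl⟩ := hx
      have := hcon y hy
      omega
    have h3 := Multiset.sum_le_card_nsmul (S.map fun x => ep s r D t x) 0 this
    simpa using h3
  omega

theorem bD4_flow_pos (s r : A → V) (D : V → ℤ) (t : V) (p w b b' : A → ℕ)
    (hdv : ∀ x y : A → ℕ, dv s r (x + y) t = dv s r x t + dv s r y t)
    (hep : ep s r D t p = -1) (hw : w + b' = p + b) (h0 : 0 ≤ ep s r D t w)
    (h0' : 0 ≤ ep s r D t b') : 1 ≤ ep s r D t b := by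
  unfold ep at *
  have h1 := hdv w b'
  have h2 := hdv p b
  rw [hw] at h1
  omega

/-- one move in the base -/
theorem bD4_step (s r : A → V) (D : V → ℤ) (t h : V) (hth : t ≠ h) (k : ℕ) (hk : 3 ≤ k)
    (hE : EE s r D t h k) (M p : A → ℕ) (hp : Fl s r D t h p) (hep : ep s r D t p = -1)
    (hpM : p ≤ M) (S S' T T' : Multiset (A → ℕ)) (hS : St s r D t h (M - p) k 0 S)
    (hS' : St s r D t h (M - p) k 0 S') (hmv : Mv S S')
    (hT : bD4_B s r D t h M (k + 1) p S T) (hT' : bD4_B s r D t h M (k + 1) p S' T') :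
    Cn (St s r D t h M (k + 1) 0) T T' := by
  obtain ⟨x, y, x', y', Q, hSe, hSe', _⟩ := hmv
  have hcQ : Multiset.card Q + 2 = k := by
    have h1 := hS.1
    rw [hSe, Multiset.card_cons, Multiset.card_cons] at h1
    omega
  by_cases hpos : ∃ g ∈ Q, 1 ≤ ep s r D t g
  · obtain ⟨g, hgQ, hg1⟩ := hpos
    obtain ⟨Q0, hQ0⟩ := Multiset.exists_cons_of_mem hgQ
    have hgF : Fl s r D t h g := by
      refine (hS.2.2 g ?_).1
      rw [hSe]; exact Multiset.mem_cons_of_mem (Multiset.mem_cons_of_mem hgQ)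
    obtain ⟨w, g', hw, hwF, hgF'⟩ := bD4_imp s r D t h hth M p hp hep g hgF hg1
    have e1 : S = g ::ₘ x ::ₘ y ::ₘ Q0 := by
      rw [hSe, hQ0, Multiset.cons_swap y g, Multiset.cons_swap x g]
    have e2 : S' = g ::ₘ x' ::ₘ y' ::ₘ Q0 := by
      rw [hSe', hQ0, Multiset.cons_swap y' g, Multiset.cons_swap x' g]
    have h1 := bD4_mk s r D t h k M p g w g' _ hpM (e1 ▸ hS) hw hwF hgF'
    have h2 := bD4_mk s r D t h k M p g w g' _ hpM (e2 ▸ hS') hw hwF hgF'
    rw [← e1] at h1
    rw [← e2] at h2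
    have c1 := bD4_same s r D t h k hk hE M p S _ _ hT h1
    have c2 := share s r D t h k hE M _ _ h1.1 h2.1 w (Multiset.mem_cons_self _ _)
      (Multiset.mem_cons_self _ _)
    have c3 := bD4_same s r D t h k hk hE M p S' _ _ h2 hT'
    exact (c1.trans c2).trans c3
  · push Not at hpos
    have hcpos : 0 < Multiset.card Q := by omega
    obtain ⟨c, hc⟩ := Multiset.card_pos_iff_exists_mem.1 hcpos
    have aux : ∀ (S T : Multiset (A → ℕ)) (x y : A → ℕ), S = x ::ₘ y ::ₘ Q →
        bD4_B s r D t h M (k + 1) p S T → c ∈ T := by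
      intro S T x y hSe hT
      obtain ⟨hTS, w, b', b, R, hTe, hwb, hSb⟩ := hT
      have hb1 : 1 ≤ ep s r D t b := by
        refine bD4_flow_pos s r D t p w b b' (fun x y => dv_add s r x y t) hep hwb ?_ ?_
        · refine (hTS.2.2 w ?_).2
          rw [hTe]; exact Multiset.mem_cons_self _ _
        · refine (hTS.2.2 b' ?_).2
          rw [hTe]; exact Multiset.mem_cons_of_mem (Multiset.mem_cons_self _ _)
      have hbQ : c ≠ b := by
        intro hcb
        have := hpos c hc
        rw [hcb] at this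
        omega
      have hcS : c ∈ S := by
        rw [hSe]; exact Multiset.mem_cons_of_mem (Multiset.mem_cons_of_mem hc)
      rw [hSb, Multiset.mem_cons] at hcS
      rcases hcS with hcS | hcS
      · exact absurd hcS hbQ
      · rw [hTe]; exact Multiset.mem_cons_of_mem (Multiset.mem_cons_of_mem hcS)
    exact share s r D t h k hE M T T' hT.1 hT'.1 c (aux S T x y hSe hT) (aux S' T' x' y' hSe' hT')

/-- D4. `K(p)` is well defined -/
theorem Imp_unique (s r : A → V) (D : V → ℤ) (t h : V) (hth : t ≠ h) (k : ℕ) (hk : 3 ≤ k)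
    (hE : EE s r D t h k) (M p : A → ℕ) (hp : Fl s r D t h p) (hep : ep s r D t p = -1)
    (T T' : Multiset (A → ℕ)) (hT : Imp s r D t h M (k + 1) p T)
    (hT' : Imp s r D t h M (k + 1) p T') : Cn (St s r D t h M (k + 1) 0) T T' := by
  -- bases
  have base : ∀ T : Multiset (A → ℕ), Imp s r D t h M (k + 1) p T → p ≤ M ∧
      ∃ S, St s r D t h (M - p) k 0 S ∧ bD4_B s r D t h M (k + 1) p S T := by
    intro T hT
    obtain ⟨hTS, w, b', b, R, hTe, hwb, hbF, hb0⟩ := hT
    have hsum := hTS.2.1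
    rw [hTe, Multiset.sum_cons, Multiset.sum_cons, ← add_assoc, hwb, add_assoc] at hsum
    have hpM : p ≤ M := hsum ▸ le_self_add
    refine ⟨hpM, b ::ₘ R, ⟨?_, ?_, ?_⟩, hTS, w, b', b, R, hTe, hwb, rfl⟩
    · have h1 := hTS.1
      rw [hTe, Multiset.card_cons, Multiset.card_cons] at h1
      rw [Multiset.card_cons]
      omega
    · rw [Multiset.sum_cons, ← hsum, add_tsub_cancel_left]
    · intro x hx
      rw [Multiset.mem_cons] at hx
      rcases hx with rfl | hx
      · exact ⟨hbF, hb0⟩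
      · refine hTS.2.2 x ?_
        rw [hTe]; exact Multiset.mem_cons_of_mem (Multiset.mem_cons_of_mem hx)
  obtain ⟨hpM, S, hS, hST⟩ := base T hT
  obtain ⟨_, S', hS', hST'⟩ := base T' hT'
  have hpath := hE (M - p) S S' hS hS'
  -- the sum of the levels of the base is positive
  have hm : 1 ≤ k * D t - dv s r (M - p) t := by
    have h1 := sum_ep s r D t h (M - p) k 0 S hS
    obtain ⟨hTS, w, b', b, R, hTe, hwb, hSb⟩ := hST
    have hb1 : 1 ≤ ep s r D t b := by
      refine bD4_flow_pos s r D t p w b b' (fun x y => dv_add s r x y t) hep hwb ?_ ?_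
      · refine (hTS.2.2 w ?_).2
        rw [hTe]; exact Multiset.mem_cons_self _ _
      · refine (hTS.2.2 b' ?_).2
        rw [hTe]; exact Multiset.mem_cons_of_mem (Multiset.mem_cons_self _ _)
    rw [hSb, Multiset.map_cons, Multiset.sum_cons] at h1
    have h2 : 0 ≤ (R.map fun x => ep s r D t x).sum := by
      apply Multiset.sum_nonneg
      intro x hx
      rw [Multiset.mem_map] at hx
      obtain ⟨y, hy, rfl⟩ := hx
      refine (hTS.2.2 y ?_).2
      rw [hTe]; exact Multiset.mem_cons_of_mem (Multiset.mem_cons_of_mem hy)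
    omega
  -- every base has an improvement
  have hex : ∀ S, St s r D t h (M - p) k 0 S → ∃ T, bD4_B s r D t h M (k + 1) p S T := by
    intro S hS
    obtain ⟨g, hgS, hg1⟩ := bD4_pos s r D t h (M - p) k S hS hm
    obtain ⟨R, hR⟩ := Multiset.exists_cons_of_mem hgS
    obtain ⟨w, g', hw, hwF, hgF'⟩ := bD4_imp s r D t h hth M p hp hep g (hS.2.2 g hgS).1 hg1
    have h1 := bD4_mk s r D t h k M p g w g' R hpM (hR ▸ hS) hw hwF hgF'
    rw [← hR] at h1
    exact ⟨_, h1⟩
  -- induction along the path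
  have key : ∀ S', Cn (St s r D t h (M - p) k 0) S S' → ∀ T',
      bD4_B s r D t h M (k + 1) p S' T' → Cn (St s r D t h M (k + 1) 0) T T' := by
    intro S' hc
    induction hc with
    | refl => intro T' hT'; exact bD4_same s r D t h k hk hE M p S T T' hST hT'
    | tail _ hstep ih =>
      intro T' hT'
      obtain ⟨hG, hG', hmv⟩ := hstep
      obtain ⟨T1, hT1⟩ := hex _ hG
      exact (ih T1 hT1).trans
        (bD4_step s r D t h hth k hk hE M p hp hep hpM _ _ T1 T' hG hG' hmv hT1 hT')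
  exact key S' hpath T' hST'

end sec_D4

section sec_D5

open Finset

variable {V A : Type} [Fintype V] [DecidableEq V] [Fintype A] [DecidableEq A]

/-- the total level of a multiset -/
theorem D5_tot (s r : A → V) (D : V → ℤ) (t : V) (R : Multiset (A → ℕ)) :
    (R.map fun x => ep s r D t x).sum = (Multiset.card R : ℤ) * D t - dv s r R.sum t := by
  induction R using Multiset.induction with
  | empty => simp [dv_zero]
  | cons x R ih =>
    rw [Multiset.map_cons, Multiset.sum_cons, ih, Multiset.card_cons, Multiset.sum_cons, dv_add]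
    unfold ep
    push_cast
    ring

/-- a multiset with positive total has a positive member -/
theorem D5_pos {α : Type} (f : α → ℤ) (R : Multiset α) (h : 1 ≤ (R.map f).sum) :
    ∃ b ∈ R, 1 ≤ f b := by
  by_contra hc
  push Not at hc
  have h1 : (R.map f).sum ≤ (R.map fun _ => (0 : ℤ)).sum :=
    Multiset.sum_map_le_sum_map _ _ fun x hx => by have := hc x hx; omega
  simp at h1
  omega

/-- improving a member `b` of level `≥ 1` -/
theorem D5_imp (s r : A → V) (D : V → ℤ) (t h : V) (hth : t ≠ h) (k : ℕ)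
    (M p : A → ℕ) (hp : Fl s r D t h p) (hep : ep s r D t p = -1) (R : Multiset (A → ℕ))
    (hRc : Multiset.card R = k) (hR : p + R.sum = M)
    (hRF : ∀ x ∈ R, Fl s r D t h x ∧ 0 ≤ ep s r D t x) (b : A → ℕ) (hb : b ∈ R)
    (hb1 : 1 ≤ ep s r D t b) :
    ∃ T' w b' : _, Imp s r D t h M (k + 1) p T' ∧ T' = w ::ₘ b' ::ₘ (R.erase b) := by
  obtain ⟨w, b', hw, hb', hsum, hew, heb⟩ := IMP s r D t h hth p b hp (hRF b hb).1
    (by rw [hep]; omega)
  refine ⟨w ::ₘ b' ::ₘ (R.erase b), w, b', ⟨⟨?_, ?_, ?_⟩, w, b', b, R.erase b, rfl, hsum.symm,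
    (hRF b hb).1, (hRF b hb).2⟩, rfl⟩
  · rw [Multiset.card_cons, Multiset.card_cons, Multiset.card_erase_of_mem hb, hRc]
    have : 0 < Multiset.card R := Multiset.card_pos_iff_exists_mem.mpr ⟨b, hb⟩
    rw [Nat.pred_eq_sub_one]
    omega
  · rw [Multiset.sum_cons, Multiset.sum_cons, ← add_assoc, ← hsum, ← hR, add_assoc]
    congr 1
    rw [← Multiset.sum_cons, Multiset.cons_erase hb]
  · intro x hx
    rw [Multiset.mem_cons, Multiset.mem_cons] at hx
    rcases hx with rfl | rfl | hx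
    · exact ⟨hw, by rw [hew, hep]; norm_num⟩
    · exact ⟨hb', by rw [heb]; omega⟩
    · exact hRF x (Multiset.mem_of_mem_erase hx)

/-- D6'. an improvement containing a given flow `g` -/
theorem Imp_exists_mem (s r : A → V) (D : V → ℤ) (t h : V) (hth : t ≠ h) (k : ℕ) (hk : 3 ≤ k)
    (M p : A → ℕ) (hp : Fl s r D t h p) (hep : ep s r D t p = -1) (g : A → ℕ)
    (hg : Fl s r D t h g) (h0 : 0 ≤ ep s r D t g)
    (hgm : ep s r D t g ≤ (k + 1 : ℤ) * D t - dv s r M t) (R : Multiset (A → ℕ))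
    (hRc : Multiset.card R = k - 1) (hR : p + g + R.sum = M)
    (hRF : ∀ x ∈ R, Fl s r D t h x ∧ 0 ≤ ep s r D t x) :
    ∃ T', Imp s r D t h M (k + 1) p T' ∧ g ∈ T' := by
  have htot := D5_tot s r D t R
  have hM : dv s r M t = dv s r p t + dv s r g t + dv s r R.sum t := by
    rw [← hR, dv_add, dv_add]
  have hkk : ((k - 1 : ℕ) : ℤ) = k - 1 := by
    push_cast [Nat.cast_sub (by omega : 1 ≤ k)]
    ring
  have h1 : 1 ≤ (R.map fun x => ep s r D t x).sum := by
    rw [htot, hRc, hkk]
    unfold ep at hgm hep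
    rw [hM] at hgm
    linarith
  obtain ⟨b, hbR, hb1⟩ := D5_pos _ R h1
  obtain ⟨T', w, b', hT', hTe⟩ := D5_imp s r D t h hth k M p hp hep (g ::ₘ R)
    (by rw [Multiset.card_cons, hRc]; omega) (by rw [Multiset.sum_cons, ← add_assoc]; exact hR)
    (by
      intro x hx
      rw [Multiset.mem_cons] at hx
      rcases hx with rfl | hx
      · exact ⟨hg, h0⟩
      · exact hRF x hx) b (Multiset.mem_cons_of_mem hbR) hb1
  refine ⟨T', hT', ?_⟩
  rw [hTe, Multiset.mem_cons, Multiset.mem_cons]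
  right
  right
  by_cases hgb : g = b
  · subst hgb
    rw [Multiset.erase_cons_head]
    exact hbR
  · rw [Multiset.mem_erase_of_ne hgb]
    exact Multiset.mem_cons_self _ _

/-- D5. `K(p) = [q]` -/
theorem Imp_mem (s r : A → V) (D : V → ℤ) (t h : V) (hth : t ≠ h) (k : ℕ) (hk : 3 ≤ k)
    (hE : EE s r D t h k) (M p : A → ℕ) (hp : Fl s r D t h p) (hep : ep s r D t p = -1)
    (T T' : Multiset (A → ℕ)) (hT : Imp s r D t h M (k + 1) p T)
    (hT' : St s r D t h M (k + 1) 0 T') (q : A → ℕ) (hq : q ∈ T') (R : Multiset (A → ℕ))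
    (hRc : Multiset.card R = k - 1) (hR : p + q + R.sum = M)
    (hRF : ∀ x ∈ R, Fl s r D t h x ∧ 0 ≤ ep s r D t x) :
    Cn (St s r D t h M (k + 1) 0) T T' := by
  have hqm : ep s r D t q ≤ (k + 1 : ℤ) * D t - dv s r M t := by
    have h1 := D5_tot s r D t T'
    rw [hT'.1, hT'.2.1] at h1
    push_cast at h1
    rw [← h1]
    have h2 : (T'.map fun x => ep s r D t x).sum = ep s r D t q +
        ((T'.erase q).map fun x => ep s r D t x).sum := by
      rw [← Multiset.sum_cons, ← Multiset.map_cons (fun x => ep s r D t x), Multiset.cons_erase hq]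
    rw [h2]
    have h3 : 0 ≤ ((T'.erase q).map fun x => ep s r D t x).sum := by
      refine Multiset.sum_nonneg fun y hy => ?_
      rw [Multiset.mem_map] at hy
      obtain ⟨x, hx, rfl⟩ := hy
      exact (hT'.2.2 x (Multiset.mem_of_mem_erase hx)).2
    linarith
  obtain ⟨T2, hT2, hq2⟩ := Imp_exists_mem s r D t h hth k hk M p hp hep q (hT'.2.2 q hq).1
    (hT'.2.2 q hq).2 hqm R hRc hR hRF
  have h4 := Imp_unique s r D t h hth k hk hE M p hp hep T T2 hT hT2
  have h5 := share s r D t h k hE M T2 T' hT2.1 hT' q hq2 hq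
  exact h4.trans h5

/-- D6. existence of improvements -/
theorem Imp_exists (s r : A → V) (D : V → ℤ) (t h : V) (hth : t ≠ h) (k : ℕ) (hk : 3 ≤ k)
    (M p : A → ℕ) (hm : 0 ≤ (k + 1 : ℤ) * D t - dv s r M t)
    (T : Multiset (A → ℕ)) (hT : St s r D t h M (k + 1) (-1) T) (hpT : p ∈ T)
    (hep : ep s r D t p = -1) : ∃ T', Imp s r D t h M (k + 1) p T' := by
  have hc : Multiset.card (T.erase p) = k := by
    rw [Multiset.card_erase_of_mem hpT, hT.1]
    rfl
  have hs : p + (T.erase p).sum = M := by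
    rw [← Multiset.sum_cons, Multiset.cons_erase hpT, hT.2.1]
  have hM : dv s r M t = dv s r p t + dv s r (T.erase p).sum t := by
    rw [← hs, dv_add]
  have htot := D5_tot s r D t (T.erase p)
  rw [hc] at htot
  have h1 : 1 ≤ ((T.erase p).map fun x => ep s r D t x).sum := by
    rw [htot]
    unfold ep at hep
    rw [hM] at hm
    linarith
  obtain ⟨R', hR'c, hR's, hR'F⟩ := dec_nonneg s r D t h hth (T.erase p)
    (fun x hx => (hT.2.2 x (Multiset.mem_of_mem_erase hx)).1) (by omega)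
  have htot' := D5_tot s r D t R'
  rw [hR'c, hR's, hc, ← htot] at htot'
  obtain ⟨b, hbR, hb1⟩ := D5_pos _ R' (by rw [htot']; exact h1)
  obtain ⟨T', _, _, hT', _⟩ := D5_imp s r D t h hth k M p (hT.2.2 p hpT).1 hep R'
    (by rw [hR'c, hc]) (by rw [hR's]; exact hs) hR'F b hbR hb1
  exact ⟨T', hT'⟩

/-- D7. two negative members of the same state -/
theorem Imp_two (s r : A → V) (D : V → ℤ) (t h : V) (hth : t ≠ h) (k : ℕ) (hk : 3 ≤ k)
    (hE : EE s r D t h k) (M p p' : A → ℕ) (hm : 0 ≤ (k + 1 : ℤ) * D t - dv s r M t)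
    (R : Multiset (A → ℕ)) (hR : St s r D t h M (k + 1) (-1) (p ::ₘ p' ::ₘ R))
    (hep : ep s r D t p = -1) (hep' : ep s r D t p' = -1) (T T' : Multiset (A → ℕ))
    (hT : Imp s r D t h M (k + 1) p T) (hT' : Imp s r D t h M (k + 1) p' T') :
    Cn (St s r D t h M (k + 1) 0) T T' := by
  have hp : Fl s r D t h p := (hR.2.2 p (Multiset.mem_cons_self _ _)).1
  have hp' : Fl s r D t h p' :=
    (hR.2.2 p' (Multiset.mem_cons_of_mem (Multiset.mem_cons_self _ _))).1
  have hc : Multiset.card R = k - 1 := by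
    have := hR.1
    rw [Multiset.card_cons, Multiset.card_cons] at this
    omega
  have hs : p + (p' + R.sum) = M := by
    have := hR.2.1
    rw [Multiset.sum_cons, Multiset.sum_cons] at this
    exact this
  have hM : dv s r M t = dv s r p t + (dv s r p' t + dv s r R.sum t) := by
    rw [← hs, dv_add, dv_add]
  have htot := D5_tot s r D t R
  have hkk : ((k - 1 : ℕ) : ℤ) = k - 1 := by
    push_cast [Nat.cast_sub (by omega : 1 ≤ k)]
    ring
  rw [hc, hkk] at htot
  have h2 : 2 ≤ (R.map fun x => ep s r D t x).sum := by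
    rw [htot]
    unfold ep at hep hep'
    rw [hM] at hm
    linarith
  obtain ⟨a, b, R', hR'c, hR's, hR'F, ha, hb⟩ := dec_two_pos s r D t h hth R
    (fun x hx => (hR.2.2 x (Multiset.mem_cons_of_mem (Multiset.mem_cons_of_mem hx))).1) h2
    (by omega)
  have hFa := hR'F a (Multiset.mem_cons_self _ _)
  have hFb := hR'F b (Multiset.mem_cons_of_mem (Multiset.mem_cons_self _ _))
  have hFR : ∀ x ∈ R', Fl s r D t h x ∧ 0 ≤ ep s r D t x := fun x hx =>
    hR'F x (Multiset.mem_cons_of_mem (Multiset.mem_cons_of_mem hx))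
  obtain ⟨w', a', hw', ha', hsum', hew', hea'⟩ := IMP s r D t h hth p' a hp' hFa.1
    (by rw [hep']; omega)
  obtain ⟨w, b', hw, hb', hsum, hew, heb'⟩ := IMP s r D t h hth p b hp hFb.1
    (by rw [hep]; omega)
  have hst : St s r D t h M (k + 1) 0 (w ::ₘ b' ::ₘ w' ::ₘ a' ::ₘ R') := by
    refine ⟨?_, ?_, ?_⟩
    · simp only [Multiset.card_cons]
      omega
    · rw [Multiset.sum_cons, Multiset.sum_cons] at hR's
      simp only [Multiset.sum_cons]
      calc w + (b' + (w' + (a' + R'.sum))) = (w + b') + ((w' + a') + R'.sum) := by abel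
        _ = (p + b) + ((p' + a) + R'.sum) := by rw [← hsum, ← hsum']
        _ = p + (p' + (a + (b + R'.sum))) := by abel
        _ = M := by rw [hR's]; exact hs
    · intro x hx
      simp only [Multiset.mem_cons] at hx
      rcases hx with rfl | rfl | rfl | rfl | hx
      · exact ⟨hw, by rw [hew, hep]; norm_num⟩
      · exact ⟨hb', by rw [heb']; omega⟩
      · exact ⟨hw', by rw [hew', hep']; norm_num⟩
      · exact ⟨ha', by rw [hea']; omega⟩
      · exact hFR x hx
  have hI : Imp s r D t h M (k + 1) p (w ::ₘ b' ::ₘ w' ::ₘ a' ::ₘ R') :=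
    ⟨hst, w, b', b, w' ::ₘ a' ::ₘ R', rfl, hsum.symm, hFb.1, hFb.2⟩
  have hI' : Imp s r D t h M (k + 1) p' (w ::ₘ b' ::ₘ w' ::ₘ a' ::ₘ R') := by
    refine ⟨hst, w', a', a, w ::ₘ b' ::ₘ R', ?_, hsum'.symm, hFa.1, hFa.2⟩
    rw [Multiset.cons_swap b' w', Multiset.cons_swap w w', Multiset.cons_swap b' a',
      Multiset.cons_swap w a']
  exact (Imp_unique s r D t h hth k hk hE M p hp hep _ _ hT hI).trans
    (Cn_symm _ _ _ (Imp_unique s r D t h hth k hk hE M p' hp' hep' _ _ hT' hI'))

end sec_D5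

section sec_D8

open Finset

variable {V A : Type} [Fintype V] [DecidableEq V] [Fintype A] [DecidableEq A]

private lemma bD8_uniq (s r : A → V) (D : V → ℤ) (t h : V) (hN : ND D t h) (a : A → ℕ)
    (ha : Fl s r D t h a) (U U' : Finset V) (ht : t ∈ U) (hh : h ∉ U) (ht' : t ∈ U') (hh' : h ∉ U')
    (h1 : xo s r a U = 0) (h2 : xo r s a U = 0) (h1' : xo s r a U' = 0)
    (h2' : xo r s a U' = 0) : U = U' := by
  have key : ∀ U U' : Finset V, t ∈ U → h ∉ U → t ∈ U' → h ∉ U' → xo s r a U = 0 →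
      xo r s a U = 0 → xo s r a U' = 0 → xo r s a U' = 0 → U ⊆ U' := by
    intro U U' ht hh ht' hh' h1 h2 h1' h2'
    have e1 := Fl_cut s r D t h a ha U ht hh
    have e2 := Fl_cut s r D t h a ha (U ∩ U') (Finset.mem_inter.2 ⟨ht, ht'⟩)
      (fun hx => hh (Finset.mem_inter.1 hx).1)
    have i1 := (xo_inter_union s r a U U' h1 h1').1
    have i2 := (xo_inter_union r s a U U' h2 h2').1
    rw [h1, h2] at e1
    rw [i1, i2] at e2
    have e3 := Finset.sum_inter_add_sum_sdiff U U' D
    have e4 : ∑ v ∈ U \ U', D v = 0 := by linarith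
    by_contra hno
    have : (U \ U').Nonempty := by
      rw [Finset.sdiff_nonempty]; exact hno
    exact hN _ this (by rw [Finset.mem_sdiff]; exact fun hx => hx.2 ht')
      (by rw [Finset.mem_sdiff]; exact fun hx => hh hx.1) e4
  exact Finset.Subset.antisymm (key U U' ht hh ht' hh' h1 h2 h1' h2')
    (key U' U ht' hh' ht hh h1' h2' h1 h2)

private lemma bD8_half (s r : A → V) (D : V → ℤ) (t h : V) (hth : t ≠ h)
    (M P Pc a b q : A → ℕ) (hm : 4 * D t - dv s r M t = 0)
    (hM : P + Pc + a + b = M) (hP : Fl s r D t h P) (hPc : Fl s r D t h Pc)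
    (ha : Fl s r D t h a) (hb : Fl s r D t h b) (eP : ep s r D t P = -1)
    (ePc : ep s r D t Pc = -1) (ea : ep s r D t a = 1) (eb : ep s r D t b = 1)
    (hq : Fl s r D t h q) (eq : ep s r D t q = 0) (hqle : q ≤ a + b + P) :
    ∃ T3, Imp s r D t h M 4 Pc T3 ∧ q ∈ T3 := by
  have hy : ∀ v, dv s r (a + b + P - q) v = 2 * D v - (1 : ℕ) * dl t h v := by
    intro v
    rw [dv_sub _ _ _ _ hqle, dv_add, dv_add, hP v, ha v, hb v, hq v, eP, ea, eb, eq]
    push_cast
    ring
  obtain ⟨y1, y2, hy12, hy1, hy2, ey1, ey2⟩ := dec_two s r D t h hth _ 1 hy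
  refine Imp_exists_mem s r D t h hth 3 le_rfl M Pc hPc ePc q hq (by rw [eq]) ?_ {y1, y2} ?_ ?_ ?_
  · rw [eq]; push_cast; linarith
  · simp
  · simp only [Multiset.insert_eq_cons, Multiset.sum_cons, Multiset.sum_singleton]
    rw [← hy12, ← hM]
    ext x
    have := hqle x
    simp only [Pi.add_apply, Pi.sub_apply] at this ⊢
    omega
  · intro x hx
    simp only [Multiset.insert_eq_cons, Multiset.mem_cons, Multiset.mem_singleton] at hx
    rcases hx with rfl | rfl
    · exact ⟨hy1, ey1⟩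
    · exact ⟨hy2, ey2⟩

private lemma bD8_pair (s r : A → V) (D : V → ℤ) (t h : V) (hth : t ≠ h)
    (hE : EE s r D t h 3) (M P Pc P' Pc' a b : A → ℕ) (hm : 4 * D t - dv s r M t = 0)
    (hM : P + Pc + a + b = M) (hM' : P' + Pc' + a + b = M)
    (hP : Fl s r D t h P) (hPc : Fl s r D t h Pc) (hP' : Fl s r D t h P')
    (hPc' : Fl s r D t h Pc') (ha : Fl s r D t h a) (hb : Fl s r D t h b)
    (eP : ep s r D t P = -1) (ePc : ep s r D t Pc = -1) (eP' : ep s r D t P' = -1)
    (ePc' : ep s r D t Pc' = -1) (ea : ep s r D t a = 1) (eb : ep s r D t b = 1)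
    (hcut : ∀ U : Finset V, t ∈ U → h ∉ U →
      (∃ x, 0 < b x + min (P x) (P' x) ∧ s x ∈ U ∧ r x ∉ U) ∨
        (∃ x, 0 < a x ∧ r x ∈ U ∧ s x ∉ U)) :
    ∃ T3 T4, Imp s r D t h M 4 Pc T3 ∧ Imp s r D t h M 4 Pc' T4 ∧
      Cn (St s r D t h M 4 0) T3 T4 := by
  obtain ⟨zp, zm, h1, h2, h3⟩ := PLf s r (fun x => b x + min (P x) (P' x)) a t h hcut
  obtain ⟨hq, eq⟩ := Fl_up s r D t h hth a zp zm ha h2 h3
  have eq0 : ep s r D t (a - zm + zp) = 0 := by rw [eq, ea]; norm_num
  have hle1 : a - zm + zp ≤ a + b + P := by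
    intro x
    have e1 := h1 x
    have e2 := h2 x
    simp only [Pi.add_apply, Pi.sub_apply] at e1 e2 ⊢
    have := min_le_left (P x) (P' x)
    omega
  have hle2 : a - zm + zp ≤ a + b + P' := by
    intro x
    have e1 := h1 x
    have e2 := h2 x
    simp only [Pi.add_apply, Pi.sub_apply] at e1 e2 ⊢
    have := min_le_right (P x) (P' x)
    omega
  obtain ⟨T3, hT3, hq3⟩ := bD8_half s r D t h hth M P Pc a b _ hm hM hP hPc ha hb eP ePc ea eb hq
    eq0 hle1
  obtain ⟨T4, hT4, hq4⟩ := bD8_half s r D t h hth M P' Pc' a b _ hm hM' hP' hPc' ha hb eP' ePc' ea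
    eb hq eq0 hle2
  exact ⟨T3, T4, hT3, hT4, share s r D t h 3 hE M T3 T4 hT3.1 hT4.1 _ hq3 hq4⟩

/-- D8. the special case `k = 4`, `m = 0` -/
theorem special (s r : A → V) (D : V → ℤ) (t h : V) (hth : t ≠ h) (hN : ND D t h)
    (hE : EE s r D t h 3) (M p p2 p' p2' a b : A → ℕ) (hm : 4 * D t - dv s r M t = 0)
    (hT1 : St s r D t h M 4 (-1) {p, p2, a, b}) (hT2 : St s r D t h M 4 (-1) {p', p2', a, b})
    (hep : ep s r D t p = -1) (hep2 : ep s r D t p2 = -1)
    (hep' : ep s r D t p' = -1) (hep2' : ep s r D t p2' = -1)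
    (hea : ep s r D t a = 1) (heb : ep s r D t b = 1) (T T' : Multiset (A → ℕ))
    (hT : Imp s r D t h M 4 p T) (hT' : Imp s r D t h M 4 p' T') :
    Cn (St s r D t h M 4 0) T T' := by
  classical
  have s1 : p + p2 + a + b = M := by
    have := hT1.2.1
    simp only [Multiset.insert_eq_cons, Multiset.sum_cons, Multiset.sum_singleton] at this
    rw [← this]; ext x; simp only [Pi.add_apply]; ring
  have s2 : p' + p2' + a + b = M := by
    have := hT2.2.1
    simp only [Multiset.insert_eq_cons, Multiset.sum_cons, Multiset.sum_singleton] at this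
    rw [← this]; ext x; simp only [Pi.add_apply]; ring
  have hp : Fl s r D t h p := (hT1.2.2 p (by simp)).1
  have hp2 : Fl s r D t h p2 := (hT1.2.2 p2 (by simp)).1
  have ha : Fl s r D t h a := (hT1.2.2 a (by simp)).1
  have hb : Fl s r D t h b := (hT1.2.2 b (by simp)).1
  have hp' : Fl s r D t h p' := (hT2.2.2 p' (by simp)).1
  have hp2' : Fl s r D t h p2' := (hT2.2.2 p2' (by simp)).1
  -- the moves between the four classes
  have hm' : 0 ≤ ((3 : ℕ) + 1 : ℤ) * D t - dv s r M t := by push_cast; linarith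
  have c1 : ∀ T3, Imp s r D t h M 4 p2 T3 → Cn (St s r D t h M 4 0) T T3 := fun T3 h3 =>
    Imp_two s r D t h hth 3 le_rfl hE M p p2 hm' {a, b} hT1 hep hep2 T T3 hT h3
  have c1' : ∀ T3, Imp s r D t h M 4 p T3 → Cn (St s r D t h M 4 0) T T3 := fun T3 h3 =>
    Imp_unique s r D t h hth 3 le_rfl hE M p hp hep T T3 hT h3
  have c2 : ∀ T3, Imp s r D t h M 4 p2' T3 → Cn (St s r D t h M 4 0) T3 T' := fun T3 h3 =>
    Cn_symm _ _ _ (Imp_two s r D t h hth 3 le_rfl hE M p' p2' hm' {a, b} hT2 hep' hep2' T' T3 hT' h3)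
  have c2' : ∀ T3, Imp s r D t h M 4 p' T3 → Cn (St s r D t h M 4 0) T3 T' := fun T3 h3 =>
    Imp_unique s r D t h hth 3 le_rfl hE M p' hp' hep' T3 T' h3 hT'
  -- swapped sums
  have s1' : p2 + p + a + b = M := by rw [← s1, add_comm p2 p]
  have s2' : p2' + p' + a + b = M := by rw [← s2, add_comm p2' p']
  by_contra hcon
  have blocked : ∀ P Pc P' Pc' : A → ℕ, P + Pc + a + b = M → P' + Pc' + a + b = M →
      Fl s r D t h P → Fl s r D t h Pc → Fl s r D t h P' → Fl s r D t h Pc' →
      ep s r D t P = -1 → ep s r D t Pc = -1 → ep s r D t P' = -1 → ep s r D t Pc' = -1 →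
      (∀ T3, Imp s r D t h M 4 Pc T3 → Cn (St s r D t h M 4 0) T T3) →
      (∀ T3, Imp s r D t h M 4 Pc' T3 → Cn (St s r D t h M 4 0) T3 T') →
      ∃ U : Finset V, t ∈ U ∧ h ∉ U ∧ xo s r a U = 0 ∧ xo r s a U = 0 ∧
        ∑ v ∈ U, D v = 1 ∧ ∀ x, s x ∈ U → r x ∉ U → min (P x) (P' x) = 0 := by
    intro P Pc P' Pc' e1 e2 f1 f2 f3 f4 g1 g2 g3 g4 k1 k2
    by_contra hno
    apply hcon
    obtain ⟨T3, T4, h3, h4, h5⟩ := bD8_pair s r D t h hth hE M P Pc P' Pc' a b hm e1 e2 f1 f2 f3 f4
      ha hb g1 g2 g3 g4 hea heb (by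
        intro U hU hU'
        by_contra hx
        push Not at hx
        obtain ⟨hx1, hx2⟩ := hx
        apply hno
        have z1 : xo s r b U = 0 := by
          rw [xo_eq_zero_iff]
          intro x q1 q2
          by_contra hne
          exact q2 (hx1 x (by omega) q1)
        have z2 : xo r s a U = 0 := by
          rw [xo_eq_zero_iff]
          intro x q1 q2
          by_contra hne
          exact q2 (hx2 x (by omega) q1)
        have y1 := Fl_cut s r D t h a ha U hU hU'
        have y2 := Fl_cut s r D t h b hb U hU hU'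
        rw [z2, hea] at y1
        rw [z1, heb] at y2
        refine ⟨U, hU, hU', by omega, z2, by omega, ?_⟩
        intro x q1 q2
        by_contra hne
        exact q2 (hx1 x (by omega) q1))
    exact (k1 T3 h3).trans (h5.trans (k2 T4 h4))
  obtain ⟨U1, t1, u1, a1, b1, d1, m1⟩ := blocked p p2 p' p2' s1 s2 hp hp2 hp' hp2' hep hep2 hep'
    hep2' c1 c2
  obtain ⟨U2, t2, u2, a2, b2, -, m2⟩ := blocked p p2 p2' p' s1 s2' hp hp2 hp2' hp' hep hep2 hep2'
    hep' c1 c2'
  obtain ⟨U3, t3, u3, a3, b3, -, m3⟩ := blocked p2 p p' p2' s1' s2 hp2 hp hp' hp2' hep2 hep hep'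
    hep2' c1' c2
  obtain ⟨U4, t4, u4, a4, b4, -, m4⟩ := blocked p2 p p2' p' s1' s2' hp2 hp hp2' hp' hep2 hep hep2'
    hep' c1' c2'
  have q2 := bD8_uniq s r D t h hN a ha U2 U1 t2 u2 t1 u1 a2 b2 a1 b1
  have q3 := bD8_uniq s r D t h hN a ha U3 U1 t3 u3 t1 u1 a3 b3 a1 b1
  have q4 := bD8_uniq s r D t h hN a ha U4 U1 t4 u4 t1 u1 a4 b4 a1 b1
  subst q2 q3 q4
  have hz : xo s r p U4 = 0 := by
    rw [xo_eq_zero_iff]
    intro x x1 x2
    have n1 := m1 x x1 x2
    have n2 := m2 x x1 x2
    have n3 := m3 x x1 x2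
    have n4 := m4 x x1 x2
    have n5 : p x + p2 x = p' x + p2' x := by
      have e1 := congrFun s1 x
      have e2 := congrFun s2 x
      simp only [Pi.add_apply] at e1 e2
      omega
    omega
  have y := Fl_cut s r D t h p hp _ t1 u1
  rw [hz, hep, d1] at y
  omega

end sec_D8

section sec_D9

open Finset

variable {V A : Type} [Fintype V] [DecidableEq V] [Fintype A] [DecidableEq A]

/-- `X` represents the class of `T` -/
private def bD9_Rep (s r : A → V) (D : V → ℤ) (t h : V) (M : A → ℕ) (K : ℕ)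
    (T X : Multiset (A → ℕ)) : Prop :=
  (St s r D t h M K 0 T ∧ Cn (St s r D t h M K 0) T X) ∨
    ∃ p ∈ T, ep s r D t p = -1 ∧ Imp s r D t h M K p X

private theorem bD9_zero (s r : A → V) (D : V → ℤ) (t h : V) (M : A → ℕ) (K : ℕ)
    (T : Multiset (A → ℕ)) (hT : St s r D t h M K (-1) T) :
    St s r D t h M K 0 T ∨ ∃ p ∈ T, ep s r D t p = -1 := by
  by_cases hall : ∀ x ∈ T, 0 ≤ ep s r D t x
  · exact Or.inl ⟨hT.1, hT.2.1, fun x hx => ⟨(hT.2.2 x hx).1, hall x hx⟩⟩
  · push Not at hall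
    obtain ⟨p, hp, hlt⟩ := hall
    exact Or.inr ⟨p, hp, by have := (hT.2.2 p hp).2; omega⟩

private theorem bD9_ex (s r : A → V) (D : V → ℤ) (t h : V) (hth : t ≠ h) (k : ℕ)
    (hk : 3 ≤ k) (M : A → ℕ) (hm : 0 ≤ (k + 1 : ℤ) * D t - dv s r M t)
    (T : Multiset (A → ℕ)) (hT : St s r D t h M (k + 1) (-1) T) :
    ∃ X, bD9_Rep s r D t h M (k + 1) T X := by
  rcases bD9_zero s r D t h M (k + 1) T hT with h0 | ⟨p, hp, hep⟩
  · exact ⟨T, Or.inl ⟨h0, Relation.ReflTransGen.refl⟩⟩
  · obtain ⟨X, hX⟩ := Imp_exists s r D t h hth k hk M p hm T hT hp hep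
    exact ⟨X, Or.inr ⟨p, hp, hep, hX⟩⟩

private theorem bD9_uniq (s r : A → V) (D : V → ℤ) (t h : V) (hth : t ≠ h) (k : ℕ)
    (hk : 3 ≤ k) (hE : EE s r D t h k) (M : A → ℕ)
    (hm : 0 ≤ (k + 1 : ℤ) * D t - dv s r M t)
    (T : Multiset (A → ℕ)) (hT : St s r D t h M (k + 1) (-1) T) (X X' : Multiset (A → ℕ))
    (hX : bD9_Rep s r D t h M (k + 1) T X) (hX' : bD9_Rep s r D t h M (k + 1) T X') :
    Cn (St s r D t h M (k + 1) 0) X X' := by
  rcases hX with ⟨h0, hc⟩ | ⟨p, hp, hep, hI⟩
  · rcases hX' with ⟨_, hc'⟩ | ⟨p', hp', hep', _⟩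
    · exact (Cn_symm _ _ _ hc).trans hc'
    · have := (h0.2.2 p' hp').2
      omega
  · rcases hX' with ⟨h0, _⟩ | ⟨p', hp', hep', hI'⟩
    · have := (h0.2.2 p hp).2
      omega
    · by_cases hpp : p = p'
      · subst hpp
        exact Imp_unique s r D t h hth k hk hE M p (hT.2.2 p hp).1 hep X X' hI hI'
      · obtain ⟨T1, hT1⟩ := Multiset.exists_cons_of_mem hp
        have h2 : p' ∈ T1 := by
          rw [hT1, Multiset.mem_cons] at hp'
          rcases hp' with h3 | h3
          · exact absurd h3.symm hpp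
          · exact h3
        obtain ⟨R, hR⟩ := Multiset.exists_cons_of_mem h2
        rw [hT1, hR] at hT
        exact Imp_two s r D t h hth k hk hE M p p' hm R hT hep hep' X X' hI hI'

private theorem bD9_mem (s r : A → V) (D : V → ℤ) (t h : V) (hth : t ≠ h) (k : ℕ)
    (hk : 3 ≤ k) (M : A → ℕ)
    (T : Multiset (A → ℕ)) (hT : St s r D t h M (k + 1) (-1) T) (g : A → ℕ) (hg : g ∈ T)
    (h0 : 0 ≤ ep s r D t g) (hgm : ep s r D t g ≤ (k + 1 : ℤ) * D t - dv s r M t) :
    ∃ X, bD9_Rep s r D t h M (k + 1) T X ∧ St s r D t h M (k + 1) 0 X ∧ g ∈ X := by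
  rcases bD9_zero s r D t h M (k + 1) T hT with h00 | ⟨p, hp, hep⟩
  · exact ⟨T, Or.inl ⟨h00, Relation.ReflTransGen.refl⟩, h00, hg⟩
  · obtain ⟨T1, hT1⟩ := Multiset.exists_cons_of_mem hp
    have h2 : g ∈ T1 := by
      rw [hT1, Multiset.mem_cons] at hg
      rcases hg with h3 | h3
      · rw [h3, hep] at h0
        omega
      · exact h3
    obtain ⟨R0, hR0⟩ := Multiset.exists_cons_of_mem h2
    have hs := sum_ep s r D t h M (k + 1) (-1) T hT
    have hc := hT.1
    have hsum := hT.2.1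
    rw [hT1, hR0, Multiset.map_cons, Multiset.map_cons, Multiset.sum_cons, Multiset.sum_cons,
      hep] at hs
    push_cast at hs
    rw [hT1, hR0, Multiset.card_cons, Multiset.card_cons] at hc
    rw [hT1, hR0, Multiset.sum_cons, Multiset.sum_cons] at hsum
    have hF : ∀ x ∈ R0, Fl s r D t h x := fun x hx =>
      (hT.2.2 x (by rw [hT1, hR0]; exact Multiset.mem_cons_of_mem (Multiset.mem_cons_of_mem hx))).1
    obtain ⟨R1, hR1c, hR1s, hR1⟩ := dec_nonneg s r D t h hth R0 hF (by linarith)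
    obtain ⟨X, hX, hgX⟩ := Imp_exists_mem s r D t h hth k hk M p (hT.2.2 p hp).1 hep g
      (hT.2.2 g hg).1 h0 hgm R1 (by omega) (by rw [hR1s, ← hsum, add_assoc]) hR1
    exact ⟨X, Or.inr ⟨p, hp, hep, hX⟩, hX.1, hgX⟩

private theorem bD9_move (s r : A → V) (D : V → ℤ) (t h : V) (hth : t ≠ h) (hN : ND D t h)
    (k : ℕ) (hk : 3 ≤ k) (hE : EE s r D t h k) (M : A → ℕ)
    (hm : 0 ≤ (k + 1 : ℤ) * D t - dv s r M t)
    (T T' : Multiset (A → ℕ)) (hT : St s r D t h M (k + 1) (-1) T)
    (hT' : St s r D t h M (k + 1) (-1) T') (hmv : Mv T T') (X X' : Multiset (A → ℕ))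
    (hX : bD9_Rep s r D t h M (k + 1) T X) (hX' : bD9_Rep s r D t h M (k + 1) T' X') :
    Cn (St s r D t h M (k + 1) 0) X X' := by
  obtain ⟨x, y, x', y', R, hTe, hTe', hxy⟩ := hmv
  have hRT : ∀ g ∈ R, g ∈ T := fun g hg => by
    rw [hTe]; exact Multiset.mem_cons_of_mem (Multiset.mem_cons_of_mem hg)
  have hRT' : ∀ g ∈ R, g ∈ T' := fun g hg => by
    rw [hTe']; exact Multiset.mem_cons_of_mem (Multiset.mem_cons_of_mem hg)
  by_cases h1 : ∃ p ∈ R, ep s r D t p = -1
  · -- a common negative member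
    obtain ⟨p, hp, hep⟩ := h1
    obtain ⟨I, hI⟩ := Imp_exists s r D t h hth k hk M p hm T hT (hRT p hp) hep
    have a1 := bD9_uniq s r D t h hth k hk hE M hm T hT X I hX (Or.inr ⟨p, hRT p hp, hep, hI⟩)
    have a2 := bD9_uniq s r D t h hth k hk hE M hm T' hT' I X' (Or.inr ⟨p, hRT' p hp, hep, hI⟩)
      hX'
    exact a1.trans a2
  by_cases h2 : ∃ g ∈ R, 0 ≤ ep s r D t g ∧ ep s r D t g ≤ (k + 1 : ℤ) * D t - dv s r M t
  · -- a common member of level between `0` and `m`
    obtain ⟨g, hg, hg0, hgm⟩ := h2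
    obtain ⟨Y, hY, hYS, hgY⟩ := bD9_mem s r D t h hth k hk M T hT g (hRT g hg) hg0 hgm
    obtain ⟨Y', hY', hYS', hgY'⟩ := bD9_mem s r D t h hth k hk M T' hT' g (hRT' g hg) hg0 hgm
    have a1 := bD9_uniq s r D t h hth k hk hE M hm T hT X Y hX hY
    have a2 := share s r D t h k hE M Y Y' hYS hYS' g hgY hgY'
    have a3 := bD9_uniq s r D t h hth k hk hE M hm T' hT' Y' X' hY' hX'
    exact (a1.trans a2).trans a3
  · -- the special case
    have hlow : ∀ g ∈ R, (k + 1 : ℤ) * D t - dv s r M t + 1 ≤ ep s r D t g := by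
      intro g hg
      by_contra hcon
      have b1 := (hT.2.2 g (hRT g hg)).2
      have b2 : ep s r D t g ≠ -1 := fun hh => h1 ⟨g, hg, hh⟩
      exact h2 ⟨g, hg, by omega, by linarith [not_le.mp hcon]⟩
    have hs := sum_ep s r D t h M (k + 1) (-1) T hT
    have hs' := sum_ep s r D t h M (k + 1) (-1) T' hT'
    have hc := hT.1
    rw [hTe, Multiset.map_cons, Multiset.map_cons, Multiset.sum_cons, Multiset.sum_cons] at hs
    rw [hTe', Multiset.map_cons, Multiset.map_cons, Multiset.sum_cons, Multiset.sum_cons] at hs'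
    push_cast at hs hs'
    rw [hTe, Multiset.card_cons, Multiset.card_cons] at hc
    have hxT : x ∈ T := by rw [hTe]; exact Multiset.mem_cons_self _ _
    have hyT : y ∈ T := by
      rw [hTe]; exact Multiset.mem_cons_of_mem (Multiset.mem_cons_self _ _)
    have hxT' : x' ∈ T' := by rw [hTe']; exact Multiset.mem_cons_self _ _
    have hyT' : y' ∈ T' := by
      rw [hTe']; exact Multiset.mem_cons_of_mem (Multiset.mem_cons_self _ _)
    have ex := (hT.2.2 x hxT).2
    have ey := (hT.2.2 y hyT).2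
    have ex' := (hT'.2.2 x' hxT').2
    have ey' := (hT'.2.2 y' hyT').2
    have hge := Multiset.card_nsmul_le_sum (s := R.map fun z => ep s r D t z)
      (a := (k + 1 : ℤ) * D t - dv s r M t + 1) (by
        intro z hz
        rw [Multiset.mem_map] at hz
        obtain ⟨g, hg, rfl⟩ := hz
        exact hlow g hg)
    rw [Multiset.card_map, nsmul_eq_mul] at hge
    set m : ℤ := (k + 1 : ℤ) * D t - dv s r M t with hmdef
    set S : ℤ := (R.map fun z => ep s r D t z).sum with hSdef
    have hcR : ((Multiset.card R : ℕ) : ℤ) = k - 1 := by omega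
    rw [hcR] at hge
    have hk3 : k = 3 := by
      by_contra hne
      have hk4 : (4 : ℤ) ≤ k := by omega
      nlinarith
    subst hk3
    have hm0 : m = 0 := by
      push_cast at hge
      linarith
    obtain ⟨a, b, hab⟩ := Multiset.card_eq_two.mp (by omega : Multiset.card R = 2)
    have hSab : S = ep s r D t a + ep s r D t b := by
      rw [hSdef, hab]
      simp
    have ea := hlow a (by rw [hab]; simp)
    have eb := hlow b (by rw [hab]; simp)
    rw [hm0] at ea eb hs hs'
    have e1 : ep s r D t x = -1 := by linarith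
    have e2 : ep s r D t y = -1 := by linarith
    have e3 : ep s r D t a = 1 := by linarith
    have e4 : ep s r D t b = 1 := by linarith
    have e5 : ep s r D t x' = -1 := by linarith
    have e6 : ep s r D t y' = -1 := by linarith
    obtain ⟨I, hI⟩ := Imp_exists s r D t h hth 3 hk M x hm T hT hxT e1
    obtain ⟨I', hI'⟩ := Imp_exists s r D t h hth 3 hk M x' hm T' hT' hxT' e5
    have a1 := bD9_uniq s r D t h hth 3 hk hE M hm T hT X I hX (Or.inr ⟨x, hxT, e1, hI⟩)
    have a3 := bD9_uniq s r D t h hth 3 hk hE M hm T' hT' I' X' (Or.inr ⟨x', hxT', e5, hI'⟩)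
      hX'
    have hTe2 : T = {x, y, a, b} := by rw [hTe, hab]; rfl
    have hTe2' : T' = {x', y', a, b} := by rw [hTe', hab]; rfl
    rw [hTe2] at hT
    rw [hTe2'] at hT'
    have a2 := special s r D t h hth hN hE M x y x' y' a b (by
      have : (4 : ℤ) * D t - dv s r M t = m := by rw [hmdef]; push_cast; ring
      rw [this, hm0]) hT hT' e1 e2 e5 e6 e3 e4 I I' hI hI'
    exact (a1.trans a2).trans a3

/-- D9. `HC` for `k + 1 ≥ 4` -/
theorem HC_succ (s r : A → V) (D : V → ℤ) (t h : V) (hth : t ≠ h) (hN : ND D t h) (k : ℕ)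
    (hk : 3 ≤ k) (hE : EE s r D t h k) : HC s r D t h (k + 1) := by
  intro M T T' hT hT' hc
  have hm : 0 ≤ (k + 1 : ℤ) * D t - dv s r M t := by
    have hs := sum_ep s r D t h M (k + 1) 0 T hT
    have h0 : 0 ≤ (T.map fun x => ep s r D t x).sum := by
      apply Multiset.sum_nonneg
      intro z hz
      rw [Multiset.mem_map] at hz
      obtain ⟨g, hg, rfl⟩ := hz
      exact (hT.2.2 g hg).2
    rw [hs] at h0
    push_cast at h0
    exact h0
  have hTm : St s r D t h M (k + 1) (-1) T :=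
    ⟨hT.1, hT.2.1, fun x hx => ⟨(hT.2.2 x hx).1, by have := (hT.2.2 x hx).2; omega⟩⟩
  have key : St s r D t h M (k + 1) (-1) T' ∧ ∀ X X', bD9_Rep s r D t h M (k + 1) T X →
      bD9_Rep s r D t h M (k + 1) T' X' → Cn (St s r D t h M (k + 1) 0) X X' := by
    clear hT'
    induction hc with
    | refl => exact ⟨hTm, fun X X' h1 h2 =>
        bD9_uniq s r D t h hth k hk hE M hm T hTm X X' h1 h2⟩
    | tail _ hstep ih =>
      refine ⟨hstep.2.1, fun X X' h1 h2 => ?_⟩
      obtain ⟨Y, hY⟩ := bD9_ex s r D t h hth k hk M hm _ ih.1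
      exact (ih.2 X Y h1 hY).trans
        (bD9_move s r D t h hth hN k hk hE M hm _ _ ih.1 hstep.2.1 hstep.2.2 Y X' hY h2)
  exact key.2 T T' (Or.inl ⟨hT, Relation.ReflTransGen.refl⟩)
    (Or.inl ⟨hT', Relation.ReflTransGen.refl⟩)

end sec_D9

section sec_E1

open Finset

variable {V A : Type} [Fintype V] [DecidableEq V] [Fintype A] [DecidableEq A]

theorem ep_shift (s r : A → V) (D : V → ℤ) (t h : V) (hth : t ≠ h) (l : ℤ) (x : A → ℕ) :
    ep s r (fun v => D v + l * dl t h v) t x = ep s r D t x + l := by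
  unfold ep
  simp only []
  rw [dl_self t h hth]
  ring

theorem Fl_shift (s r : A → V) (D : V → ℤ) (t h : V) (hth : t ≠ h) (l : ℤ) (x : A → ℕ) :
    Fl s r (fun v => D v + l * dl t h v) t h x ↔ Fl s r D t h x := by
  unfold Fl
  rw [ep_shift s r D t h hth l x]
  constructor
  · intro hx v
    have := hx v
    linear_combination this
  · intro hx v
    have := hx v
    linear_combination this

/-- E1. shifting the level -/
theorem St_shift (s r : A → V) (D : V → ℤ) (t h : V) (hth : t ≠ h) (l : ℤ) (M : A → ℕ) (k : ℕ)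
    (j : ℤ) (T : Multiset (A → ℕ)) :
    St s r (fun v => D v + l * dl t h v) t h M k j T ↔ St s r D t h M k (j - l) T := by
  unfold St
  refine and_congr Iff.rfl (and_congr Iff.rfl ?_)
  refine forall_congr' fun x => forall_congr' fun _ => ?_
  rw [Fl_shift s r D t h hth l x, ep_shift s r D t h hth l x]
  refine and_congr Iff.rfl ?_
  constructor <;> intro h1 <;> linarith

theorem ND_shift (D : V → ℤ) (t h : V) (hN : ND D t h) (l : ℤ) :
    ND (fun v => D v + l * dl t h v) t h := by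
  intro S hS ht hh h0
  apply hN S hS ht hh
  rw [← h0]
  refine Finset.sum_congr rfl fun v hv => ?_
  have h1 : v ≠ t := fun h => ht (h ▸ hv)
  have h2 : v ≠ h := fun h => hh (h ▸ hv)
  have h3 : dl t h v = 0 := by
    unfold dl
    rw [if_neg h1, if_neg h2]
    norm_num
  simp only [h3]
  ring

/-- E2. going down from level `-L` to level `0` -/
theorem down (s r : A → V) (t h : V) (hth : t ≠ h) (k : ℕ)
    (hHC : ∀ D, ND D t h → HC s r D t h k) (D : V → ℤ) (hN : ND D t h) (M : A → ℕ) (L : ℕ)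
    (T T' : Multiset (A → ℕ)) (hT : St s r D t h M k 0 T) (hT' : St s r D t h M k 0 T')
    (hc : Cn (St s r D t h M k (-L)) T T') : Cn (St s r D t h M k 0) T T' := by
  induction L with
  | zero => simpa using hc
  | succ L ih =>
    apply ih
    have hmono : ∀ S : Multiset (A → ℕ), St s r D t h M k 0 S → St s r D t h M k (0 - (L : ℤ)) S := by
      intro S hS
      refine ⟨hS.1, hS.2.1, fun x hx => ⟨(hS.2.2 x hx).1, ?_⟩⟩
      have h1 := (hS.2.2 x hx).2
      have h2 : (0 : ℤ) ≤ L := Int.natCast_nonneg L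
      linarith
    have key := hHC _ (ND_shift D t h hN L) M T T'
      ((St_shift s r D t h hth L M k 0 T).2 (hmono T hT))
      ((St_shift s r D t h hth L M k 0 T').2 (hmono T' hT'))
    have e1 : St s r (fun v => D v + (L : ℤ) * dl t h v) t h M k (-1) =
        St s r D t h M k (-((L + 1 : ℕ) : ℤ)) := by
      funext S
      apply propext
      rw [St_shift s r D t h hth L M k (-1) S]
      have : (-1 : ℤ) - L = -((L + 1 : ℕ) : ℤ) := by
        push_cast
        ring
      rw [this]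
    have e0 : St s r (fun v => D v + (L : ℤ) * dl t h v) t h M k 0 =
        St s r D t h M k (-(L : ℤ)) := by
      funext S
      apply propext
      rw [St_shift s r D t h hth L M k 0 S, zero_sub]
    rw [e1, e0] at key
    exact key hc

end sec_E1

section sec_E3

open Finset

theorem e3_sym {α : Type} [AddCommMonoid α] (G : Multiset α → Prop) {T T' : Multiset α}
    (h : Cn G T T') : Cn G T' T := by
  induction h with
  | refl => exact Relation.ReflTransGen.refl
  | tail _ h2 ih =>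
      obtain ⟨h1, h2, x, y, x', y', R, e1, e2, e3⟩ := h2
      exact Relation.ReflTransGen.head ⟨h2, h1, x', y', x, y, R, e2, e1, e3.symm⟩ ih

/-- all multisets of `k + 1` elements are connected to the concentrated one -/
theorem e3_norm {α : Type} [AddCommMonoid α] (G : Multiset α → Prop) (hG : ∀ T, G T) (k : ℕ) :
    ∀ T : Multiset α, Multiset.card T = k + 1 → Cn G T (T.sum ::ₘ Multiset.replicate k 0) := by
  induction k with
  | zero =>
      intro T hT
      obtain ⟨x, rfl⟩ := Multiset.card_eq_one.1 hT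
      simp only [Multiset.sum_singleton, Multiset.replicate_zero]
      exact Relation.ReflTransGen.refl
  | succ k ih =>
      intro T hT
      obtain ⟨x, hx⟩ := Multiset.card_pos_iff_exists_mem.1 (by omega : 0 < Multiset.card T)
      obtain ⟨R, rfl⟩ := Multiset.exists_cons_of_mem hx
      have hR : Multiset.card R = k + 1 := by
        rw [Multiset.card_cons] at hT
        omega
      have h1 := ih R hR
      have h2 : Cn G (x ::ₘ R) (x ::ₘ R.sum ::ₘ Multiset.replicate k 0) := by
        have key : ∀ S S' : Multiset α, Cn G S S' → Cn G (x ::ₘ S) (x ::ₘ S') := by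
          intro S S' h
          induction h with
          | refl => exact Relation.ReflTransGen.refl
          | tail _ h2 ih2 =>
              obtain ⟨_, _, p, q, p', q', R', e1, e2, e3⟩ := h2
              refine Relation.ReflTransGen.tail ih2
                ⟨hG _, hG _, p, q, p', q', x ::ₘ R', ?_, ?_, e3⟩
              · rw [e1, Multiset.cons_swap x p, Multiset.cons_swap x q]
              · rw [e2, Multiset.cons_swap x p', Multiset.cons_swap x q']
        exact key _ _ h1
      refine Relation.ReflTransGen.tail h2 ⟨hG _, hG _, x, R.sum, x + R.sum, 0,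
        Multiset.replicate k 0, rfl, ?_, (add_zero _).symm⟩
      rw [Multiset.sum_cons, Multiset.replicate_succ]

/-- E3. at most one vertex -/
theorem Thm_base (V : Type) [Fintype V] [DecidableEq V] (hV : Fintype.card V ≤ 1) : Thm V := by
  intro A _ _ s r D _ T T' hT hT' hc hs
  have hsub : Subsingleton V := Fintype.card_le_one_iff_subsingleton.1 hV
  have hdv : ∀ (x : A → ℕ) v, dv s r x v = 0 := by
    intro x v
    unfold dv
    refine Finset.sum_eq_zero fun a _ => ?_
    rw [Subsingleton.elim (s a) v, Subsingleton.elim (r a) v]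
    simp
  by_cases hD : ∀ v, D v = 0
  · have hG : ∀ T : Multiset (A → ℕ), (fun T => ∀ x ∈ T, ∀ v, dv s r x v = D v) T := by
      intro T x _ v
      rw [hdv, hD]
    rcases Nat.eq_zero_or_pos (Multiset.card T) with h0 | h0
    · have e1 : T = 0 := Multiset.card_eq_zero.1 h0
      have e2 : T' = 0 := Multiset.card_eq_zero.1 (hc ▸ h0)
      rw [e1, e2]
      exact Relation.ReflTransGen.refl
    · obtain ⟨k, hk⟩ := Nat.exists_eq_succ_of_ne_zero h0.ne'
      have h1 := e3_norm (fun T => ∀ x ∈ T, ∀ v, dv s r x v = D v) hG k T hk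
      have h2 := e3_norm (fun T => ∀ x ∈ T, ∀ v, dv s r x v = D v) hG k T' (hc ▸ hk)
      rw [hs] at h1
      exact Relation.ReflTransGen.trans h1 (e3_sym _ h2)
  · push Not at hD
    obtain ⟨v, hv⟩ := hD
    have h0 : ∀ S : Multiset (A → ℕ), (∀ x ∈ S, ∀ v, dv s r x v = D v) → S = 0 := by
      intro S hS
      refine Multiset.eq_zero_of_forall_notMem fun x hx => hv ?_
      rw [← hS x hx v, hdv]
    rw [h0 T hT, h0 T' hT']
    exact Relation.ReflTransGen.refl

end sec_E3

section sec_E4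

open Finset

section bE4

variable {V A : Type} [Fintype V] [DecidableEq V] [Fintype A] [DecidableEq A]

/-- the contraction of `t, h` -/
def bE4_kap (t h : V) (hth : t ≠ h) (v : V) : {v : V // v ≠ h} :=
  if hv : v = h then ⟨t, hth⟩ else ⟨v, hv⟩

theorem bE4_ind (t h : V) (hth : t ≠ h) (u : V) (w : {v : V // v ≠ h}) :
    (if bE4_kap t h hth u = w then (1 : ℤ) else 0)
      = (if u = w.1 then 1 else 0) + (if w.1 = t then (if u = h then 1 else 0) else 0) := by
  unfold bE4_kap
  have hw := w.2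
  by_cases hu : u = h
  · have h1 : ¬ (u = w.1) := fun e => hw (e.symm.trans hu)
    by_cases hwt : w.1 = t
    · have : (⟨t, hth⟩ : {v : V // v ≠ h}) = w := Subtype.ext hwt.symm
      simp [hu, hwt, this, hth.symm]
    · have : (⟨t, hth⟩ : {v : V // v ≠ h}) ≠ w := fun e => hwt (by rw [← e])
      have h2 : ¬ (h = w.1) := fun e => hw e.symm
      simp [hu, hwt, this, h2]
  · by_cases huw : u = w.1
    · have : (⟨u, hu⟩ : {v : V // v ≠ h}) = w := Subtype.ext huw
      simp [huw, hw]
    · have : (⟨u, hu⟩ : {v : V // v ≠ h}) ≠ w := fun e => huw (by rw [← e])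
      simp [hu, huw, this]

theorem bE4_dv (t h : V) (hth : t ≠ h) (s r : A → V) (x : A → ℕ) (w : {v : V // v ≠ h}) :
    dv (fun a => bE4_kap t h hth (s a)) (fun a => bE4_kap t h hth (r a)) x w
      = dv s r x w.1 + (if w.1 = t then dv s r x h else 0) := by
  unfold dv
  simp only [bE4_ind]
  by_cases hwt : w.1 = t
  · simp only [hwt, if_true]
    rw [← Finset.sum_add_distrib]
    refine Finset.sum_congr rfl fun a _ => ?_
    ring
  · simp only [hwt, if_false, add_zero]

/-- the contracted divergence -/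
def bE4_D (t h : V) (D : V → ℤ) (w : {v : V // v ≠ h}) : ℤ :=
  D w.1 + (if w.1 = t then D h else 0)

theorem bE4_iff (t h : V) (hth : t ≠ h) (s r : A → V) (D : V → ℤ) (x : A → ℕ) :
    (∀ w, dv (fun a => bE4_kap t h hth (s a)) (fun a => bE4_kap t h hth (r a)) x w = bE4_D t h D w)
      ↔ Fl s r D t h x := by
  constructor
  · intro H v
    have Ht := H ⟨t, hth⟩
    rw [bE4_dv] at Ht
    simp only [bE4_D, if_true] at Ht
    by_cases hvh : v = h
    · subst hvh
      have : dl t v v = -1 := by simp [dl, hth.symm]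
      rw [this]
      unfold ep
      linarith
    · by_cases hvt : v = t
      · subst hvt
        have : dl v h v = 1 := by simp [dl, hth]
        rw [this]
        unfold ep
        ring
      · have Hv := H ⟨v, hvh⟩
        rw [bE4_dv] at Hv
        simp only [bE4_D, hvt, if_false, add_zero] at Hv
        have : dl t h v = 0 := by simp [dl, hvt, hvh]
        rw [this, Hv]
        ring
  · intro H w
    rw [bE4_dv, bE4_D, H w.1, H h]
    have hw := w.2
    by_cases hwt : w.1 = t
    · have h1 : dl t h w.1 = 1 := by simp [dl, hwt, hth]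
      have h2 : dl t h h = -1 := by simp [dl, hth.symm]
      simp only [hwt, if_true]
      rw [hwt] at h1
      rw [h1, h2]
      ring
    · have h1 : dl t h w.1 = 0 := by simp [dl, hwt, hw]
      simp only [hwt, if_false]
      rw [h1]
      ring

theorem bE4_nd1 (t h : V) (hth : t ≠ h) (D : V → ℤ) (hN : ND D t h)
    (S : Finset {v : V // v ≠ h}) (hS : S.Nonempty) (ht : (⟨t, hth⟩ : {v : V // v ≠ h}) ∉ S) :
    ∑ w ∈ S, bE4_D t h D w ≠ 0 := by
  have h1 : ∑ w ∈ S, bE4_D t h D w = ∑ v ∈ S.map (Function.Embedding.subtype _), D v := by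
    rw [Finset.sum_map]
    refine Finset.sum_congr rfl fun w hw => ?_
    have : w.1 ≠ t := fun e => ht (by
      have : w = ⟨t, hth⟩ := Subtype.ext e
      rwa [this] at hw)
    simp [bE4_D, this]
  rw [h1]
  refine hN _ (by simpa using hS) ?_ ?_
  · intro hm
    rw [Finset.mem_map] at hm
    obtain ⟨w, hw, he⟩ := hm
    exact ht (by
      have : w = ⟨t, hth⟩ := Subtype.ext he
      rwa [this] at hw)
  · intro hm
    rw [Finset.mem_map] at hm
    obtain ⟨w, hw, he⟩ := hm
    exact w.2 he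

theorem bE4_nd (t h : V) (hth : t ≠ h) (s r : A → V) (D : V → ℤ) (hN : ND D t h) (x : A → ℕ)
    (hx : Fl s r D t h x) (S : Finset {v : V // v ≠ h}) (hS : S.Nonempty) (hS' : S ≠ univ) :
    ∑ w ∈ S, bE4_D t h D w ≠ 0 := by
  by_cases ht : (⟨t, hth⟩ : {v : V // v ≠ h}) ∈ S
  · have htot : ∑ w : {v : V // v ≠ h}, bE4_D t h D w = 0 := by
      have h1 := sum_dv (fun a => bE4_kap t h hth (s a)) (fun a => bE4_kap t h hth (r a)) x
        (univ : Finset {v : V // v ≠ h})
      have h2 : ∀ (p q : A → {v : V // v ≠ h}), xo p q x univ = 0 := by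
        intro p q
        simp [xo]
      rw [h2, h2] at h1
      rw [← Finset.sum_congr rfl fun w _ => (bE4_iff t h hth s r D x).2 hx w]
      simpa using h1
    have hc : (Sᶜ).Nonempty := by
      rw [Finset.nonempty_iff_ne_empty]
      intro e
      exact hS' (by simpa using e)
    have h3 := bE4_nd1 t h hth D hN Sᶜ hc (by simpa using ht)
    have h4 := Finset.sum_add_sum_compl S (bE4_D t h D)
    intro h5
    apply h3
    rw [h5, htot] at h4
    simpa using h4
  · exact bE4_nd1 t h hth D hN S hS ht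

theorem bE4_mv (T T' : Multiset (A → ℕ)) (h : Mv T T') :
    Multiset.card T' = Multiset.card T ∧ T'.sum = T.sum := by
  obtain ⟨x, y, x', y', R, rfl, rfl, hxy⟩ := h
  constructor
  · simp
  · simp only [Multiset.sum_cons, ← add_assoc, hxy]

theorem bE4_bound {α : Type} [DecidableEq α] (T : Multiset α) (f : α → ℤ) :
    ∃ L : ℕ, ∀ x ∈ T, -(L : ℤ) ≤ f x := by
  refine ⟨T.toFinset.sup fun x => (f x).natAbs, fun x hx => ?_⟩
  have h1 : (f x).natAbs ≤ T.toFinset.sup fun x => (f x).natAbs :=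
    Finset.le_sup (f := fun x => (f x).natAbs) (Multiset.mem_toFinset.2 hx)
  omega

theorem bE4_St_mono (s r : A → V) (D : V → ℤ) (t h : V) (M : A → ℕ) (k : ℕ) (j j' : ℤ)
    (hj : j' ≤ j) (T : Multiset (A → ℕ)) (hT : St s r D t h M k j T) : St s r D t h M k j' T :=
  ⟨hT.1, hT.2.1, fun x hx => ⟨(hT.2.2 x hx).1, hj.trans (hT.2.2 x hx).2⟩⟩

theorem bE4_Cn_mono {α : Type} [AddCommMonoid α] (G G' : Multiset α → Prop)
    (h : ∀ T, G T → G' T) (T T' : Multiset α) (hC : Cn G T T') : Cn G' T T' := by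
  unfold Cn at hC ⊢
  induction hC with
  | refl => exact Relation.ReflTransGen.refl
  | tail _ hab ih => exact ih.tail ⟨h _ hab.1, h _ hab.2.1, hab.2.2⟩

end bE4

/-- E4. contraction of `t, h`: the theorem for `{v // v ≠ h}` connects states through arbitrary
levels (`κ v = if v = h then t else v`) -/
theorem contract (V : Type) [Fintype V] [DecidableEq V] (t h : V) (hth : t ≠ h)
    (IH : Thm {v : V // v ≠ h}) (A : Type) [Fintype A] [DecidableEq A] (s r : A → V) (D : V → ℤ)
    (hN : ND D t h) (M : A → ℕ) (k : ℕ) (T T' : Multiset (A → ℕ)) (hT : St s r D t h M k 0 T)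
    (hT' : St s r D t h M k 0 T') : ∃ L : ℕ, Cn (St s r D t h M k (-L)) T T' := by
  rcases T.empty_or_exists_mem with rfl | ⟨x0, hx0⟩
  · have hk : k = 0 := by simpa using hT.1.symm
    have hT'0 : T' = 0 := by
      rw [← Multiset.card_eq_zero, hT'.1, hk]
    subst hT'0
    exact ⟨0, Relation.ReflTransGen.refl⟩
  · have hfx0 := (hT.2.2 x0 hx0).1
    have hpath := IH A (fun a => bE4_kap t h hth (s a)) (fun a => bE4_kap t h hth (r a))
      (bE4_D t h D) (bE4_nd t h hth s r D hN x0 hfx0) T T'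
      (fun x hx => (bE4_iff t h hth s r D x).2 (hT.2.2 x hx).1)
      (fun x hx => (bE4_iff t h hth s r D x).2 (hT'.2.2 x hx).1)
      (hT.1.trans hT'.1.symm) (hT.2.1.trans hT'.2.1.symm)
    have key : ∃ L : ℕ, Cn (St s r D t h M k (-L)) T T' ∧ St s r D t h M k (-L) T' := by
      clear hT'
      unfold Cn at hpath
      induction hpath with
      | refl => exact ⟨0, Relation.ReflTransGen.refl, by simpa using hT⟩
      | @tail b c hb hbc ih =>
        obtain ⟨L0, hC0, hS0⟩ := ih
        obtain ⟨-, hGc, hmv⟩ := hbc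
        obtain ⟨hcard, hsum⟩ := bE4_mv b c hmv
        obtain ⟨L1, hL1⟩ := bE4_bound c (fun x => ep s r D t x)
        have hm0 : (-((max L0 L1 : ℕ) : ℤ)) ≤ -(L0 : ℤ) := by
          have := le_max_left L0 L1
          omega
        have hm1 : (-((max L0 L1 : ℕ) : ℤ)) ≤ -(L1 : ℤ) := by
          have := le_max_right L0 L1
          omega
        have hSc : St s r D t h M k (-((max L0 L1 : ℕ) : ℤ)) c :=
          ⟨hcard.trans hS0.1, hsum.trans hS0.2.1, fun x hx =>
            ⟨(bE4_iff t h hth s r D x).1 (hGc x hx), hm1.trans (hL1 x hx)⟩⟩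
        refine ⟨max L0 L1, ?_, hSc⟩
        refine Relation.ReflTransGen.tail
          (bE4_Cn_mono _ _ (fun T hT => bE4_St_mono s r D t h M k _ _ hm0 T hT) T b hC0) ?_
        exact ⟨bE4_St_mono s r D t h M k _ _ hm0 b hS0, hSc, hmv⟩
    obtain ⟨L, hL, -⟩ := key
    exact ⟨L, hL⟩

end sec_E4

section sec_E5

open Finset

/-- E5. `EE` for all `k` and all `D` -/
theorem EE_all (V : Type) [Fintype V] [DecidableEq V] (t h : V) (hth : t ≠ h)
    (IH : Thm {v : V // v ≠ h}) (A : Type) [Fintype A] [DecidableEq A] (s r : A → V) (k : ℕ) :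
    ∀ D : V → ℤ, ND D t h → EE s r D t h k := by
  induction k with
  | zero => intro D _; exact EE_small s r D t h 0 (by omega)
  | succ k ih =>
    intro D hN
    by_cases hk : k + 1 ≤ 2
    · exact EE_small s r D t h (k + 1) hk
    have hHC : ∀ D : V → ℤ, ND D t h → HC s r D t h (k + 1) := by
      intro D hN
      by_cases hk3 : 3 ≤ k
      · exact HC_succ s r D t h hth hN k hk3 (ih D hN)
      · have hk2 : k = 2 := by omega
        subst hk2
        exact HC_three s r D t h hth hN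
    intro M T T' hT hT'
    obtain ⟨L, hL⟩ := contract V t h hth IH A s r D hN M (k + 1) T T' hT hT'
    exact down s r t h hth (k + 1) hHC D hN M L T T' hT hT' hL

/-- a state of total level `0` consists of flows of level `0` -/
theorem be5_level_zero {V A : Type} [Fintype V] [DecidableEq V] [Fintype A] [DecidableEq A]
    (s r : A → V) (D : V → ℤ) (t h : V) (M : A → ℕ) (k : ℕ) (T : Multiset (A → ℕ))
    (hT : St s r D t h M k 0 T) (hm : k * D t - dv s r M t = 0) (x : A → ℕ) (hx : x ∈ T) (v : V) :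
    dv s r x v = D v := by
  have hs := sum_ep s r D t h M k 0 T hT
  rw [hm] at hs
  have h0 : ∀ y ∈ T, 0 ≤ ep s r D t y := fun y hy => (hT.2.2 y hy).2
  have hle : ep s r D t x ≤ (T.map fun x => ep s r D t x).sum := by
    apply Multiset.single_le_sum
    · intro z hz
      obtain ⟨y, hy, rfl⟩ := Multiset.mem_map.1 hz
      exact h0 y hy
    · exact Multiset.mem_map_of_mem (fun x => ep s r D t x) hx
  have he : ep s r D t x = 0 := le_antisymm (by rw [← hs]; exact hle) (h0 x hx)
  have hF := (hT.2.2 x hx).1 v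
  rw [he, zero_mul, sub_zero] at hF
  exact hF

/-- E6. -/
theorem Thm_all (V : Type) [Fintype V] [DecidableEq V] : Thm V := by
  suffices H : ∀ n : ℕ, ∀ (V : Type) [Fintype V] [DecidableEq V], Fintype.card V = n → Thm V from
    H _ V rfl
  intro n
  induction n using Nat.strong_induction_on with
  | _ n ih =>
    intro V _ _ hn
    by_cases h1 : Fintype.card V ≤ 1
    · exact Thm_base V h1
    push Not at h1
    obtain ⟨t, h, hth⟩ := Fintype.one_lt_card_iff.1 h1
    have IH : Thm {v : V // v ≠ h} := by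
      apply ih (Fintype.card {v : V // v ≠ h}) _ _ rfl
      rw [← hn]
      exact Fintype.card_subtype_lt (x := h) (by simp)
    intro A _ _ s r D hD T T' hT hT' hc hsum
    have hN : ND D t h := by
      intro S hS ht _
      exact hD S hS (fun he => ht (by rw [he]; exact mem_univ t))
    have hE := EE_all V t h hth IH A s r (Multiset.card T) D hN
    have hep : ∀ x : A → ℕ, (∀ v, dv s r x v = D v) → ep s r D t x = 0 := by
      intro x hx
      unfold ep
      rw [hx t, sub_self]
    have hst : ∀ T : Multiset (A → ℕ), (∀ x ∈ T, ∀ v, dv s r x v = D v) →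
        St s r D t h T.sum (Multiset.card T) 0 T := by
      intro T hT
      refine ⟨rfl, rfl, fun x hx => ⟨fun v => ?_, ?_⟩⟩
      · rw [hep x (hT x hx), hT x hx v, zero_mul, sub_zero]
      · rw [hep x (hT x hx)]
    have hSt := hst T hT
    have hSt' := hst T' hT'
    rw [← hsum, ← hc] at hSt'
    have hm : (Multiset.card T : ℤ) * D t - dv s r T.sum t = 0 := by
      rw [← sum_ep s r D t h T.sum (Multiset.card T) 0 T hSt]
      apply Multiset.sum_eq_zero
      intro z hz
      obtain ⟨y, hy, rfl⟩ := Multiset.mem_map.1 hz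
      exact hep y (hT y hy)
    have hC := hE T.sum T T' hSt hSt'
    refine Relation.ReflTransGen.mono ?_ _ _ hC
    rintro T1 T2 ⟨g1, g2, hmv⟩
    exact ⟨fun x hx v => be5_level_zero s r D t h _ _ T1 g1 hm x hx v,
      fun x hx v => be5_level_zero s r D t h _ _ T2 g2 hm x hx v, hmv⟩

/-- E7. The connectedness theorem with the hypothesis of one pair `t, h`. -/
theorem conn (V : Type) [Fintype V] [DecidableEq V] (A : Type) [Fintype A] [DecidableEq A]
    (s r : A → V) (D : V → ℤ) (t h : V) (hth : t ≠ h) (hN : ND D t h)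
    (T T' : Multiset (A → ℕ)) (hT : ∀ x ∈ T, ∀ v, dv s r x v = D v)
    (hT' : ∀ x ∈ T', ∀ v, dv s r x v = D v) (hc : Multiset.card T = Multiset.card T')
    (hsum : T.sum = T'.sum) : Cn (fun T => ∀ x ∈ T, ∀ v, dv s r x v = D v) T T' := by
  have hE := EE_all V t h hth (Thm_all _) A s r (Multiset.card T) D hN
  have hep : ∀ x : A → ℕ, (∀ v, dv s r x v = D v) → ep s r D t x = 0 := by
    intro x hx
    unfold ep
    rw [hx t, sub_self]
  have hst : ∀ T : Multiset (A → ℕ), (∀ x ∈ T, ∀ v, dv s r x v = D v) →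
      St s r D t h T.sum (Multiset.card T) 0 T := by
    intro T hT
    refine ⟨rfl, rfl, fun x hx => ⟨fun v => ?_, ?_⟩⟩
    · rw [hep x (hT x hx), hT x hx v, zero_mul, sub_zero]
    · rw [hep x (hT x hx)]
  have hSt := hst T hT
  have hSt' := hst T' hT'
  rw [← hsum, ← hc] at hSt'
  have hm : (Multiset.card T : ℤ) * D t - dv s r T.sum t = 0 := by
    rw [← sum_ep s r D t h T.sum (Multiset.card T) 0 T hSt]
    apply Multiset.sum_eq_zero
    intro z hz
    obtain ⟨y, hy, rfl⟩ := Multiset.mem_map.1 hz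
    exact hep y (hT y hy)
  have hC := hE T.sum T T' hSt hSt'
  refine Relation.ReflTransGen.mono ?_ _ _ hC
  rintro T1 T2 ⟨g1, g2, hmv⟩
  exact ⟨fun x hx v => be5_level_zero s r D t h _ _ T1 g1 hm x hx v,
    fun x hx v => be5_level_zero s r D t h _ _ T2 g2 hm x hx v, hmv⟩

end sec_E5

section sec_F1

open Finset

/-- the map to `ℕ`-valued functions -/
def bf1_toN {A : Type} {S : (A → ℤ) → Prop} (u : {u : A → ℤ // S u}) : A → ℕ :=
  fun a => (u.1 a).toNat

theorem bf1_lift {V A : Type} [Fintype V] [DecidableEq V] [Fintype A] [DecidableEq A] (s r : A → V)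
    (D : V → ℤ) (S : (A → ℤ) → Prop) (hS : ∀ u, S u ↔ (∀ a, 0 ≤ u a) ∧
      ∀ v, (∑ a, u a * ((if s a = v then 1 else 0) - (if r a = v then 1 else 0))) = D v)
    (x : A → ℕ) (hx : ∀ v, dv s r x v = D v) :
    ∃ u : {u : A → ℤ // S u}, bf1_toN u = x := by
  refine ⟨⟨fun a => (x a : ℤ), (hS _).2 ⟨fun a => Int.natCast_nonneg _, fun v => ?_⟩⟩, ?_⟩
  · exact hx v
  · funext a
    simp [bf1_toN]

theorem bf1_dv {V A : Type} [Fintype V] [DecidableEq V] [Fintype A] [DecidableEq A] (s r : A → V)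
    (D : V → ℤ) (S : (A → ℤ) → Prop) (hS : ∀ u, S u ↔ (∀ a, 0 ≤ u a) ∧
      ∀ v, (∑ a, u a * ((if s a = v then 1 else 0) - (if r a = v then 1 else 0))) = D v)
    (u : {u : A → ℤ // S u}) (v : V) : dv s r (bf1_toN u) v = D v := by
  have h := (hS u.1).1 u.2
  rw [← h.2 v]
  unfold dv bf1_toN
  apply Finset.sum_congr rfl
  intro a _
  rw [Int.toNat_of_nonneg (h.1 a)]

theorem bf1_coe {A : Type} (S : (A → ℤ) → Prop) (hS : ∀ u, S u → (∀ a, 0 ≤ u a))
    (u : {u : A → ℤ // S u}) (a : A) : ((bf1_toN u a : ℕ) : ℤ) = u.1 a := by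
  unfold bf1_toN
  exact Int.toNat_of_nonneg (hS _ u.2 a)

theorem bf1_inj {A : Type} (S : (A → ℤ) → Prop) (hS : ∀ u, S u → (∀ a, 0 ≤ u a)) :
    Function.Injective (bf1_toN : {u : A → ℤ // S u} → A → ℕ) := by
  intro u w h
  apply Subtype.ext
  funext a
  rw [← bf1_coe S hS u a, ← bf1_coe S hS w a, h]

/-- F1. toric ideals (via `Pool.Agent.Lib_helper99.Bog.ker_eq_span`) -/
theorem quadGen (V A : Type) [Fintype V] [DecidableEq V] [Fintype A] [DecidableEq A] (s r : A → V)
    (D : V → ℤ) (hD : ∃ t h : V, t ≠ h ∧ ND D t h)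
    (S : (A → ℤ) → Prop) (hS : ∀ u, S u ↔ (∀ a, 0 ≤ u a) ∧
      ∀ v, (∑ a, u a * ((if s a = v then 1 else 0) - (if r a = v then 1 else 0))) = D v)
    (k : Type) [Field k] (φ : MvPolynomial {u : A → ℤ // S u} k →ₐ[k] AddMonoidAlgebra k ((A → ℤ) × ℤ))
    (hφ : ∀ u, φ (MvPolynomial.X u) = AddMonoidAlgebra.single (u.1, (1 : ℤ)) (1 : k)) :
    RingHom.ker φ = Ideal.span {f | f ∈ RingHom.ker φ ∧ f.IsHomogeneous 2} := by
  classical
  have hS0 : ∀ u, S u → (∀ a, 0 ≤ u a) := fun u hu => ((hS u).1 hu).1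
  apply Pool.Agent.Lib_helper99.Bog.ker_eq_span
    (v := fun u : {u : A → ℤ // S u} => (u.1, (1 : ℤ))) φ hφ
  intro p q hpq
  have hfst : ∀ s : Multiset {u : A → ℤ // S u},
      ((s.map (fun u => ((u.1, (1 : ℤ)) : (A → ℤ) × ℤ))).sum).1 = (s.map (fun u => u.1)).sum := by
    intro s
    induction s using Multiset.induction_on with
    | empty => rfl
    | cons a s ih =>
      rw [Multiset.map_cons, Multiset.sum_cons, Multiset.map_cons, Multiset.sum_cons, ← ih]
      rfl
  have hsnd : ∀ s : Multiset {u : A → ℤ // S u},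
      ((s.map (fun u => ((u.1, (1 : ℤ)) : (A → ℤ) × ℤ))).sum).2 = (Multiset.card s : ℤ) := by
    intro s
    induction s using Multiset.induction_on with
    | empty => rfl
    | cons a s ih =>
      rw [Multiset.map_cons, Multiset.sum_cons, Multiset.card_cons, Prod.snd_add, ih]
      push_cast
      ring
  have hcast : ∀ s : Multiset {u : A → ℤ // S u}, ∀ a,
      (((s.map bf1_toN).sum a : ℕ) : ℤ) = (s.map (fun u => u.1)).sum a := by
    intro s a
    induction s using Multiset.induction_on with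
    | empty => simp
    | cons u s ih =>
      rw [Multiset.map_cons, Multiset.sum_cons, Multiset.map_cons, Multiset.sum_cons, Pi.add_apply,
        Pi.add_apply, ← ih, Nat.cast_add, bf1_coe S hS0]
  have hcard : Multiset.card (p.map bf1_toN) = Multiset.card (q.map bf1_toN) := by
    rw [Multiset.card_map, Multiset.card_map]
    have h := congrArg Prod.snd hpq
    rw [hsnd, hsnd] at h
    exact_mod_cast h
  have hsum : (p.map bf1_toN).sum = (q.map bf1_toN).sum := by
    funext a
    have h := congrFun (congrArg Prod.fst hpq) a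
    rw [hfst, hfst, ← hcast, ← hcast] at h
    exact_mod_cast h
  have hG : ∀ p : Multiset {u : A → ℤ // S u}, ∀ x ∈ p.map bf1_toN, ∀ v, dv s r x v = D v := by
    intro p x hx v
    obtain ⟨u, _, rfl⟩ := Multiset.mem_map.1 hx
    exact bf1_dv s r D S hS u v
  obtain ⟨t, h, hth, hN⟩ := hD
  have hC := conn V A s r D t h hth hN (p.map bf1_toN) (q.map bf1_toN) (hG p) (hG q) hcard hsum
  -- lifting of a chain
  have key : ∀ T T' : Multiset (A → ℕ), Cn (fun T => ∀ x ∈ T, ∀ v, dv s r x v = D v) T T' →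
      ∀ p : Multiset {u : A → ℤ // S u}, p.map bf1_toN = T →
        ∃ q : Multiset {u : A → ℤ // S u}, q.map bf1_toN = T' ∧
          Relation.ReflTransGen (Pool.Agent.Lib_helper99.Bog.MStep
            (fun u : {u : A → ℤ // S u} => (u.1, (1 : ℤ)))) p q := by
    intro T T' hTT
    induction hTT with
    | refl => intro p hp; exact ⟨p, hp, Relation.ReflTransGen.refl⟩
    | tail _ hs ih =>
      rename_i T1 T2 _
      intro p hp
      obtain ⟨q1, hq1, hpq1⟩ := ih p hp
      obtain ⟨g1, g2, x, y, x', y', R, hT1, hT2, hxy⟩ := hs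
      rw [hT1] at hq1
      obtain ⟨a, ha, hax, hm1⟩ := (Multiset.map_eq_cons _ _ _ _).2 hq1
      obtain ⟨b, hb, hby, hm2⟩ := (Multiset.map_eq_cons _ _ _ _).2 hm1
      obtain ⟨c, hc⟩ := bf1_lift s r D S hS x' (g2 x' (by rw [hT2]; simp))
      obtain ⟨d, hd⟩ := bf1_lift s r D S hS y' (g2 y' (by rw [hT2]; simp))
      refine ⟨c ::ₘ d ::ₘ ((q1.erase a).erase b), ?_, hpq1.tail ?_⟩
      · rw [Multiset.map_cons, Multiset.map_cons, hm2, hc, hd, hT2]
      · refine ⟨a, b, c, d, (q1.erase a).erase b, ?_, rfl, ?_⟩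
        · rw [Multiset.cons_erase hb, Multiset.cons_erase ha]
        · refine Prod.ext ?_ rfl
          funext i
          have h := congrFun hxy i
          rw [← hax, ← hby, ← hc, ← hd] at h
          have h' : ((bf1_toN a i : ℕ) : ℤ) + ((bf1_toN b i : ℕ) : ℤ)
              = ((bf1_toN c i : ℕ) : ℤ) + ((bf1_toN d i : ℕ) : ℤ) := by
            exact_mod_cast h
          rw [bf1_coe S hS0, bf1_coe S hS0, bf1_coe S hS0, bf1_coe S hS0] at h'
          exact h'
  obtain ⟨q', hq', hr⟩ := key _ _ hC p rfl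
  have : q' = q := Multiset.map_injective (bf1_inj S hS0) hq'
  rw [this] at hr
  exact hr

end sec_F1

end Pool.Agent.T16
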